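import Pool.Agent.H35.Q51.G3
import Mathlib.Algebra.QuadraticAlgebra.Basic

/-!
The unramified quadratic extension of the `p`-adic integers generated by a square root of `-3`.
-/

set_option autoImplicit false
set_option linter.unusedSectionVars false
set_option linter.unusedSimpArgs false
set_option linter.unusedVariables false

namespace Pool.Agent.H35.Q51

open Polynomial

variable {p : ℕ} [hp : Fact p.Prime]

/-- the ring -/
abbrev WW (p : ℕ) [Fact p.Prime] := QuadraticAlgebra ℤ_[p] (-3) 0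

/-- its residue field -/
abbrev KW (p : ℕ) [Fact p.Prime] := QuadraticAlgebra (ZMod p) (-3) 0

theorem padic_dvd_iff (x : ℤ_[p]) : PadicInt.toZMod x = 0 ↔ (p : ℤ_[p]) ∣ x :=
  Pool.Agent.H475R2.red_eq_zero x

theorem padic_unit {x : ℤ_[p]} (h : PadicInt.toZMod x ≠ 0) : IsUnit x := by
  apply Pool.Agent.H475R2.isUnit_of_not_dvd
  rw [← padic_dvd_iff]
  exact h

/-- no square root of a non-residue in the `p`-adic integers -/
theorem no_sqrt (hn : ∀ r : ZMod p, r ^ 2 ≠ -3) (q : ℤ_[p]) : q ^ 2 ≠ -3 := by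
  intro h
  apply hn (PadicInt.toZMod q)
  rw [← map_pow, h, map_neg, map_ofNat]

theorem norm_zero_imp (hp5 : 5 ≤ p) (hn : ∀ r : ZMod p, r ^ 2 ≠ -3) {a b : ℤ_[p]}
    (h : a ^ 2 + 3 * b ^ 2 = 0) : a = 0 ∧ b = 0 := by
  have hb : b = 0 := by
    by_contra hb
    have hb' : (b : ℚ_[p]) ≠ 0 := by
      rw [Ne, PadicInt.coe_eq_zero]; exact hb
    have h' : (a : ℚ_[p]) ^ 2 + 3 * (b : ℚ_[p]) ^ 2 = 0 := by
      have := congrArg (fun x : ℤ_[p] => (x : ℚ_[p])) h
      push_cast at this
      exact this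
    have hq : ((a : ℚ_[p]) / b) ^ 2 = -3 := by
      field_simp
      linear_combination h'
    have h3 : ‖(3 : ℚ_[p])‖ = 1 := by
      have h3u : ¬ (p : ℤ) ∣ 3 := by
        intro hd
        have : p ∣ 3 := by exact_mod_cast hd
        have := Nat.le_of_dvd (by norm_num) this
        omega
      have := Pool.Agent.H475R2.isUnit_intCast h3u
      rw [PadicInt.isUnit_iff] at this
      have e : ‖(3 : ℚ_[p])‖ = ‖((3 : ℤ) : ℤ_[p])‖ := by
        rw [PadicInt.norm_def]; push_cast; rfl
      rw [e]; exact this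
    have hnq : ‖(a : ℚ_[p]) / b‖ ^ 2 = 1 := by
      rw [← norm_pow, hq, norm_neg, h3]
    have hnq1 : ‖(a : ℚ_[p]) / b‖ ≤ 1 := by
      have h0 := norm_nonneg ((a : ℚ_[p]) / b)
      nlinarith
    apply no_sqrt hn (⟨(a : ℚ_[p]) / b, hnq1⟩ : ℤ_[p])
    apply Subtype.ext
    push_cast
    exact hq
  refine ⟨?_, hb⟩
  rw [hb] at h
  have : a ^ 2 = 0 := by linear_combination h
  exact pow_eq_zero_iff (by norm_num) |>.1 this

theorem WW_norm (z : WW p) : QuadraticAlgebra.norm z = z.re ^ 2 + 3 * z.im ^ 2 := by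
  rw [QuadraticAlgebra.norm_def]; ring

theorem WW_domain (hp5 : 5 ≤ p) (hn : ∀ r : ZMod p, r ^ 2 ≠ -3) : IsDomain (WW p) := by
  have : NoZeroDivisors (WW p) := by
    constructor
    intro z w hzw
    have h := congrArg QuadraticAlgebra.norm hzw
    rw [map_mul, QuadraticAlgebra.norm_zero] at h
    rcases mul_eq_zero.1 h with h | h
    · left
      rw [WW_norm] at h
      obtain ⟨h1, h2⟩ := norm_zero_imp hp5 hn h
      exact QuadraticAlgebra.ext h1 h2
    · right
      rw [WW_norm] at h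
      obtain ⟨h1, h2⟩ := norm_zero_imp hp5 hn h
      exact QuadraticAlgebra.ext h1 h2
  have : Nontrivial (WW p) := by
    refine ⟨0, 1, ?_⟩
    intro h
    have := congrArg QuadraticAlgebra.re h
    rw [QuadraticAlgebra.re_zero, QuadraticAlgebra.re_one] at this
    exact zero_ne_one this
  exact NoZeroDivisors.to_isDomain _

theorem WW_charZero : CharZero (WW p) :=
  charZero_of_injective_algebraMap (R := ℤ_[p]) (A := WW p) QuadraticAlgebra.algebraMap_injective

/-- reduction -/
noncomputable def redW : WW p →+* KW p where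
  toFun z := ⟨PadicInt.toZMod z.re, PadicInt.toZMod z.im⟩
  map_one' := by
    ext
    · simp [QuadraticAlgebra.re_one]
    · simp [QuadraticAlgebra.im_one]
  map_mul' z w := by
    ext
    · simp only [QuadraticAlgebra.re_mul, map_add, map_mul, map_neg, map_ofNat]
    · simp
  map_zero' := by
    ext <;> simp
  map_add' z w := by
    ext <;> simp

theorem redW_apply (z : WW p) : redW z = ⟨PadicInt.toZMod z.re, PadicInt.toZMod z.im⟩ := rfl

theorem redW_ker (z : WW p) : redW z = 0 ↔ (p : WW p) ∣ z := by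
  have e : (p : WW p) = algebraMap ℤ_[p] (WW p) (p : ℤ_[p]) := by rw [map_natCast]
  rw [e, QuadraticAlgebra.algebraMap_dvd_iff, ← padic_dvd_iff, ← padic_dvd_iff, redW_apply,
    QuadraticAlgebra.ext_iff]
  rfl

theorem KW_frob [hF : Fact (∀ r : ZMod p, r ^ 2 ≠ -3 + 0 * r)] (hp2 : p ≠ 2)
    (hl : legendreSym p (-3) = -1) (a b : ZMod p) :
    (⟨a, b⟩ : KW p) ^ p = ⟨a, -b⟩ := by
  have hc : CharP (KW p) p := charP_of_injective_algebraMap
    (algebraMap (ZMod p) (KW p)).injective p
  have e : ∀ a b : ZMod p, (⟨a, b⟩ : KW p) = algebraMap (ZMod p) (KW p) a +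
      algebraMap (ZMod p) (KW p) b * QuadraticAlgebra.omega := by
    intro a b
    ext <;> simp
  have ho : (QuadraticAlgebra.omega : KW p) ^ 2 = ((-3 : ℤ) : KW p) := by
    rw [pow_two]
    ext
    · simp [QuadraticAlgebra.re_ofNat]
    · simp [QuadraticAlgebra.im_ofNat]
  have hf := Pool.Agent.H475R2.frob_neg (K := KW p) hp2 hl ho
  rw [e a b, e a (-b), add_pow_char, mul_pow, hf, ← map_pow, ← map_pow, ZMod.pow_card, ZMod.pow_card,
    map_neg]
  ring

/-- the reduction map as a structure -/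
noncomputable def rdW [hF : Fact (∀ r : ZMod p, r ^ 2 ≠ -3 + 0 * r)] (hp2 : p ≠ 2)
    (hl : legendreSym p (-3) = -1) : Red p (WW p) (KW p) where
  r := redW
  ker := redW_ker
  un z hz := by
    rw [QuadraticAlgebra.isUnit_iff_norm_isUnit]
    apply padic_unit
    intro h0
    apply hz
    have : QuadraticAlgebra.norm (redW z) = 0 := by
      rw [QuadraticAlgebra.norm_def] at h0
      rw [redW_apply, QuadraticAlgebra.norm_def]
      simp only [map_sub, map_add, map_mul, map_neg, map_zero, map_ofNat] at h0 ⊢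
      exact h0
    exact QuadraticAlgebra.norm_eq_zero_iff_eq_zero.1 this
  fr x := by
    refine ⟨⟨x.re, -x.im⟩, ?_⟩
    rw [KW_frob hp2 hl]
    ext <;> simp

end Pool.Agent.H35.Q51
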