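import Pool.Agent.H35.Q51.G3

/-!
The lattice of endomorphisms.
-/

set_option autoImplicit false
set_option linter.unusedSectionVars false
set_option linter.unusedSimpArgs false
set_option linter.unusedVariables false

namespace Pool.Agent.H35.Q51

open WeierstrassCurve Polynomial
open Pool.Agent.H475R2 (EW Rep XR Om Dn dsc fx dfx eq_of_nonsing nonsing_iff add_ne neg_some'
  coprime_X_sub_C exists_ff dn_of zsmul_pm order3' nf nf_pos ell_concl)

section poly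

variable {R : Type*} [CommRing R] {s t u : R}

theorem cop15 (hs : s ^ 2 = 17) (ht : t ^ 2 = -3) (hu : 144 * u = 1) :
    IsCoprime (C ((36 * u) ^ 3) * PX s t lN15) (C (-108 * u) * (PX s t lN5 ^ 2 * PX s t lK5 ^ 2)) := by
  have u36 : IsUnit (36 * u) := IsUnit.of_mul_eq_one 4 (by linear_combination hu)
  have u108 : IsUnit (-108 * u) := by
    have u4 : IsUnit (4 * (12 * u)) := IsUnit.of_mul_eq_one 3 (by linear_combination hu)
    exact IsUnit.of_mul_eq_one (-(192 * u)) (by linear_combination (144 * u + 1) * hu)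
  have e := evN15 (hsC hs) (htC ht) (X : R[X])
  have e' : PX s t lN15 = 64 * PX s t lN5 ^ 3 + 768 * PX s t lN5 ^ 2 * PX s t lK5 ^ 2 +
    96 * (16 - 4 * C s) * PX s t lN5 * PX s t lK5 ^ 4 +
      4 * (16 - 4 * C s) ^ 2 * PX s t lK5 ^ 6 := e
  have c5 := cop5 hs ht hu
  refine (isCoprime_mul_unit_left_left (isUnit_C.2 (u36.pow 3)) _ _).2 ?_
  refine (isCoprime_mul_unit_left_right (isUnit_C.2 u108) _ _).2 ?_
  refine IsCoprime.mul_right (IsCoprime.pow_right ?_) (IsCoprime.pow_right ?_)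
  · have h1 : IsCoprime (4 * (16 - 4 * C s) ^ 2 * PX s t lK5 ^ 6) (PX s t lN5) := by
      have hu4 : IsUnit (4 * (16 - 4 * C s) ^ 2 : R[X]) := by
        have e1 : (4 * (16 - 4 * C s) ^ 2 : R[X]) = C (4 * (16 - 4 * s) ^ 2) := by
          simp only [C_mul, C_pow, C_sub, map_ofNat]
        rw [e1]
        apply isUnit_C.2
        have u4 : IsUnit (4 : R) := IsUnit.of_mul_eq_one (36 * u) (by linear_combination hu)
        have e16 : (16 - 4 * s) * (16 + 4 * s) = -16 := by linear_combination (-16) * hs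
        have u16 : IsUnit (-16 : R) := IsUnit.of_mul_eq_one (-(9 * u)) (by linear_combination hu)
        rw [← e16] at u16
        exact u4.mul ((isUnit_of_mul_isUnit_left u16).pow 2)
      exact (isCoprime_mul_unit_left_left hu4 _ _).2 (c5.symm.pow_left)
    have h2 := h1.add_mul_left_left (64 * PX s t lN5 ^ 2 + 768 * PX s t lN5 * PX s t lK5 ^ 2 +
      96 * (16 - 4 * C s) * PX s t lK5 ^ 4)
    have e2 : PX s t lN15 = 4 * (16 - 4 * C s) ^ 2 * PX s t lK5 ^ 6 + PX s t lN5 *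
        (64 * PX s t lN5 ^ 2 + 768 * PX s t lN5 * PX s t lK5 ^ 2 +
      96 * (16 - 4 * C s) * PX s t lK5 ^ 4) := by rw [e']; ring
    rw [e2]; exact h2
  · have h1 : IsCoprime (64 * PX s t lN5 ^ 3) (PX s t lK5) := by
      have hu4 : IsUnit (64 : R[X]) := by
        have e1 : (64 : R[X]) = C 64 := by rw [map_ofNat]
        rw [e1]
        apply isUnit_C.2
        have h3 : (144 * u) ^ 3 = 1 := by rw [hu, one_pow]
        exact IsUnit.of_mul_eq_one ((36 * u) ^ 3) (by linear_combination h3)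
      exact (isCoprime_mul_unit_left_left hu4 _ _).2 (c5.pow_left)
    have h2 := h1.add_mul_left_left (768 * PX s t lN5 ^ 2 * PX s t lK5 +
      96 * (16 - 4 * C s) * PX s t lN5 * PX s t lK5 ^ 3 + 4 * (16 - 4 * C s) ^ 2 * PX s t lK5 ^ 5)
    have e2 : PX s t lN15 = 64 * PX s t lN5 ^ 3 + PX s t lK5 *
        (768 * PX s t lN5 ^ 2 * PX s t lK5 +
      96 * (16 - 4 * C s) * PX s t lN5 * PX s t lK5 ^ 3 + 4 * (16 - 4 * C s) ^ 2 * PX s t lK5 ^ 5) := by
      rw [e']; ring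
    rw [e2]; exact h2

end poly

section points

variable {R : Type*} [CommRing R] [IsDomain R] [CharZero R] {s t u : R}
variable {L : Type*} [Field L] [DecidableEq L] {ι : R[X] →+* L}

theorem rep15 (hι : Function.Injective ι) (hs : s ^ 2 = 17) (ht : t ^ 2 = -3) (hu : 144 * u = 1)
    {A B G x' y' : L} {h' : (EW A B G).Nonsingular x' y'}
    (hx : 48 * evL (ι (C s)) (ι (C t)) (ι X) lN5 ^ 2 * evL (ι (C s)) (ι (C t)) (ι X) lK5 ^ 2 * x' =
      -evL (ι (C s)) (ι (C t)) (ι X) lN15) :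
    Rep ι (Affine.Point.some x' y' h' : (EW A B G).Point) 0 15 := by
  have hU : 144 * ι (C u) = 1 := by
    have := congrArg (fun z => ι (C z)) hu
    simp only [C_mul, map_mul, map_ofNat, map_one] at this ⊢
    exact this
  have hd : (C ((36 * u) ^ 3) * PX s t lN15).natDegree ≤ 15 :=
    (natDegree_C_mul_le _ _).trans (PX_natDegree s t _ (by decide))
  have hc : (C ((36 * u) ^ 3) * PX s t lN15).coeff 15 = 1 := by
    rw [coeff_C_mul, PX_coeff, show lN15.getD 15 ⟨0, 0, 0, 0⟩ = ⟨64, 0, 0, 0⟩ from rfl]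
    unfold Z4.ev
    push_cast
    have h3 : (144 * u) ^ 3 = 1 := by rw [hu, one_pow]
    linear_combination h3
  refine ⟨C ((36 * u) ^ 3) * PX s t lN15, C (-108 * u) * (PX s t lN5 ^ 2 * PX s t lK5 ^ 2),
    monic_of_natDegree_le_of_coeff_eq_one 15 hd hc,
    natDegree_eq_of_le_of_coeff_ne_zero hd (by rw [hc]; exact one_ne_zero), ?_, cop15 hs ht hu, ?_, ?_⟩
  · refine lt_of_le_of_lt (natDegree_C_mul_le _ _) (lt_of_le_of_lt natDegree_mul_le ?_)
    have h1 : (PX s t lN5 ^ 2).natDegree ≤ 2 * 5 :=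
      natDegree_pow_le.trans (Nat.mul_le_mul_left 2 (PX_natDegree s t _ (by decide)))
    have h2 : (PX s t lK5 ^ 2).natDegree ≤ 2 * 2 :=
      natDegree_pow_le.trans (Nat.mul_le_mul_left 2 (PX_natDegree s t _ (by decide)))
    omega
  · show ι (C ((36 * u) ^ 3) * PX s t lN15) =
      x' * ι (C (-108 * u) * (PX s t lN5 ^ 2 * PX s t lK5 ^ 2))
    simp only [map_mul, map_pow, ι_PX, C_mul, C_pow, map_neg, map_ofNat, C_neg]
    have h3 : (144 * ι (C u)) ^ 2 = 1 := by rw [hU, one_pow]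
    linear_combination ((36 * ι (C u)) ^ 3) * hx - (108 * ι (C u) * evL (ι (C s)) (ι (C t)) (ι X) lN5 ^ 2 *
      evL (ι (C s)) (ι (C t)) (ι X) lK5 ^ 2 * x') * h3
  · show ι (C (eval 0 (C (-108 * u) * (PX s t lN5 ^ 2 * PX s t lK5 ^ 2)))) = 0
    have : eval 0 (PX s t lN5) = 0 := by
      unfold lN5; rw [PX_eval_zero]; simp [Z4.ev]
    rw [eval_mul, eval_mul, eval_pow, this]
    simp

theorem rep13 (hι : Function.Injective ι) (hs : s ^ 2 = 17) (ht : t ^ 2 = -3) (hu : 144 * u = 1)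
    {A B G x' y' y0 : L} {h' : (EW A B G).Nonsingular x' y'} {h0 : (EW A B G).Nonsingular 0 y0}
    (hx : x' * evL (ι (C s)) (ι (C t)) (ι X) lK13 ^ 2 = 4 * evL (ι (C s)) (ι (C t)) (ι X) lN13) :
    Rep ι (Affine.Point.some x' y' h') (Affine.Point.some 0 y0 h0) 13 := by
  have u36 : IsUnit (36 * u) := IsUnit.of_mul_eq_one 4 (by linear_combination hu)
  have h4 : ι (C (36 * u)) * 4 = 1 := by
    have := congrArg (fun z => ι (C z)) hu
    simp only [C_mul, map_mul, map_ofNat, map_one] at this ⊢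
    linear_combination this
  refine ⟨PX s t lN13, C (36 * u) * PX s t lK13 ^ 2, PX_monic s t _ (n := 13) (by decide) rfl,
    PX_natDegree_eq s t _ (by decide) rfl, ?_, ?_, ?_, ?_⟩
  · exact lt_of_le_of_lt (degKsq s t _ _ (n := 6) (by decide)) (by norm_num)
  · exact (isCoprime_mul_unit_left_right (isUnit_C.2 u36) _ _).2 ((cop13 hs ht hu).pow_right)
  · show ι (PX s t lN13) = x' * ι (C (36 * u) * PX s t lK13 ^ 2)
    rw [map_mul, map_pow, ι_PX, ι_PX]
    linear_combination (-(ι (C (36 * u)))) * hx - (evL (ι (C s)) (ι (C t)) (ι X) lN13) * h4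
  · show ι (C (eval 0 (PX s t lN13))) = 0 * _
    unfold lN13
    rw [PX_eval_zero]
    simp [Z4.ev]

end points

theorem sigma_eq {R : Type*} [CommRing R] {s t u : R} (hs : s ^ 2 = 17) (ht : t ^ 2 = -3)
    (hu : 144 * u = 1) :
    ((3 + s * t) * (72 * u)) ^ 2 - 3 * ((3 + s * t) * (72 * u)) + 15 = 0 := by
  linear_combination ((72 * u) ^ 2 * t ^ 2) * hs + (17 * (72 * u) ^ 2) * ht +
    ((-21 + 3 * s * t) * (72 * u) - 15) * hu

universe w

variable {R : Type w} [CommRing R] [IsDomain R] [CharZero R] {s t u : R}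

theorem end_lattice (hs : s ^ 2 = 17) (ht : t ^ 2 = -3) (hu : 144 * u = 1) (i j : ℤ)
    (hij : i ≠ 0 ∨ j ≠ 0) :
    ∃ N D : R[X], N.Monic ∧ N.natDegree = (nf 3 15 i j).toNat ∧
      D.natDegree < (nf 3 15 i j).toNat ∧ IsCoprime N D ∧
      fz (16 + 4 * s) * (derivative N * D - N * derivative D) ^ 2 =
        C (i + j * ((3 + s * t) * (72 * u))) ^ 2 * D * fh (16 + 4 * s) N D ∧
      (¬ (3 : ℤ) ∣ i → N.eval 0 = 0) := by
  classical
  obtain ⟨L, iL, ι, y, d, hι, hy, h1, h2, h3, h4⟩ := exists_ff (36 : R) (12 * (16 + 4 * s))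
    ((16 + 4 * s) ^ 2)
  have h20 : (2 : L) ≠ 0 := by
    have : ι (C (2 : R)) ≠ 0 := by
      rw [Ne, map_eq_zero_iff ι hι]
      exact C_ne_zero.2 two_ne_zero
    rwa [map_ofNat, map_ofNat] at this
  have h30 : (3 : L) ≠ 0 := by
    have : ι (C (3 : R)) ≠ 0 := by
      rw [Ne, map_eq_zero_iff ι hι]
      exact C_ne_zero.2 (by norm_num)
    rwa [map_ofNat, map_ofNat] at this
  have h2u : 2 * (72 * u) = 1 := by linear_combination hu
  have hy' := hy
  have hfz : X ^ 3 + C (36 : R) * X ^ 2 + C (12 * (16 + 4 * s)) * X + C ((16 + 4 * s) ^ 2) =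
    fz (16 + 4 * s) := rfl
  rw [hfz, fz_eq hs t, ι_PX] at hy
  obtain ⟨S, hS⟩ : ∃ S : L, S = ι (C s) := ⟨_, rfl⟩
  obtain ⟨T, hT⟩ : ∃ T : L, T = ι (C t) := ⟨_, rfl⟩
  obtain ⟨z, hz⟩ : ∃ z : L, z = ι X := ⟨_, rfl⟩
  rw [← hS, ← hT, ← hz] at hy
  have hs' : S ^ 2 = 17 := by rw [hS, ← map_pow, hsC hs, map_ofNat]
  have ht' : T ^ 2 = -3 := by rw [hT, ← map_pow, htC ht, map_neg, map_ofNat]
  have hF0 : evL S T z lF ≠ 0 := by
    rw [hS, hT, hz]
    exact ι_ne hι hs ht 3 ⟨1, 0, 0, 0⟩ 1 (by decide +kernel) (by norm_num)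
  have hy0 : y ≠ 0 := by
    intro h
    rw [h] at hy
    exact hF0 (by rw [← hy]; ring)
  have hz0 : z ≠ 0 := by rw [hz, Ne, map_eq_zero_iff ι hι]; exact X_ne_zero
  have hk0 : evL S T z lK5 ≠ 0 := by
    rw [hS, hT, hz]
    exact ι_ne hι hs ht 2 ⟨0, -20, -20, 0⟩ 400 (by decide +kernel) (by norm_num)
  have hm0 : evL S T z lM5 ≠ 0 := by
    rw [hS, hT, hz]
    exact ι_ne hι hs ht 6 ⟨1, 0, 0, 0⟩ 1 (by decide +kernel) (by norm_num)
  have hn0 : evL S T z lN5 ≠ 0 := by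
    rw [hS, hT, hz]
    exact ι_ne hι hs ht 5 ⟨1, 0, 0, 0⟩ 1 (by decide +kernel) (by norm_num)
  have hm15 : evL S T z lM15 ≠ 0 := by
    rw [hS, hT, hz]
    exact ι_ne hι hs ht 15 ⟨1, 0, 0, 0⟩ 64 (by decide +kernel) (by norm_num)
  have hH5 : evL S T z lH5 ≠ 0 := by
    rw [hS, hT, hz]
    exact ι_ne hι hs ht 15 ⟨744620032, 0, 0, 97124352⟩ 1023561170944 (by decide +kernel)
      (by norm_num)
  obtain ⟨A', hA'⟩ : ∃ A' : L, A' = ι (C (36 : R)) := ⟨_, rfl⟩
  obtain ⟨B', hB'⟩ : ∃ B' : L, B' = ι (C (12 * (16 - 4 * s))) := ⟨_, rfl⟩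
  obtain ⟨G', hG'⟩ : ∃ G' : L, G' = ι (C ((16 - 4 * s) ^ 2)) := ⟨_, rfl⟩
  have hA'e : A' = 36 := by rw [hA', map_ofNat, map_ofNat]
  have hB'e : B' = 12 * (16 - 4 * S) := by
    rw [hB', hS]; simp only [C_mul, C_sub, map_mul, map_sub, map_ofNat]
  have hG'e : G' = (16 - 4 * S) ^ 2 := by
    rw [hG', hS]; simp only [C_mul, C_sub, C_pow, map_mul, map_sub, map_ofNat, map_pow]
  have hAe : ι (C (36 : R)) = 36 := by rw [map_ofNat, map_ofNat]
  have hBe : ι (C (12 * (16 + 4 * s))) = 12 * (16 + 4 * S) := by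
    rw [hS]; simp only [C_mul, C_add, map_mul, map_add, map_ofNat]
  have hGe : ι (C ((16 + 4 * s) ^ 2)) = (16 + 4 * S) ^ 2 := by
    rw [hS]; simp only [C_mul, C_add, C_pow, map_mul, map_add, map_ofNat, map_pow]
  have hd' : Dn A' B' G' d := by rw [hA', hB', hG']; exact dn_of h1 h2 h3
  have hd : Dn (ι (C (36 : R))) (ι (C (12 * (16 + 4 * s)))) (ι (C ((16 + 4 * s) ^ 2))) d :=
    dn_of h1 h2 h3
  have dC : ∀ r : R, d (ι (C r)) = 0 := by intro r; rw [h3]; simp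
  have dn5 : d (evL S T z lN5) = 2 * y * evL S T z (pder lN5) := by
    rw [hS, hT, hz, ← ι_PX, h3, PX_der, ι_PX]
  have dk5 : d (evL S T z lK5) = 2 * y * evL S T z (pder lK5) := by
    rw [hS, hT, hz, ← ι_PX, h3, PX_der, ι_PX]
  have hμ : 2 * ι (C ((t - s) * (72 * u))) = T - S := by
    have e := congrArg (fun r => ι (C r)) (show 2 * ((t - s) * (72 * u)) = t - s by
      linear_combination (t - s) * h2u)
    simp only [C_mul (a := (2 : R)), map_mul ι, map_ofNat, C_sub, map_sub] at e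
    rw [e, hS, hT]
  obtain ⟨x5, y5, hn5, ex5, ey5, y50, om5⟩ := psi5 (μ := ι (C ((t - s) * (72 * u)))) h20 hs' ht' hA'e
    hB'e hG'e hy hy0 hk0 hm0 hd' dn5 dk5 hμ
  have h40 : (4 : L) ≠ 0 := by
    rw [show (4 : L) = 2 * 2 by norm_num]; exact mul_ne_zero h20 h20
  have hx50 : x5 ≠ 0 := by
    rintro rfl
    rw [zero_mul] at ex5
    exact mul_ne_zero h40 hn0 ex5.symm
  have e15 : (x5 ^ 3 - 24 * (16 - 4 * S) * x5 - 8 * (16 - 4 * S) ^ 2) * evL S T z lK5 ^ 6 =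
      evL S T z lM15 := by
    rw [evM15 hs' ht']
    linear_combination ((x5 * evL S T z lK5 ^ 2) ^ 2 + (x5 * evL S T z lK5 ^ 2) * (4 * evL S T z lN5) +
      16 * evL S T z lN5 ^ 2 - 24 * (16 - 4 * S) * evL S T z lK5 ^ 4) * ex5
  have hm5 : x5 ^ 3 - 24 * (16 - 4 * S) * x5 - 8 * (16 - 4 * S) ^ 2 ≠ 0 := by
    intro h
    rw [h, zero_mul] at e15
    exact hm15 e15.symm
  obtain ⟨xφ, yφ, hnφ, exφ, eyφ, yφ0, omφ⟩ := phi3 (A' := ι (C (36 : R)))
    (B' := ι (C (12 * (16 + 4 * s)))) (G' := ι (C ((16 + 4 * s) ^ 2)))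
    (β := 16 - 4 * S) (β' := 16 + 4 * S) (t := T) h20 h30 hA'e hB'e hG'e (by ring) hAe hBe hGe ht'
    hx50 hm5 y50 hn5
  have dβ : d (16 - 4 * S) = 0 := by
    have : (16 - 4 * S : L) = ι (C (16 - 4 * s)) := by
      rw [hS]; simp only [C_mul, C_sub, map_mul, map_sub, map_ofNat]
    rw [this, dC]
  have hoφ := omφ d _ hd dβ (by rw [hT]; exact dC t) om5
  -- the two relations
  have E1 : 48 * evL S T z lN5 ^ 2 * evL S T z lK5 ^ 2 * xφ = -evL S T z lN15 := by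
    rw [evN15 hs' ht']
    linear_combination (evL S T z lK5 ^ 6) * exφ - (3 * xφ * evL S T z lK5 ^ 2 *
      (x5 * evL S T z lK5 ^ 2 + 4 * evL S T z lN5)) * ex5 -
      ((x5 * evL S T z lK5 ^ 2) ^ 2 + (x5 * evL S T z lK5 ^ 2) * (4 * evL S T z lN5) +
      16 * evL S T z lN5 ^ 2 + 48 * evL S T z lK5 ^ 2 * (x5 * evL S T z lK5 ^ 2 + 4 * evL S T z lN5) +
        24 * (16 - 4 * S) * evL S T z lK5 ^ 4) * ex5
  have E2 : 576 * evL S T z lN5 ^ 3 * evL S T z lK5 ^ 3 * yφ = 8 * T * y * evL S T z lM5 *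
      evL S T z lM15 := by
    rw [← e15]
    linear_combination (evL S T z lK5 ^ 9) * eyφ - (9 * yφ * evL S T z lK5 ^ 3 *
      ((x5 * evL S T z lK5 ^ 2) ^ 2 + (x5 * evL S T z lK5 ^ 2) * (4 * evL S T z lN5) +
      16 * evL S T z lN5 ^ 2)) * ex5 + (T * (x5 ^ 3 - 24 * (16 - 4 * S) * x5 - 8 * (16 - 4 * S) ^ 2) *
        evL S T z lK5 ^ 6) * ey5
  have hGs : (EW (ι (C (36 : R))) (ι (C (12 * (16 + 4 * s)))) (ι (C ((16 + 4 * s) ^ 2)))).Nonsingular
      (ι X) y := by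
    refine (nonsing_iff h20 _ _).2 ⟨?_, Or.inl hy0⟩
    rw [hy']
    simp only [map_add, map_mul ι, map_pow ι]
    rfl
  -- the marked point
  have e16 : (16 + 4 * s) * (16 - 4 * s) = -16 := by linear_combination (-16) * hs
  have hβ0 : (16 + 4 * s) ≠ 0 := by
    intro h
    rw [h, zero_mul] at e16
    norm_num at e16
  have hY0 : (16 + 4 * S : L) ≠ 0 := by
    have : (16 + 4 * S : L) = ι (C (16 + 4 * s)) := by
      rw [hS]; simp only [C_mul, C_add, map_mul, map_add, map_ofNat]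
    rw [this, Ne, map_eq_zero_iff ι hι]
    exact C_ne_zero.2 hβ0
  have hM0 : (EW (ι (C (36 : R))) (ι (C (12 * (16 + 4 * s)))) (ι (C ((16 + 4 * s) ^ 2)))).Nonsingular
      0 (16 + 4 * S) :=
    (nonsing_iff h20 _ _).2 ⟨by unfold fx; rw [hGe]; ring, Or.inl hY0⟩
  have hM3 := order3' (l := 6) h20 hY0 (by unfold dfx; rw [hBe]; ring) (by rw [hAe]; ring) hM0
  obtain ⟨h', en⟩ := neg_some' hnφ
  have hHo : Om d (ι (C ((3 + s * t) * (72 * u))))
      (Affine.Point.some xφ (-yφ) h' : (EW (ι (C (36 : R))) (ι (C (12 * (16 + 4 * s))))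
        (ι (C ((16 + 4 * s) ^ 2)))).Point) := by
    have e1 := Om.neg hd hoφ
    rw [en] at e1
    have e2 : -(T * ι (C ((t - s) * (72 * u)))) = ι (C ((3 + s * t) * (72 * u))) := by
      apply mul_left_cancel₀ h20
      have e3 : 2 * ι (C ((3 + s * t) * (72 * u))) = 3 + S * T := by
        have e := congrArg (fun r => ι (C r)) (show 2 * ((3 + s * t) * (72 * u)) = 3 + s * t by
          linear_combination (3 + s * t) * h2u)
        simp only [C_mul (a := (2 : R)), map_mul ι, map_ofNat, C_add, map_add] at e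
        rw [e, hS, hT, C_mul, map_mul]
      rw [e3]
      linear_combination (-T) * hμ - ht'
    rw [e2] at e1
    exact e1
  have R15 : Rep ι (Affine.Point.some xφ (-yφ) h' : (EW (ι (C (36 : R))) (ι (C (12 * (16 + 4 * s))))
        (ι (C ((16 + 4 * s) ^ 2)))).Point) 0 (15 : ℤ).toNat := by
    refine rep15 hι hs ht hu ?_
    rw [← hS, ← hT, ← hz]
    exact E1
  have R13 : Rep ι ((Affine.Point.some (ι X) y hGs : (EW (ι (C (36 : R))) (ι (C (12 * (16 + 4 * s))))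
        (ι (C ((16 + 4 * s) ^ 2)))).Point) - Affine.Point.some xφ (-yφ) h')
      (Affine.Point.some 0 (16 + 4 * S) hM0 - 0) (nf 3 15 1 (-1)).toNat := by
    have hxne : z ≠ xφ := by
      intro hx
      apply hH5
      rw [eqE z l_lH5]
      simp only [evL_padd, evL_pscal z hs' ht', mulE hs' ht' z m_lN52K2, K2 hs' ht', N2 hs' ht', Z4.ev, evL]
      push_cast
      rw [← hx] at E1
      linear_combination E1
    have hxne' : ι X ≠ xφ := by rw [← hz]; exact hxne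
    obtain ⟨X3, Y3, l, hh3, e3, hl, hX3, -⟩ := add_ne hGs hnφ hxne'
    have e4 : (Affine.Point.some (ι X) y hGs : (EW (ι (C (36 : R))) (ι (C (12 * (16 + 4 * s))))
        (ι (C ((16 + 4 * s) ^ 2)))).Point) - Affine.Point.some xφ (-yφ) h' =
        Affine.Point.some X3 Y3 hh3 := by
      rw [← en, sub_neg_eq_add, e3]
    rw [e4, sub_zero]
    have h13 : (nf 3 15 1 (-1)).toNat = 13 := by decide
    rw [h13]
    refine rep13 hι hs ht hu ?_
    rw [← hz] at hl hX3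
    rw [← hS, ← hT, ← hz]
    have id := id5 hs' ht' z
    obtain ⟨n, hn⟩ : ∃ n, n = evL S T z lN5 := ⟨_, rfl⟩
    obtain ⟨k, hk⟩ : ∃ k, k = evL S T z lK5 := ⟨_, rfl⟩
    rw [← hn] at E1 E2 id hn0
    rw [← hk] at E1 E2 id hk0
    have eH : 48 * z * n ^ 2 * k ^ 2 + evL S T z lN15 = 48 * n ^ 2 * k ^ 2 * (z - xφ) := by
      linear_combination E1
    have eI : y * (576 * (k ^ 3 * n ^ 3) - 8 * T * (evL S T z lM5 * evL S T z lM15)) =
        576 * n ^ 3 * k ^ 3 * (y - yφ) := by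
      linear_combination E2
    rw [← hy] at id
    have q1 : y ^ 2 * ((576 * (k ^ 3 * n ^ 3) - 8 * T * (evL S T z lM5 * evL S T z lM15)) ^ 2 *
        evL S T z lK13 ^ 2) = (576 * n ^ 3 * k ^ 3 * (l * (z - xφ))) ^ 2 * evL S T z lK13 ^ 2 := by
      rw [hl, ← eI]; ring
    rw [q1, eH] at id
    have h6912 : (6912 : L) ≠ 0 := by
      rw [show (6912 : L) = 2 ^ 8 * 3 ^ 3 by norm_num]
      exact mul_ne_zero (pow_ne_zero _ h20) (pow_ne_zero _ h30)
    have hne : 6912 * n ^ 4 * k ^ 4 * (z - xφ) ^ 2 ≠ 0 :=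
      mul_ne_zero (mul_ne_zero (mul_ne_zero h6912 (pow_ne_zero _ hn0)) (pow_ne_zero _ hk0))
        (pow_ne_zero _ (sub_ne_zero.2 hxne))
    have q2 : 48 * n ^ 2 * k ^ 2 * l ^ 2 * evL S T z lK13 ^ 2 =
        192 * evL S T z lN13 * n ^ 2 * k ^ 2 + 48 * (36 + z) * n ^ 2 * k ^ 2 * evL S T z lK13 ^ 2 -
          evL S T z lN15 * evL S T z lK13 ^ 2 := by
      apply mul_left_cancel₀ hne
      linear_combination id
    have h48 : 48 * n ^ 2 * k ^ 2 ≠ 0 := by
      have h48' : (48 : L) ≠ 0 := by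
        rw [show (48 : L) = 2 ^ 4 * 3 by norm_num]
        exact mul_ne_zero (pow_ne_zero _ h20) h30
      exact mul_ne_zero (mul_ne_zero h48' (pow_ne_zero _ hn0)) (pow_ne_zero _ hk0)
    apply mul_left_cancel₀ h48
    rw [hX3, hAe]
    linear_combination q2 - (evL S T z lK13 ^ 2) * E1
  have hσ : ∀ i j : ℤ, (i ≠ 0 ∨ j ≠ 0) → (i : R) + j * ((3 + s * t) * (72 * u)) ≠ 0 := by
    intro i j hij h0
    have h5 : ((nf 3 15 i j : ℤ) : R) = 0 := by
      unfold nf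
      push_cast
      linear_combination ((i : R) + j * (3 - (3 + s * t) * (72 * u))) * h0 +
        (j ^ 2 : R) * sigma_eq hs ht hu
    have h6 := nf_pos (t := 3) (n := 15) (by norm_num) hij
    have h7 : nf 3 15 i j = 0 := by exact_mod_cast h5
    omega
  have hΔ : IsUnit (dsc (C 36) (C (12 * (16 + 4 * s))) (C ((16 + 4 * s) ^ 2)) : R[X]) :=
    dsc_unit51 hs hu
  obtain ⟨N, D, mN, dN, dD, cc, ode, x2⟩ := ell_concl hι h20 hΔ hy' h1 h2 h3 h4
    (σ := (3 + s * t) * (72 * u)) (t := 3) (n := 15)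
    (G0 := Affine.Point.some 0 (16 + 4 * S) hM0) (H0 := 0) hσ (by norm_num)
    hGs rfl (by show (0 : L) = 0 * 1; ring) hHo R15 R13 i j hij
  refine ⟨N, D, mN, dN, dD, cc, ode, ?_⟩
  intro h3i
  rw [smul_zero, add_zero] at x2
  have e : ι (C (N.eval 0)) = 0 := by
    rcases zsmul_pm hM3 h3i with h | h
    · rw [h] at x2
      have : ι (C (N.eval 0)) = 0 * ι (C (D.eval 0)) := x2
      rw [this, zero_mul]
    · rw [h] at x2
      have hx' := x2.neg
      rw [neg_neg] at hx'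
      have : ι (C (N.eval 0)) = 0 * ι (C (D.eval 0)) := hx'
      rw [this, zero_mul]
  rw [map_eq_zero_iff ι hι] at e
  exact C_eq_zero.1 e

end Pool.Agent.H35.Q51
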