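import Pool.Agent.H35.Q51.B1

/-!
The supercongruence when `p` is the norm of a non-principal ideal: conclusion.
-/

set_option autoImplicit false
set_option linter.unusedSectionVars false
set_option linter.unusedSimpArgs false
set_option linter.unusedVariables false

namespace Pool.Agent.H35.Q51

open Polynomial
open Pool.Agent.H475R2 (T3 t3 u3 clausen3 isUnit_intCast twelve_inv)

variable {p : ℕ} [hp : Fact p.Prime]

theorem neg3_nonsq (hp5 : 5 ≤ p) (h3 : p % 3 = 2) (r : ZMod p) : r ^ 2 ≠ -3 := by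
  intro hr
  have n2 : (2 : ZMod p) ≠ 0 := by
    have := Pool.Agent.H475R2.nat_ne (p := p) (K := ZMod p) (m := 2) (by norm_num) (by omega)
    exact_mod_cast this
  have n3 : (3 : ZMod p) ≠ 0 := by
    have := Pool.Agent.H475R2.nat_ne (p := p) (K := ZMod p) (m := 3) (by norm_num) (by omega)
    exact_mod_cast this
  obtain ⟨w, hw⟩ : ∃ w : ZMod p, 2 * w = r - 1 := ⟨(r - 1) / 2, by field_simp⟩
  have h1 : w ^ 2 + w + 1 = 0 := by
    have : (2 * 2) * (w ^ 2 + w + 1) = 0 := by linear_combination (2 * w + r + 1) * hw + hr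
    rcases mul_eq_zero.1 this with h | h
    · exact absurd h (mul_ne_zero n2 n2)
    · exact h
  have h3' : w ^ 3 = 1 := by linear_combination (w - 1) * h1
  have w0 : w ≠ 0 := by
    rintro rfl
    norm_num at h1
  have h4 := ZMod.pow_card_sub_one_eq_one w0
  obtain ⟨k, hk⟩ : ∃ k, p - 1 = 3 * k + 1 := ⟨(p - 1) / 3, by omega⟩
  rw [hk, pow_succ, pow_mul, h3', one_pow, one_mul] at h4
  rw [h4] at h1
  apply n3
  linear_combination h1

theorem T3_eq' {R : Type*} [CommRing R] (c : R) :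
    T3 p c = ∑ k ∈ Finset.range p, ((t3 k : ℤ) : R) * c ^ k := by
  unfold T3 t3
  push_cast
  rfl

theorem caseB (hp5 : 5 ≤ p) (h17 : p ≠ 17) (h3 : p % 3 = 2) {x y : ℤ} (hxy : 4 * (p : ℤ) = 3 * x ^ 2 + 17 * y ^ 2)
    {mi : ℤ_[p]} (hmi : -1728 * mi = 1) :
    (p : ℤ_[p]) ^ 2 ∣ (∑ k ∈ Finset.range p, ((u3 k : ℤ) : ℤ_[p]) * mi ^ k) -
      ((2 * p - 3 * x ^ 2 : ℤ) : ℤ_[p]) := by
  have hpp := hp.out
  have hpZ : Prime (p : ℤ) := Nat.prime_iff_prime_int.1 hpp
  have hp2 : p ≠ 2 := by omega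
  have hn3 := neg3_nonsq hp5 h3
  have hl : legendreSym p (-3) = -1 := by
    rw [legendreSym.eq_neg_one_iff]
    rintro ⟨r, hr⟩
    apply hn3 r
    push_cast at hr
    rw [hr]; ring
  have hF : Fact (∀ r : ZMod p, r ^ 2 ≠ -3 + 0 * r) := ⟨by
    intro r
    rw [zero_mul, add_zero]
    exact hn3 r⟩
  have hdom : IsDomain (WW p) := WW_domain hp5 hn3
  have hch : CharZero (WW p) := WW_charZero
  have hcK : CharP (KW p) p := charP_of_injective_algebraMap
    (algebraMap (ZMod p) (KW p)).injective p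
  obtain ⟨v, hv⟩ := twelve_inv (p := p) hp5
  -- parity
  obtain ⟨i, hi⟩ : ∃ i : ℤ, x = 2 * i + y := by
    have h1 : (x - y) % 2 = 0 := by
      have h2 : (3 * x ^ 2 + 17 * y ^ 2) % 2 = 0 := by rw [← hxy]; omega
      rcases Int.emod_two_eq_zero_or_one x with hx | hx <;>
        rcases Int.emod_two_eq_zero_or_one y with hy | hy <;>
        simp [pow_two, Int.add_emod, Int.mul_emod, Int.sub_emod, hx, hy] at h2 ⊢
    exact ⟨(x - y) / 2, by omega⟩
  have hn : nf3 3 3 5 i y = p := by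
    have : 4 * nf3 3 3 5 i y = 4 * (p : ℤ) := by rw [hxy, hi]; unfold nf3; ring
    linarith
  have hpnd : ∀ m : ℤ, 0 < m → m < p → ¬ (p : ℤ) ∣ m := by
    intro m h0 h1 hd
    have := Int.le_of_dvd h0 hd
    omega
  have hy3 : ¬ (3 : ℤ) ∣ y := by
    rintro ⟨k, rfl⟩
    have h1 : (3 : ℤ) ∣ 4 * p := ⟨x ^ 2 + 51 * k ^ 2, by rw [hxy]; ring⟩
    have h2 : (3 : ℤ) ∣ p := by omega
    have h3 : 3 ∣ p := by exact_mod_cast h2
    omega
  have hpy : ¬ (p : ℤ) ∣ y := by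
    intro hd
    have h4 : (p : ℤ) ∣ 3 * x ^ 2 := by
      have : 3 * x ^ 2 = 4 * p - (17 * y) * y := by rw [hxy]; ring
      rw [this]
      exact dvd_sub (dvd_mul_left _ _) (hd.mul_left _)
    have h5 : (p : ℤ) ∣ x := by
      rcases hpZ.dvd_or_dvd h4 with h | h
      · exact absurd h (hpnd 3 (by norm_num) (by omega))
      · exact hpZ.dvd_of_dvd_pow h
    obtain ⟨a, ha⟩ := h5
    obtain ⟨b, hb⟩ := hd
    have h6 : (p : ℤ) * (p * (3 * a ^ 2 + 17 * b ^ 2)) = p * 4 := by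
      rw [mul_comm (p : ℤ) 4, hxy, ha, hb]; ring
    have h7 := mul_left_cancel₀ hpZ.ne_zero h6
    exact hpnd 4 (by norm_num) (by omega) ⟨_, h7.symm⟩
  -- the square root of `-51`
  have hcop : IsCoprime y (p : ℤ) := ((hpZ.coprime_iff_not_dvd).2 hpy).symm
  obtain ⟨b, e, hbe⟩ := hcop
  have h51 : (p : ℤ) ∣ (3 * x * b) ^ 2 - (-51) := by
    refine ⟨12 * b ^ 2 + 51 * e * (b * y + 1), ?_⟩
    linear_combination (-(3 * b ^ 2)) * hxy + (-51 : ℤ) * (b * y + 1) * hbe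
  have h51' : ¬ (p : ℤ) ∣ -51 := by
    intro hd
    have h1 : (p : ℤ) ∣ 3 * 17 := by
      have := (dvd_neg (a := (p : ℤ)) (b := -51)).2 hd
      norm_num at this ⊢
      exact this
    rcases hpZ.dvd_or_dvd h1 with h | h
    · exact hpnd 3 (by norm_num) (by omega) h
    · have h2 : p ∣ 17 := by exact_mod_cast h
      exact h17 ((Nat.prime_dvd_prime_iff_eq hpp (by norm_num)).1 h2)
  obtain ⟨δ0, hδ0⟩ := sqrt_padic hp2 h51' h51
  -- choice of the sign
  have hpp' := PadicInt.prime_p (p := p)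
  obtain ⟨δ, hδ, hpδ⟩ : ∃ δ : ℤ_[p], δ ^ 2 = -51 ∧ (p : ℤ_[p]) ∣ 3 * x + y * δ := by
    have hδ0' : δ0 ^ 2 = -51 := by rw [hδ0]; push_cast; rfl
    have hxyp : 4 * (p : ℤ_[p]) = 3 * x ^ 2 + 17 * y ^ 2 := by exact_mod_cast congrArg (fun z : ℤ => (z : ℤ_[p])) hxy
    have hprod : (3 * (x : ℤ_[p]) + y * δ0) * (3 * x + y * (-δ0)) = p * 12 := by
      linear_combination (-((y : ℤ_[p]) ^ 2)) * hδ0' - 3 * hxyp
    have hd : (p : ℤ_[p]) ∣ (3 * (x : ℤ_[p]) + y * δ0) * (3 * x + y * (-δ0)) := by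
      rw [hprod]; exact dvd_mul_right _ _
    rcases hpp'.dvd_or_dvd hd with h | h
    · exact ⟨δ0, hδ0', h⟩
    · exact ⟨-δ0, by rw [neg_sq]; exact hδ0', h⟩
  -- the elements of the extension
  set f : ℤ_[p] →+* WW p := algebraMap ℤ_[p] (WW p) with hf
  set t : WW p := QuadraticAlgebra.omega with ht'
  have ht : t ^ 2 = -3 := by
    rw [ht', pow_two]
    ext
    · simp [QuadraticAlgebra.re_ofNat]
    · simp [QuadraticAlgebra.im_ofNat]
  have hu0 : 144 * v ^ 2 = 1 := by linear_combination (12 * v + 1) * hv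
  have hu : 144 * (f v) ^ 2 = 1 := by
    have := congrArg f hu0
    rw [map_mul, map_pow, map_ofNat, map_one] at this
    exact this
  have hfv : 12 * f v = 1 := by
    have := congrArg f hv
    rw [map_mul, map_ofNat, map_one] at this
    exact this
  have hfδ : (f δ) ^ 2 = -51 := by
    rw [← map_pow, hδ, map_neg, map_ofNat]
  obtain ⟨s, hsd⟩ : ∃ s : WW p, s = -(f (δ * (4 * v)) * t) := ⟨_, rfl⟩
  have hs3 : 3 * s = -(f δ * t) := by
    rw [hsd, map_mul, map_mul, map_ofNat]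
    linear_combination (-(f δ) * t) * hfv
  have hs : s ^ 2 = 17 := by
    have n9 : (9 : WW p) ≠ 0 := by
      intro h
      have : ((9 : ℕ) : WW p) = 0 := by exact_mod_cast h
      norm_num at this
    apply mul_left_cancel₀ n9
    linear_combination (3 * s - f δ * t) * hs3 + t ^ 2 * hfδ - 51 * ht
  have hfr : (rdW hp2 hl).r s ^ p = -(rdW hp2 hl).r s := by
    have e1 : (rdW hp2 hl).r s = ⟨0, -PadicInt.toZMod (δ * (4 * v))⟩ := by
      show redW s = _
      rw [redW_apply, hsd]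
      ext <;> simp [hf, ht', QuadraticAlgebra.algebraMap_re, QuadraticAlgebra.algebraMap_im]
    rw [e1, KW_frob hp2 hl]
    ext <;> simp
  have hα : (p : WW p) ∣ i * t + y * ((t - s) * (72 * (f v) ^ 2)) := by
    obtain ⟨m, hm⟩ := hpδ
    have hm' := congrArg f hm
    simp only [map_add, map_mul, map_intCast, map_ofNat, map_natCast] at hm'
    rw [hi] at hm'
    push_cast at hm'
    refine ⟨t * (2 * f v) * f m, ?_⟩
    linear_combination (2 * t * f v) * hm' +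
      (-((i : WW p) * t) + 6 * f v * y * t - 6 * f v * y * s) * hfv - (2 * f v * y) * hs3
  have key := caseB_gen (rdW hp2 hl) hp5 hs ht hu hn hy3 hα hfr
  -- Clausen's formula
  obtain ⟨c, hc⟩ : ∃ c : WW p, c = (16 + 4 * s) * (24 * ((f v) ^ 2) ^ 2) := ⟨_, rfl⟩
  rw [← hc] at key
  have hcm : c * (1 - 27 * c) = f mi := by
    have hmi' := congrArg f hmi
    rw [map_mul, map_neg, map_ofNat, map_one] at hmi'
    have h864 : 864 * (24 * ((f v) ^ 2) ^ 2) = 1 := by linear_combination (144 * (f v) ^ 2 + 1) * hu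
    obtain ⟨w, hw⟩ : ∃ w : WW p, w = 24 * ((f v) ^ 2) ^ 2 := ⟨_, rfl⟩
    rw [← hw] at h864 hc
    have h1 : -1728 * (c * (1 - 27 * c)) = 1 := by
      rw [hc]
      linear_combination (33 * 864 * w + 1 + 8 * s * 864 * w) * h864 + (746496 * w ^ 2) * hs
    linear_combination (f mi) * h1 - (c * (1 - 27 * c)) * hmi'
  obtain ⟨k1, hk1⟩ := clausen3 hpp c
  rw [hcm, ← T3_eq'] at hk1
  obtain ⟨k2, hk2⟩ := key
  have h1 : (p : WW p) ^ 2 ∣ f ((∑ k ∈ Finset.range p, ((u3 k : ℤ) : ℤ_[p]) * mi ^ k) -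
      ((2 * p - 3 * x ^ 2 : ℤ) : ℤ_[p])) := by
    refine ⟨k1 + k2, ?_⟩
    rw [map_sub, map_sum]
    simp only [map_mul, map_pow, map_intCast]
    rw [hi]
    linear_combination hk1 + hk2
  have h2 : (p : WW p) ^ 2 = f ((p : ℤ_[p]) ^ 2) := by rw [map_pow, map_natCast]
  rw [h2, hf, QuadraticAlgebra.algebraMap_dvd_iff_dvd] at h1
  exact h1

end Pool.Agent.H35.Q51
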