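import Pool.Agent.H35.Q51.A1
import Pool.Agent.H35.Q51.B2

/-!
The supercongruence when `p` is the norm of a principal ideal.
-/

set_option autoImplicit false
set_option linter.unusedSectionVars false
set_option linter.unusedSimpArgs false
set_option linter.unusedVariables false

namespace Pool.Agent.H35.Q51

open Polynomial
open Pool.Agent.H475R2 (T3 t3 u3 clausen3 isUnit_intCast twelve_inv nf nf_pos split_final)

variable {p : ℕ} [hp : Fact p.Prime]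

/-- the reduction of the `p`-adic integers -/
noncomputable def rdZ : Red p ℤ_[p] (ZMod p) where
  r := PadicInt.toZMod
  ker := padic_dvd_iff
  un x hx := padic_unit hx
  fr x := ⟨x, ZMod.pow_card x⟩

theorem exists_neg3 (hp5 : 5 ≤ p) (h3 : p % 3 = 1) : ∃ a : ℤ, (p : ℤ) ∣ a ^ 2 - (-3) := by
  have hpp := hp.out
  have h3' : Fact (Nat.Prime 3) := ⟨Nat.prime_three⟩
  have hc : 3 ∣ Fintype.card (ZMod p)ˣ := by
    rw [ZMod.card_units]
    have := hpp.pos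
    omega
  obtain ⟨w, hw⟩ := exists_prime_orderOf_dvd_card 3 hc
  have h1 : (w : ZMod p) ^ 3 = 1 := by
    have := pow_orderOf_eq_one w
    rw [hw] at this
    rw [← Units.val_pow_eq_pow_val, this, Units.val_one]
  have h2 : (w : ZMod p) ≠ 1 := by
    intro h
    have : w = 1 := Units.val_eq_one.1 h
    rw [this, orderOf_one] at hw
    omega
  have h4 : (w : ZMod p) ^ 2 + w + 1 = 0 := by
    have : ((w : ZMod p) - 1) * ((w : ZMod p) ^ 2 + w + 1) = 0 := by linear_combination h1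
    rcases mul_eq_zero.1 this with h | h
    · exact absurd (sub_eq_zero.1 h) h2
    · exact h
  obtain ⟨a, ha⟩ := ZMod.intCast_surjective (2 * (w : ZMod p) + 1)
  refine ⟨a, ?_⟩
  rw [← ZMod.intCast_zmod_eq_zero_iff_dvd]
  push_cast
  rw [ha]
  linear_combination 4 * h4

theorem caseA (hp5 : 5 ≤ p) (h3 : p % 3 = 1) {x y : ℤ} (hxy : 4 * (p : ℤ) = x ^ 2 + 51 * y ^ 2)
    {mi : ℤ_[p]} (hmi : -1728 * mi = 1) :
    (p : ℤ_[p]) ^ 2 ∣ (∑ k ∈ Finset.range p, ((u3 k : ℤ) : ℤ_[p]) * mi ^ k) -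
      ((x ^ 2 - 2 * p : ℤ) : ℤ_[p]) := by
  have hpp := hp.out
  have hpZ : Prime (p : ℤ) := Nat.prime_iff_prime_int.1 hpp
  have hp2 : p ≠ 2 := by omega
  have hpp' := PadicInt.prime_p (p := p)
  have hp0 : (p : ℤ_[p]) ≠ 0 := hpp'.ne_zero
  obtain ⟨v, hv⟩ := twelve_inv (p := p) hp5
  obtain ⟨i, hi⟩ : ∃ i : ℤ, x = 2 * i + 3 * y := by
    have h1 : (x - y) % 2 = 0 := by
      have h2 : (x ^ 2 + 51 * y ^ 2) % 2 = 0 := by rw [← hxy]; omega
      rcases Int.emod_two_eq_zero_or_one x with hx | hx <;>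
        rcases Int.emod_two_eq_zero_or_one y with hy | hy <;>
        simp [pow_two, Int.add_emod, Int.mul_emod, Int.sub_emod, hx, hy] at h2 ⊢
    exact ⟨(x - 3 * y) / 2, by omega⟩
  have hn : nf 3 15 i y = p := by
    have : 4 * nf 3 15 i y = 4 * (p : ℤ) := by rw [hxy, hi]; unfold nf; ring
    linarith
  have hpnd : ∀ m : ℤ, 0 < m → m < p → ¬ (p : ℤ) ∣ m := by
    intro m h0 h1 hd
    have := Int.le_of_dvd h0 hd
    omega
  have hi3 : ¬ (3 : ℤ) ∣ i := by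
    rintro ⟨k, rfl⟩
    unfold nf at hn
    have h1 : (3 : ℤ) ∣ p := ⟨3 * k ^ 2 + 3 * k * y + 5 * y ^ 2, by rw [← hn]; ring⟩
    have h3 : 3 ∣ p := by exact_mod_cast h1
    omega
  have h17 : p ≠ 17 := by
    rintro rfl
    omega
  have hpy : ¬ (p : ℤ) ∣ y := by
    intro hd
    have h4 : (p : ℤ) ∣ x ^ 2 := by
      have : x ^ 2 = 4 * p - (51 * y) * y := by rw [hxy]; ring
      rw [this]
      exact dvd_sub (dvd_mul_left _ _) (hd.mul_left _)
    have h5 : (p : ℤ) ∣ x := hpZ.dvd_of_dvd_pow h4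
    obtain ⟨a, ha⟩ := h5
    obtain ⟨b, hb⟩ := hd
    have h6 : (p : ℤ) * (p * (a ^ 2 + 51 * b ^ 2)) = p * 4 := by
      rw [mul_comm (p : ℤ) 4, hxy, ha, hb]; ring
    have h7 := mul_left_cancel₀ hpZ.ne_zero h6
    exact hpnd 4 (by norm_num) (by omega) ⟨_, h7.symm⟩
  have hcop : IsCoprime y (p : ℤ) := ((hpZ.coprime_iff_not_dvd).2 hpy).symm
  obtain ⟨b, e, hbe⟩ := hcop
  have h51 : (p : ℤ) ∣ (x * b) ^ 2 - (-51) := by
    refine ⟨4 * b ^ 2 + 51 * e * (b * y + 1), ?_⟩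
    linear_combination (-(b ^ 2)) * hxy + (-51 : ℤ) * (b * y + 1) * hbe
  have h51' : ¬ (p : ℤ) ∣ -51 := by
    intro hd
    have h1 : (p : ℤ) ∣ 3 * 17 := by
      have := (dvd_neg (a := (p : ℤ)) (b := -51)).2 hd
      norm_num at this ⊢
      exact this
    rcases hpZ.dvd_or_dvd h1 with h | h
    · exact hpnd 3 (by norm_num) (by omega) h
    · have h2 : p ∣ 17 := by exact_mod_cast h
      exact h17 ((Nat.prime_dvd_prime_iff_eq hpp (by norm_num)).1 h2)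
  obtain ⟨δ0, hδ0⟩ := sqrt_padic hp2 h51' h51
  obtain ⟨δ, hδ, hpδ⟩ : ∃ δ : ℤ_[p], δ ^ 2 = -51 ∧ (p : ℤ_[p]) ∣ x + y * δ := by
    have hδ0' : δ0 ^ 2 = -51 := by rw [hδ0]; push_cast; rfl
    have hxyp : 4 * (p : ℤ_[p]) = x ^ 2 + 51 * y ^ 2 := by
      exact_mod_cast congrArg (fun z : ℤ => (z : ℤ_[p])) hxy
    have hprod : ((x : ℤ_[p]) + y * δ0) * (x + y * (-δ0)) = p * 4 := by
      linear_combination (-((y : ℤ_[p]) ^ 2)) * hδ0' - hxyp
    have hd : (p : ℤ_[p]) ∣ ((x : ℤ_[p]) + y * δ0) * (x + y * (-δ0)) := by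
      rw [hprod]; exact dvd_mul_right _ _
    rcases hpp'.dvd_or_dvd hd with h | h
    · exact ⟨δ0, hδ0', h⟩
    · exact ⟨-δ0, by rw [neg_sq]; exact hδ0', h⟩
  obtain ⟨a3, ha3⟩ := exists_neg3 hp5 h3
  obtain ⟨t, ht0⟩ := sqrt_padic hp2 (m := -3) (by
    intro hd
    exact hpnd 3 (by norm_num) (by omega) ((dvd_neg (a := (p : ℤ)) (b := 3)).1 hd)) ha3
  have ht : t ^ 2 = -3 := by rw [ht0]; push_cast; rfl
  have hu : 144 * v ^ 2 = 1 := by linear_combination (12 * v + 1) * hv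
  obtain ⟨s, hsd⟩ : ∃ s : ℤ_[p], s = -(δ * (4 * v) * t) := ⟨_, rfl⟩
  have hs3 : 3 * s = -(δ * t) := by
    rw [hsd]
    linear_combination (-δ * t) * hv
  have hs : s ^ 2 = 17 := by
    have n9 : (9 : ℤ_[p]) ≠ 0 := by norm_num
    apply mul_left_cancel₀ n9
    linear_combination (3 * s - δ * t) * hs3 + t ^ 2 * hδ - 51 * ht
  have hst : s * t = δ := by
    have n3 : (3 : ℤ_[p]) ≠ 0 := by norm_num
    apply mul_left_cancel₀ n3
    linear_combination t * hs3 - δ * ht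
  obtain ⟨σ, hσ⟩ : ∃ σ : ℤ_[p], σ = (3 + s * t) * (72 * v ^ 2) := ⟨_, rfl⟩
  have hσ2 := sigma_eq hs ht hu
  rw [← hσ] at hσ2
  have h2σ : 2 * σ = 3 + δ := by rw [hσ, hst]; linear_combination (3 + δ) * hu
  have hij : i ≠ 0 ∨ y ≠ 0 := by
    left
    rintro rfl
    exact hi3 (dvd_zero _)
  obtain ⟨N, D, mN, dN, dD, cc, ode, h0⟩ := end_lattice hs ht hu i y hij
  rw [hn] at dN dD
  simp only [Int.toNat_natCast] at dN dD
  rw [← hσ] at ode
  have hα : (p : ℤ_[p]) ∣ i + y * σ := by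
    have h2 : (p : ℤ_[p]) ∣ 2 * (i + y * σ) := by
      have : 2 * (i + y * σ) = x + y * δ := by
        rw [hi]; push_cast
        linear_combination (y : ℤ_[p]) * h2σ
      rw [this]; exact hpδ
    rcases hpp'.dvd_or_dvd h2 with h | h
    · exfalso
      have u2 : IsUnit (2 : ℤ_[p]) := IsUnit.of_mul_eq_one (6 * v) (by linear_combination hv)
      exact hpp'.not_isUnit (isUnit_of_dvd_unit h u2)
    · exact h
  obtain ⟨w, hw⟩ := hα
  obtain ⟨π', hπ'⟩ : ∃ π' : ℤ_[p], π' = i + y * (3 - σ) := ⟨_, rfl⟩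
  have hprod : (i + y * σ) * π' = p := by
    have h5 : ((nf 3 15 i y : ℤ) : ℤ_[p]) = p := by rw [hn]; simp
    rw [← h5, hπ']
    unfold nf
    push_cast
    linear_combination (-(y : ℤ_[p]) ^ 2) * hσ2
  have hwπ : w * π' = 1 := by
    apply mul_left_cancel₀ hp0
    rw [mul_one, ← mul_assoc, ← hw, hprod]
  have h864 : 864 * (24 * (v ^ 2) ^ 2) = 1 := by linear_combination (144 * v ^ 2 + 1) * hu
  have e16 : (16 + 4 * s) * (16 - 4 * s) = -16 := by linear_combination (-16) * hs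
  have u16 : IsUnit (-16 : ℤ_[p]) := IsUnit.of_mul_eq_one (-(9 * v ^ 2)) (by linear_combination hu)
  have uw : IsUnit (24 * (v ^ 2) ^ 2) := IsUnit.of_mul_eq_one 864 (by linear_combination h864)
  have ua : IsUnit (16 + 4 * s) := by
    rw [← e16] at u16; exact isUnit_of_mul_isUnit_left u16
  obtain ⟨c, hc⟩ : ∃ c : ℤ_[p], c = (16 + 4 * s) * (24 * (v ^ 2) ^ 2) := ⟨_, rfl⟩
  have hβc : 16 + 4 * s = 864 * c := by rw [hc]; linear_combination (-(16 + 4 * s)) * h864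
  have uc : IsUnit c := by rw [hc]; exact ua.mul uw
  obtain ⟨ε, hε, hT⟩ := T3_of_ode (rdZ (p := p)) hp5 (β := 16 + 4 * s) (β' := 16 + 4 * s)
    (c := c) (c' := c) hu hβc hβc uc uc (by show PadicInt.toZMod c = PadicInt.toZMod c ^ p; rw [ZMod.pow_card])
    hw hwπ (dsc_unit51 hs hu) mN dN dD cc (h0 hi3) ode
  obtain ⟨k, hk⟩ := hT
  have hεε : ε * ε = 1 := by rcases hε with h | h <;> rw [h] <;> ring
  have hT' : T3 p c = ε * π' + p ^ 2 * k := by linear_combination hk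
  refine split_final (c := c) ?_ ?_
  · obtain ⟨q, hq⟩ : ∃ q : ℤ_[p], q = 24 * (v ^ 2) ^ 2 := ⟨_, rfl⟩
    rw [← hq] at h864 hc
    have h1 : -1728 * (c * (1 - 27 * c)) = 1 := by
      rw [hc]
      linear_combination (33 * 864 * q + 1 + 8 * s * 864 * q) * h864 + (746496 * q ^ 2) * hs
    linear_combination mi * h1 - (c * (1 - 27 * c)) * hmi
  · rw [hT']
    refine ⟨2 * ε * π' * k + p ^ 2 * k ^ 2 - w ^ 2, ?_⟩
    rw [hi]
    push_cast
    have hw2 : (i + y * σ) ^ 2 = p ^ 2 * w ^ 2 := by rw [hw]; ring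
    have hsum : (i + y * σ) + π' = 2 * i + 3 * y := by rw [hπ']; ring
    linear_combination (π' ^ 2) * hεε + (-1 : ℤ_[p]) * hw2 - 2 * hprod +
      ((i + y * σ) + π' + (2 * i + 3 * y)) * hsum

end Pool.Agent.H35.Q51
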