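import Pool.Agent.H35.Q51.W1

/-!
The supercongruence when `p` is the norm of a non-principal ideal.
-/

set_option autoImplicit false
set_option linter.unusedSectionVars false
set_option linter.unusedSimpArgs false
set_option linter.unusedVariables false

namespace Pool.Agent.H35.Q51

open Polynomial
open Pool.Agent.H475R2 (T3 t3 u3 clausen3 isUnit_intCast twelve_inv)

variable {p : ℕ} [hp : Fact p.Prime]

/-- square roots in the `p`-adic integers -/
theorem sqrt_padic (hp2 : p ≠ 2) {m a : ℤ} (hm : ¬ (p : ℤ) ∣ m) (ha : (p : ℤ) ∣ a ^ 2 - m) :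
    ∃ z : ℤ_[p], z ^ 2 = m := by
  have hpp := hp.out
  have hpZ : Prime (p : ℤ) := Nat.prime_iff_prime_int.1 hpp
  have ha0 : ¬ (p : ℤ) ∣ a := by
    intro h
    apply hm
    have : m = a ^ 2 - (a ^ 2 - m) := by ring
    rw [this]
    exact dvd_sub (h.trans ⟨a, by ring⟩) ha
  have h2a : IsUnit ((2 * a : ℤ) : ℤ_[p]) := by
    apply isUnit_intCast
    intro h
    rcases hpZ.dvd_or_dvd h with h1 | h1
    · have h2 : p ∣ 2 := by exact_mod_cast h1
      have := Nat.le_of_dvd (by norm_num) h2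
      have := hpp.two_le
      omega
    · exact ha0 h1
  set F : ℤ_[p][X] := X ^ 2 - C (m : ℤ_[p]) with hF
  have hFa : F.eval (a : ℤ_[p]) = ((a ^ 2 - m : ℤ) : ℤ_[p]) := by
    rw [hF]; simp
  have hF' : (derivative F).eval (a : ℤ_[p]) = ((2 * a : ℤ) : ℤ_[p]) := by
    rw [hF]; simp; left; norm_num
  have hnorm : ‖(derivative F).eval (a : ℤ_[p])‖ = 1 := by
    rw [hF']; exact PadicInt.isUnit_iff.1 h2a
  have hlt : ‖F.eval (a : ℤ_[p])‖ < 1 := by
    rw [hFa]
    exact (PadicInt.norm_int_lt_one_iff_dvd _).2 ha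
  obtain ⟨z, hz, hza, -, -⟩ := hensels_lemma (F := F) (a := (a : ℤ_[p])) (by
    simp only [coe_aeval_eq_eval]
    rw [hnorm, one_pow]; exact hlt)
  simp only [coe_aeval_eq_eval] at hz
  refine ⟨z, ?_⟩
  rw [hF] at hz
  simp only [eval_sub, eval_pow, eval_X, eval_C] at hz
  linear_combination hz

/-- The general non-principal case. -/
theorem caseB_gen {R : Type*} [CommRing R] [IsDomain R] [CharZero R] {K : Type*} [Field K]
    [CharP K p] (rd : Red p R K) (hp5 : 5 ≤ p) {s t u : R} (hs : s ^ 2 = 17) (ht : t ^ 2 = -3)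
    (hu : 144 * u = 1) {i j : ℤ} (hn : nf3 3 3 5 i j = p) (hj : ¬ (3 : ℤ) ∣ j)
    (hα : (p : R) ∣ i * t + j * ((t - s) * (72 * u)))
    (hfr : rd.r s ^ p = -rd.r s) :
    (p : R) ^ 2 ∣ T3 p ((16 + 4 * s) * (24 * u ^ 2)) ^ 2 - ((2 * p - 3 * (2 * i + j) ^ 2 : ℤ) : R) := by
  have hpp := hp.out
  have hij : i ≠ 0 ∨ j ≠ 0 := by
    right
    rintro rfl
    exact hj (dvd_zero _)
  obtain ⟨N, D, mN, dN, dD, cc, ode, h0⟩ := hom_lattice hs ht hu i j hij
  rw [hn] at dN dD
  simp only [Int.toNat_natCast] at dN dD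
  obtain ⟨v, hv⟩ := hα
  have hp0 : (p : R) ≠ 0 := by exact_mod_cast hp.out.ne_zero
  set α' : R := i * t + j * ((t + s) * (72 * u)) with hα'
  have hprod : (i * t + j * ((t - s) * (72 * u))) * α' = -p := by
    have h5 : ((nf3 3 3 5 i j : ℤ) : R) = p := by rw [hn]; simp
    rw [← h5, hα']
    unfold nf3
    push_cast
    linear_combination ((i : R) ^ 2 + i * j * (144 * u) + j ^ 2 * (72 * u) ^ 2) * ht -
      (j ^ 2 * (72 * u) ^ 2) * hs - (3 * i * j) * hu - (5 * j ^ 2 * (144 * u + 1)) * hu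
  have hvα : v * (-α') = 1 := by
    apply mul_left_cancel₀ hp0
    rw [mul_one, ← mul_assoc, ← hv]
    linear_combination -hprod
  have h864 : 864 * (24 * u ^ 2) = 1 := by linear_combination (144 * u + 1) * hu
  have e16 : (16 + 4 * s) * (16 - 4 * s) = -16 := by linear_combination (-16) * hs
  have u16 : IsUnit (-16 : R) := IsUnit.of_mul_eq_one (-(9 * u)) (by linear_combination hu)
  have uw : IsUnit (24 * u ^ 2) := IsUnit.of_mul_eq_one 864 (by linear_combination h864)
  have ua : IsUnit (16 + 4 * s) := by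
    rw [← e16] at u16; exact isUnit_of_mul_isUnit_left u16
  have ub : IsUnit (16 - 4 * s) := by
    rw [← e16] at u16; exact isUnit_of_mul_isUnit_right u16
  have hΔ := dsc_unit51 (S := R) hs hu
  have nat4 : (4 : K) ^ p = 4 := by exact_mod_cast natCast_pow_p (p := p) (K := K) 4
  have nat16 : (16 : K) ^ p = 16 := by exact_mod_cast natCast_pow_p (p := p) (K := K) 16
  have nat24 : (24 : K) ^ p = 24 := by exact_mod_cast natCast_pow_p (p := p) (K := K) 24
  have nat144 : (144 : K) ^ p = 144 := by exact_mod_cast natCast_pow_p (p := p) (K := K) 144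
  have hru : rd.r u ^ p = rd.r u := by
    have e1 := congrArg rd.r hu
    rw [map_mul, map_ofNat, map_one] at e1
    have e2 := congrArg (fun x => x ^ p) e1
    simp only [mul_pow, one_pow, nat144] at e2
    have h144 : (144 : K) ≠ 0 := by
      intro h; rw [h, zero_mul] at e1; exact zero_ne_one e1
    apply mul_left_cancel₀ h144
    rw [e1, e2]
  obtain ⟨ε, hε, hT⟩ := T3_of_ode rd hp5 (β := 16 + 4 * s) (β' := 16 - 4 * s)
    (c := (16 + 4 * s) * (24 * u ^ 2)) (c' := (16 - 4 * s) * (24 * u ^ 2)) hu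
    (by linear_combination (-(16 + 4 * s)) * h864) (by linear_combination (-(16 - 4 * s)) * h864)
    (ua.mul uw) (ub.mul uw)
    (by
      have e1 : rd.r ((16 - 4 * s) * (24 * u ^ 2)) = (16 - 4 * rd.r s) * (24 * (rd.r u) ^ 2) := by
        simp only [map_mul, map_sub, map_pow, map_ofNat]
      have e2 : rd.r ((16 + 4 * s) * (24 * u ^ 2)) = (16 + 4 * rd.r s) * (24 * (rd.r u) ^ 2) := by
        simp only [map_mul, map_add, map_pow, map_ofNat]
      rw [e1, e2, mul_pow, add_pow_char, mul_pow 4, mul_pow 24, hfr, nat4, nat16, nat24, ← pow_mul,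
        mul_comm 2 p, pow_mul, hru]
      ring)
    hv hvα hΔ mN dN dD cc (h0 hj) ode
  obtain ⟨k, hk⟩ := hT
  have hεε : ε * ε = 1 := by rcases hε with h | h <;> rw [h] <;> ring
  have hT' : T3 p ((16 + 4 * s) * (24 * u ^ 2)) = -(ε * α') + p ^ 2 * k := by linear_combination hk
  have hsum : (i * t + j * ((t - s) * (72 * u))) + α' = (2 * i + j) * t := by
    rw [hα']; linear_combination (j * t) * hu
  rw [hT']
  refine ⟨-2 * ε * α' * k + p ^ 2 * k ^ 2 - v ^ 2, ?_⟩
  push_cast
  have hv2 : (i * t + j * ((t - s) * (72 * u))) ^ 2 = p ^ 2 * v ^ 2 := by rw [hv]; ring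
  linear_combination (α' ^ 2) * hεε + (-1 : R) * hv2 - 2 * hprod +
    ((i * t + j * ((t - s) * (72 * u))) + α' + (2 * i + j) * t) * hsum + ((2 * i + j : R) ^ 2) * ht

end Pool.Agent.H35.Q51
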