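import Pool.Agent.H35.Q51.A2

/-!
The inert case: the effect of an isogeny on the middle coefficient.
-/

set_option autoImplicit false
set_option linter.unusedSectionVars false
set_option linter.unusedSimpArgs false
set_option linter.unusedVariables false

namespace Pool.Agent.H35.Q51

open Pool.Agent.H475R2 (coeff_pow_der nat_ne)

section charp

variable {p : ℕ} [hp : Fact p.Prime] {K : Type*} [Field K] [hK : CharP K p]

include hp hK

open PowerSeries in
theorem inert2 {h : ℕ} (hh : p = 2 * h + 1) {f f' fh N D : Polynomial K} {μ : K}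
    (f0' : f'.coeff 0 ≠ 0)
    (N0 : N.coeff 0 = 0) (D0 : D.coeff 0 ≠ 0) (hμ0 : μ ≠ 0)
    (hfh : ∀ Q : PowerSeries K, Q * (D : PowerSeries K) = N →
      Polynomial.aeval Q f' * (D : PowerSeries K) ^ 3 = (fh : PowerSeries K))
    (ode : f * (Polynomial.derivative N * D - N * Polynomial.derivative D) ^ 2 =
      Polynomial.C (μ ^ 2) * D * fh) :
    (f ^ h).coeff (p - 1) = μ ^ (p - 1) * (f' ^ h).coeff (p - 1) := by
  have hpp := hp.out
  have uD : IsUnit (D : PowerSeries K) := by
    rw [PowerSeries.isUnit_iff_constantCoeff, Polynomial.constantCoeff_coe]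
    exact IsUnit.mk0 _ D0
  obtain ⟨Di, hDi⟩ := uD.exists_right_inv
  set Q : PowerSeries K := (N : PowerSeries K) * Di with hQ
  have hQD : Q * (D : PowerSeries K) = N := by
    rw [hQ]; linear_combination (N : PowerSeries K) * hDi
  have hQ0 : constantCoeff Q = 0 := by
    rw [hQ, map_mul, Polynomial.constantCoeff_coe, N0, zero_mul]
  have hγD := hfh Q hQD
  set γ : PowerSeries K := Polynomial.aeval Q f' with hγ
  have hder : d⁄dX K Q * (D : PowerSeries K) ^ 2 =
      ((Polynomial.derivative N * D - N * Polynomial.derivative D : Polynomial K) :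
        PowerSeries K) := by
    have e := congrArg (d⁄dX K) hQD
    rw [Derivation.leibniz, PowerSeries.derivative_coe, PowerSeries.derivative_coe] at e
    simp only [smul_eq_mul] at e
    push_cast
    rw [← e, ← hQD]
    ring
  have hode2 : (f : PowerSeries K) * (d⁄dX K Q) ^ 2 = C (μ ^ 2) * γ := by
    have e := congrArg (fun f : Polynomial K => (f : PowerSeries K)) ode
    simp only [Polynomial.coe_mul, Polynomial.coe_pow] at e
    rw [← hder, ← hγD] at e
    have u4 : IsUnit ((D : PowerSeries K) ^ 4) := uD.pow 4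
    apply u4.mul_left_cancel
    have : ((Polynomial.C (μ ^ 2) : Polynomial K) : PowerSeries K) = C (μ ^ 2) := Polynomial.coe_C _
    rw [this] at e
    linear_combination e
  have hq1 : f.coeff 0 * (coeff 1 Q) ^ 2 = μ ^ 2 * f'.coeff 0 := by
    have e := congrArg (constantCoeff (R := K)) hode2
    have h2 : constantCoeff (d⁄dX K Q) = coeff 1 Q := by
      rw [← coeff_zero_eq_constantCoeff_apply, coeff_derivative]; simp
    have h3 : constantCoeff γ = f'.coeff 0 := by
      rw [hγ, Polynomial.aeval_eq_sum_range, map_sum, Finset.sum_range_succ']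
      rw [Finset.sum_eq_zero]
      · simp
      · intro i _
        rw [Algebra.smul_def, map_mul, map_pow, hQ0]
        simp
    rw [RingHom.map_mul, RingHom.map_mul, RingHom.map_pow, Polynomial.constantCoeff_coe, h2, h3,
      constantCoeff_C] at e
    exact e
  set q := coeff 1 Q with hq
  -- the `h`-th power
  have hpow : ((f ^ h : Polynomial K) : PowerSeries K) * (d⁄dX K Q) ^ (p - 1) =
      C (μ ^ (p - 1)) * Polynomial.aeval Q (f' ^ h) := by
    have e := congrArg (fun z => z ^ h) hode2
    simp only [mul_pow, ← pow_mul] at e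
    rw [← hγ.symm] at e
    have e1 : 2 * h = p - 1 := by omega
    rw [e1] at e
    push_cast
    rw [map_pow (Polynomial.aeval Q), ← hγ, e, map_pow, map_pow, ← pow_mul, e1]
  have : CharP (PowerSeries K) p := charP_of_injective_ringHom (PowerSeries.C_injective) p
  have hL : coeff (p - 1) (((f ^ h : Polynomial K) : PowerSeries K) * (d⁄dX K Q) ^ p) =
      (f ^ h).coeff (p - 1) * q ^ p := by
    obtain ⟨E, hE⟩ : ∃ E, d⁄dX K Q = C q + X * E := by
      have : (X : PowerSeries K) ∣ d⁄dX K Q - C q := by
        rw [X_dvd_iff, map_sub, ← coeff_zero_eq_constantCoeff_apply, coeff_derivative, constantCoeff_C]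
        simp [hq]
      obtain ⟨E, hE⟩ := this
      exact ⟨E, by linear_combination hE⟩
    rw [hE, add_pow_char, mul_pow, ← map_pow]
    have : ((f ^ h : Polynomial K) : PowerSeries K) * (C (q ^ p) + X ^ p * E ^ p) =
      C (q ^ p) * ((f ^ h : Polynomial K) : PowerSeries K) +
        X ^ p * (((f ^ h : Polynomial K) : PowerSeries K) * E ^ p) := by ring
    rw [this, map_add, coeff_C_mul, coeff_X_pow_mul', if_neg (by have := hpp.pos; omega), add_zero,
      Polynomial.coeff_coe]
    ring
  have hR : coeff (p - 1) (C (μ ^ (p - 1)) * Polynomial.aeval Q (f' ^ h) * d⁄dX K Q) =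
      μ ^ (p - 1) * ((f' ^ h).coeff (p - 1) * q ^ p) := by
    rw [mul_assoc, coeff_C_mul, Polynomial.aeval_eq_sum_range, Finset.sum_mul, map_sum]
    congr 1
    have : ∀ m ∈ Finset.range ((f' ^ h).natDegree + 1),
        coeff (p - 1) ((f' ^ h).coeff m • Q ^ m * d⁄dX K Q) =
          if m = p - 1 then (f' ^ h).coeff m * q ^ p else 0 := by
      intro m _
      rw [smul_mul_assoc, PowerSeries.coeff_smul, coeff_pow_der Q hQ0, smul_eq_mul]
      split_ifs
      · rfl
      · rw [mul_zero]
    rw [Finset.sum_congr rfl this, Finset.sum_ite_eq']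
    split_ifs with h9
    · rfl
    · rw [Finset.mem_range, not_lt] at h9
      rw [Polynomial.coeff_eq_zero_of_natDegree_lt (by omega), zero_mul]
  have hmain : (f ^ h).coeff (p - 1) * q ^ p = μ ^ (p - 1) * ((f' ^ h).coeff (p - 1) * q ^ p) := by
    rw [← hR, ← hL, ← hpow]
    congr 1
    have e2 : (d⁄dX K Q) ^ p = (d⁄dX K Q) ^ (p - 1) * d⁄dX K Q := by
      rw [← pow_succ]; congr 1; have := hpp.pos; omega
    rw [e2]; ring
  have hq0 : q ≠ 0 := by
    intro h0
    rw [h0, zero_pow (by norm_num), mul_zero] at hq1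
    exact mul_ne_zero (pow_ne_zero 2 hμ0) f0' hq1.symm
  apply mul_right_cancel₀ (pow_ne_zero p hq0)
  linear_combination hmain

end charp

end Pool.Agent.H35.Q51
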