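import Pool.Agent.H35.Q51.C0

/-!
The inert case.
-/

set_option autoImplicit false
set_option linter.unusedSectionVars false
set_option linter.unusedSimpArgs false
set_option linter.unusedVariables false

namespace Pool.Agent.H35.Q51

open Polynomial
open Pool.Agent.H475R2 (T3 t3 u3 clausen3 isUnit_intCast twelve_inv split_final mid_coeff coeff_pow_der
  nat_ne frob_neg frob_ne padic_phi padic_phi_frob descent qmap)

section charp

variable {p : ℕ} [hp : Fact p.Prime] {K : Type*} [Field K] [hK : CharP K p]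

include hp hK

omit hp hK in
theorem fh_aeval (b : K) (N D : K[X]) (Q : PowerSeries K) (hQ : Q * (D : PowerSeries K) = N) :
    aeval Q (fz b) * (D : PowerSeries K) ^ 3 = ((fh b N D : K[X]) : PowerSeries K) := by
  unfold fz fh
  simp only [map_add, map_mul, map_pow, aeval_X, aeval_C]
  push_cast
  rw [← hQ]
  have hal : ∀ a : K, algebraMap K (PowerSeries K) a = PowerSeries.C a := fun a => rfl
  simp only [hal, map_mul, map_pow]
  ring

/-- The relation given by the isogeny of degree five. -/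
theorem rel5 (hp5 : 5 ≤ p) {h : ℕ} (hh : p = 2 * h + 1) {s t u : K} (hs : s ^ 2 = 17) (ht : t ^ 2 = -3)
    (hu : 144 * u = 1) (hμ : t - s ≠ 0) :
    (fz (16 + 4 * s) ^ h).coeff (p - 1) =
      ((t - s) * (72 * u)) ^ (p - 1) * (fz (16 - 4 * s) ^ h).coeff (p - 1) := by
  have n2 : (2 : K) ≠ 0 := by
    have := nat_ne (p := p) (K := K) (m := 2) (by norm_num) (by omega)
    exact_mod_cast this
  have hu0 : u ≠ 0 := by
    rintro rfl
    rw [mul_zero] at hu
    exact zero_ne_one hu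
  have n3 : (3 : K) ≠ 0 := by
    have := nat_ne (p := p) (K := K) (m := 3) (by norm_num) (by omega)
    exact_mod_cast this
  have n36 : (36 * u) ≠ 0 := by
    intro h0
    have : (1 : K) = 0 := by linear_combination 4 * h0 - hu
    exact one_ne_zero this
  have e16 : (16 + 4 * s) * (16 - 4 * s) = -16 := by linear_combination (-16) * hs
  have hb' : (16 - 4 * s) ≠ 0 := by
    intro h0
    rw [h0, mul_zero] at e16
    have : (2 : K) ^ 4 = 0 := by linear_combination e16
    exact pow_ne_zero 4 n2 this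
  obtain ⟨N, hN⟩ : ∃ N, N = PX s t lN5 := ⟨_, rfl⟩
  obtain ⟨Kp, hKp⟩ : ∃ Kp, Kp = PX s t lK5 := ⟨_, rfl⟩
  obtain ⟨M, hM⟩ : ∃ M, M = PX s t lM5 := ⟨_, rfl⟩
  have i1 : 64 * (fz (16 + 4 * s) * M ^ 2) = 64 * N ^ 3 + 576 * N ^ 2 * Kp ^ 2 +
      48 * (16 - 4 * C s) * N * Kp ^ 4 + (16 - 4 * C s) ^ 2 * Kp ^ 6 := by
    rw [fz_eq hs t, hN, hKp, hM]
    exact id1 (hsC hs) (htC ht) X
  have i2 : derivative N * Kp - 2 * (N * derivative Kp) = (C t - C s) * M := by
    rw [hN, hKp, hM, PX_der, PX_der]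
    exact id2 (hsC hs) (htC ht) X
  have huC : 144 * C u = 1 := by
    have := congrArg (C : K → K[X]) hu
    rw [C_mul, map_ofNat, C_1] at this
    exact this
  refine inert2 hh (f := fz (16 + 4 * s)) (f' := fz (16 - 4 * s)) (N := N) (D := C (36 * u) * Kp ^ 2)
    (fh := fh (16 - 4 * s) N (C (36 * u) * Kp ^ 2)) (μ := (t - s) * (72 * u)) ?_ ?_ ?_ ?_ ?_ ?_
  · unfold fz
    simp only [coeff_add, coeff_C_mul, coeff_X_pow, coeff_X, coeff_C]
    norm_num
    exact hb'
  · rw [hN, PX_coeff]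
    show Z4.ev s t ⟨0, 0, 0, 0⟩ = 0
    simp [Z4.ev]
  · rw [coeff_C_mul, pow_two, mul_coeff_zero, hKp, PX_coeff]
    show 36 * u * (Z4.ev s t ⟨-528, -128, 528, 128⟩ * Z4.ev s t ⟨-528, -128, 528, 128⟩) ≠ 0
    have hne : Z4.ev s t ⟨-528, -128, 528, 128⟩ ≠ 0 := by
      intro h0
      have e1 := Z4.ev_mul hs ht ⟨-528, -128, 528, 128⟩ ⟨-540672, 131072, -540672, 131072⟩
      rw [h0, zero_mul] at e1
      have e2 : Z4.mul ⟨-528, -128, 528, 128⟩ ⟨-540672, 131072, -540672, 131072⟩ =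
        ⟨1048576, 0, 0, 0⟩ := rfl
      rw [e2] at e1
      unfold Z4.ev at e1
      push_cast at e1
      have : (2 : K) ^ 20 = 0 := by linear_combination e1
      exact pow_ne_zero 20 n2 this
    exact mul_ne_zero n36 (mul_ne_zero hne hne)
  · refine mul_ne_zero hμ ?_
    intro h0
    have : (1 : K) = 0 := by linear_combination 2 * h0 - hu
    exact one_ne_zero this
  · intro Q hQ
    exact fh_aeval _ _ _ Q hQ
  · have dD : derivative (C (36 * u) * Kp ^ 2) = C (36 * u) * (2 * Kp * derivative Kp) := by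
      rw [derivative_C_mul, derivative_pow]
      push_cast
      simp only [map_ofNat]
      ring
    rw [dD]
    have e1 : derivative N * (C (36 * u) * Kp ^ 2) - N * (C (36 * u) * (2 * Kp * derivative Kp)) =
      C (36 * u) * Kp * ((C t - C s) * M) := by
      rw [← i2]; ring
    rw [e1]
    unfold fh
    have e3 : (64 : K[X]) ≠ 0 := by
      have : (64 : K[X]) = C ((2 : K) ^ 6) := by rw [map_pow, map_ofNat]; norm_num
      rw [this]
      exact C_ne_zero.2 (pow_ne_zero 6 n2)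
    apply mul_left_cancel₀ e3
    simp only [C_mul, C_sub, C_pow, map_ofNat]
    have q1 : (144 * C u) ^ 2 = (1 : K[X]) := by rw [huC, one_pow]
    have q2 : (144 * C u) ^ 4 = (1 : K[X]) := by rw [huC, one_pow]
    have q3 : (144 * C u) ^ 6 = (1 : K[X]) := by rw [huC, one_pow]
    have q4 : (144 * C u) ^ 1 = (1 : K[X]) := by rw [huC, one_pow]
    have q5 : (144 * C u) ^ 3 = (1 : K[X]) := by rw [huC, one_pow]
    linear_combination ((36 * C u) ^ 2 * Kp ^ 2 * (C t - C s) ^ 2) * (i1 - 64 * N ^ 3 * q4 -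
      576 * N ^ 2 * Kp ^ 2 * q1 - 48 * (16 - 4 * C s) * N * Kp ^ 4 * q5 -
      (16 - 4 * C s) ^ 2 * Kp ^ 6 * q2)

end charp

end Pool.Agent.H35.Q51
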