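import Pool.Agent.H35.Q51.C1

/-!
The inert case: conclusion.
-/

set_option autoImplicit false
set_option linter.unusedSectionVars false
set_option linter.unusedSimpArgs false
set_option linter.unusedVariables false

namespace Pool.Agent.H35.Q51

open Polynomial
open Pool.Agent.H475R2 (T3 t3 u3 clausen3 isUnit_intCast twelve_inv split_final mid_coeff
  nat_ne frob_neg frob_ne padic_phi padic_phi_frob descent qmap T3_eq)

section charp

variable {p : ℕ} [hp : Fact p.Prime] {K : Type*} [Field K] [hK : CharP K p]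

include hp hK

/-- The middle coefficient vanishes. -/
theorem mid_zero (hp5 : 5 ≤ p) {h : ℕ} (hh : p = 2 * h + 1) {s t u : K} (hs : s ^ 2 = 17)
    (ht : t ^ 2 = -3) (hu : 144 * u = 1) (hst : (s * t) ^ p = -(s * t)) (h51 : (51 : K) ≠ 0) :
    (fz (16 + 4 * s) ^ h).coeff (p - 1) = 0 := by
  have hpp := hp.out
  have n2 : (2 : K) ≠ 0 := by
    have := nat_ne (p := p) (K := K) (m := 2) (by norm_num) (by omega)
    exact_mod_cast this
  have n2p : (2 : K) ^ p = 2 := by exact_mod_cast natCast_pow_p (p := p) (K := K) 2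
  have n17p : (17 : K) ^ p = 17 := by exact_mod_cast natCast_pow_p (p := p) (K := K) 17
  have n3p : (3 : K) ^ p = 3 := by exact_mod_cast natCast_pow_p (p := p) (K := K) 3
  have st0 : s * t ≠ 0 := by
    intro h0
    apply h51
    linear_combination (-(s * t)) * h0 + t ^ 2 * hs + 17 * ht
  have s0 : s ≠ 0 := left_ne_zero_of_mul st0
  have t0 : t ≠ 0 := right_ne_zero_of_mul st0
  -- Frobenius on `s`
  have hsp : s ^ p = s ∨ s ^ p = -s := by
    have e1 : (s ^ p) ^ 2 = s ^ 2 := by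
      rw [← pow_mul, mul_comm p 2, pow_mul, hs, n17p]
    exact sq_eq_sq_iff_eq_or_eq_neg.1 e1
  have htp : s ^ p * t ^ p = -(s * t) := by rw [← mul_pow]; exact hst
  have hne : ∀ t' : K, t' ^ 2 = -3 → s ^ p * t' ^ p = -(s * t') → t' - s ≠ 0 := by
    intro t' ht' hst' h0
    have e1 : t' = s := sub_eq_zero.1 h0
    rw [e1] at hst'
    have e2 : s ^ p * s ^ p = s * s := by
      rcases hsp with h | h <;> rw [h] <;> ring
    rw [e2] at hst'
    have : 2 * (s * s) = 0 := by linear_combination hst'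
    rcases mul_eq_zero.1 this with h | h
    · exact n2 h
    · exact mul_ne_zero s0 s0 h
  have htn : (-t) ^ 2 = -3 := by rw [neg_sq, ht]
  have hodd := hpp.odd_of_ne_two (by omega)
  have r1 := rel5 hp5 hh hs ht hu (hne t ht htp)
  have hnt : -t - s ≠ 0 := hne (-t) htn (by rw [hodd.neg_pow]; linear_combination -htp)
  have r2 := rel5 hp5 hh hs htn hu hnt
  by_contra hcon
  obtain ⟨H, hH⟩ : ∃ H, H = (fz (16 + 4 * s) ^ h).coeff (p - 1) := ⟨_, rfl⟩
  obtain ⟨H', hH'⟩ : ∃ H', H' = (fz (16 - 4 * s) ^ h).coeff (p - 1) := ⟨_, rfl⟩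
  rw [← hH, ← hH'] at r1 r2
  rw [← hH] at hcon
  have hH'0 : H' ≠ 0 := by
    rintro rfl
    rw [mul_zero] at r1
    exact hcon r1
  have e1 : ((t - s) * (72 * u)) ^ (p - 1) = ((-t - s) * (72 * u)) ^ (p - 1) := by
    apply mul_right_cancel₀ hH'0
    rw [← r1, ← r2]
  have hpp1 : p = (p - 1) + 1 := by have := hpp.pos; omega
  have h72 : 72 * u ≠ 0 := by
    intro h0
    have : (1 : K) = 0 := by linear_combination 2 * h0 - hu
    exact one_ne_zero this
  have e2 : (t - s) ^ (p - 1) = (-t - s) ^ (p - 1) := by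
    rw [mul_pow (t - s), mul_pow (-t - s)] at e1
    exact mul_right_cancel₀ (pow_ne_zero _ h72) e1
  have e3 : (t - s) ^ p * (-t - s) = (-t - s) ^ p * (t - s) := by
    conv_lhs => rw [hpp1, pow_succ, e2]
    conv_rhs => rw [hpp1, pow_succ]
    ring
  rw [sub_pow_char, sub_pow_char, hodd.neg_pow] at e3
  have h4 : 4 * (s * t) = 0 := by
    rcases hsp with h | h
    · have ht' : t ^ p = -t := by
        apply mul_left_cancel₀ s0
        rw [h] at htp
        linear_combination htp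
      rw [h, ht'] at e3
      linear_combination e3
    · have ht' : t ^ p = t := by
        apply mul_left_cancel₀ s0
        rw [h] at htp
        linear_combination -htp
      rw [h, ht'] at e3
      linear_combination -e3
  have h44 : (4 : K) ≠ 0 := by
    rw [show (4 : K) = 2 * 2 by norm_num]; exact mul_ne_zero n2 n2
  rcases mul_eq_zero.1 h4 with h | h
  · exact h44 h
  · exact st0 h

/-- The truncated sum vanishes. -/
theorem sum_zero (hp5 : 5 ≤ p) {s t u : K} (hs : s ^ 2 = 17)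
    (ht : t ^ 2 = -3) (hu : 144 * u = 1) (hst : (s * t) ^ p = -(s * t)) (h51 : (51 : K) ≠ 0) :
    ∑ k ∈ Finset.range p, ((t3 k : ℤ) : K) * ((16 + 4 * s) * (24 * u ^ 2)) ^ k = 0 := by
  have hpp := hp.out
  obtain ⟨h, hh⟩ := hpp.odd_of_ne_two (by omega)
  have hz := mid_zero hp5 hh hs ht hu hst h51
  obtain ⟨c, hc⟩ : ∃ c : K, c = (16 + 4 * s) * (24 * u ^ 2) := ⟨_, rfl⟩
  have h864 : 864 * (24 * u ^ 2) = 1 := by linear_combination (144 * u + 1) * hu
  have hβ : 16 + 4 * s = 864 * c := by rw [hc]; linear_combination (-(16 + 4 * s)) * h864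
  rw [← hc]
  have hf : 4 * (C (u ^ 3) * (fz (16 + 4 * s)).comp (C 144 * X)) = 4 * X ^ 3 + (X + C c) ^ 2 := by
    rw [hβ]
    unfold fz
    simp only [add_comp, mul_comp, pow_comp, X_comp, C_comp]
    have huC : 144 * C u = 1 := by
      have := congrArg (C : K → K[X]) hu
      rw [C_mul, map_ofNat, C_1] at this
      exact this
    have q1 : (144 * C u) ^ 3 = (1 : K[X]) := by rw [huC, one_pow]
    simp only [C_mul, C_pow, map_ofNat]
    linear_combination (4 * X ^ 3 + X ^ 2 + 2 * C c * X + C c ^ 2) * q1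
  have hmid := mid_coeff hh hf
  rw [← hmid, mul_pow, ← C_pow, coeff_C_mul, ← pow_comp, comp_C_mul_X_coeff, hz]
  ring

end charp

variable {p : ℕ} [hp : Fact p.Prime]

theorem inert (hp5 : 5 ≤ p) (hd : legendreSym p (-51) = -1) {mi : ℤ_[p]} (hmi : -1728 * mi = 1) :
    (p : ℤ_[p]) ^ 2 ∣ ∑ k ∈ Finset.range p, ((u3 k : ℤ) : ℤ_[p]) * mi ^ k := by
  have hpp := hp.out
  have hp2 : p ≠ 2 := by omega
  obtain ⟨v, hv⟩ := twelve_inv (p := p) hp5
  let K := AlgebraicClosure (ZMod p)
  have hK : CharP K p := charP_of_injective_algebraMap (algebraMap (ZMod p) K).injective p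
  have h51Z : ((51 : ZMod p)) ≠ 0 := by
    intro h0
    have : ((-51 : ℤ) : ZMod p) = 0 := by push_cast; rw [h0]; ring
    have := (legendreSym.eq_zero_iff p (-51)).2 this
    rw [hd] at this
    norm_num at this
  have h51 : (51 : K) ≠ 0 := by
    intro h0
    apply h51Z
    apply (algebraMap (ZMod p) K).injective
    rw [map_ofNat, map_zero]; exact h0
  set φ : ℤ_[p] →+* K := (algebraMap (ZMod p) K).comp PadicInt.toZMod with hφ
  have hu0 : 144 * v ^ 2 = 1 := by linear_combination (12 * v + 1) * hv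
  have huK : 144 * (φ v) ^ 2 = 1 := by
    have := congrArg φ hu0
    rw [map_mul, map_pow, map_ofNat, map_one] at this
    exact this
  obtain ⟨t, ht0⟩ : ∃ t : K, t ^ 2 = -3 := IsAlgClosed.exists_pow_nat_eq _ (by norm_num)
  have hstp : ∀ s : K, s ^ 2 = 17 → (s * t) ^ p = -(s * t) := by
    intro s hs
    apply frob_neg hp2 hd
    rw [mul_pow, hs, ht0]; push_cast; norm_num
  have h864 : 864 * (24 * (v ^ 2) ^ 2) = 1 := by linear_combination (144 * v ^ 2 + 1) * hu0
  by_cases hsq : IsSquare ((17 : ℤ) : ZMod p)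
  · -- `17` is a residue
    obtain ⟨r, hr⟩ := hsq
    obtain ⟨a, ha⟩ := ZMod.intCast_surjective r
    have h17 : ¬ (p : ℤ) ∣ 17 := by
      intro h0
      have h1 : ((17 : ℤ) : ZMod p) = 0 := (ZMod.intCast_zmod_eq_zero_iff_dvd _ _).2 h0
      apply h51Z
      push_cast at h1
      linear_combination 3 * h1
    obtain ⟨s, hs0⟩ := sqrt_padic hp2 h17 (a := a) (by
      rw [← ZMod.intCast_zmod_eq_zero_iff_dvd]
      push_cast
      push_cast at hr
      rw [ha, hr]; ring)
    have hs : s ^ 2 = 17 := by rw [hs0]; push_cast; rfl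
    have hsK : (φ s) ^ 2 = 17 := by rw [← map_pow, hs, map_ofNat]
    obtain ⟨c, hc⟩ : ∃ c : ℤ_[p], c = (16 + 4 * s) * (24 * (v ^ 2) ^ 2) := ⟨_, rfl⟩
    have hz := sum_zero hp5 hsK ht0 huK (hstp _ hsK) h51
    have hT : (p : ℤ_[p]) ∣ T3 p c := by
      apply padic_phi K
      show φ (T3 p c) = 0
      rw [T3_eq, map_sum, ← hz]
      apply Finset.sum_congr rfl
      intro k _
      rw [map_mul, map_pow, map_intCast, hc]
      simp only [map_mul, map_add, map_pow, map_ofNat]
    have h2 : (p : ℤ_[p]) ^ 2 ∣ T3 p c ^ 2 - ((0 : ℤ) : ℤ_[p]) := by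
      rw [Int.cast_zero, sub_zero]
      exact pow_dvd_pow_of_dvd hT 2
    have h4 := split_final (mi := mi) ?_ h2
    · rw [Int.cast_zero, sub_zero] at h4; exact h4
    · obtain ⟨q, hq⟩ : ∃ q : ℤ_[p], q = 24 * (v ^ 2) ^ 2 := ⟨_, rfl⟩
      rw [← hq] at h864 hc
      have h1 : -1728 * (c * (1 - 27 * c)) = 1 := by
        rw [hc]
        linear_combination (33 * 864 * q + 1 + 8 * s * 864 * q) * h864 + (746496 * q ^ 2) * hs
      linear_combination mi * h1 - (c * (1 - 27 * c)) * hmi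
  · -- `17` is not a residue
    have hl17 : legendreSym p 17 = -1 := (legendreSym.eq_neg_one_iff p).2 hsq
    obtain ⟨s, hs⟩ : ∃ s : K, s ^ 2 = 17 := IsAlgClosed.exists_pow_nat_eq _ (by norm_num)
    have hs' : s ^ 2 = ((17 : ℤ) : K) := by rw [hs]; push_cast; rfl
    have hsn : s ^ p ≠ s := frob_ne hp2 hl17 hs'
    have hz := sum_zero hp5 hs ht0 huK (hstp _ hs) h51
    have hu : s * s = φ 17 + φ 0 * s := by
      rw [map_ofNat, map_zero]; linear_combination hs
    refine descent φ (padic_phi K) hu (padic_phi_frob K) hsn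
      (⟨16 * (24 * (v ^ 2) ^ 2), 4 * (24 * (v ^ 2) ^ 2)⟩) mi ?_ ?_
    · obtain ⟨q, hq⟩ : ∃ q : ℤ_[p], q = 24 * (v ^ 2) ^ 2 := ⟨_, rfl⟩
      rw [← hq] at h864 ⊢
      have n1728 : (-1728 : ℤ_[p]) ≠ 0 := by norm_num
      ext
      · simp only [QuadraticAlgebra.re_mul, QuadraticAlgebra.im_mul, QuadraticAlgebra.re_sub,
          QuadraticAlgebra.im_sub, QuadraticAlgebra.re_one, QuadraticAlgebra.im_one,
          QuadraticAlgebra.re_ofNat, QuadraticAlgebra.im_ofNat, QuadraticAlgebra.re_C]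
        apply mul_left_cancel₀ n1728
        rw [hmi]
        linear_combination (33 * 864 * q + 1) * h864
      · simp only [QuadraticAlgebra.re_mul, QuadraticAlgebra.im_mul, QuadraticAlgebra.re_sub,
          QuadraticAlgebra.im_sub, QuadraticAlgebra.re_one, QuadraticAlgebra.im_one,
          QuadraticAlgebra.re_ofNat, QuadraticAlgebra.im_ofNat, QuadraticAlgebra.im_C]
        linear_combination (-4 * q) * h864
    · have : qmap φ 17 0 s hu ⟨16 * (24 * (v ^ 2) ^ 2), 4 * (24 * (v ^ 2) ^ 2)⟩ =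
          (16 + 4 * s) * (24 * ((φ v) ^ 2) ^ 2) := by
        show φ (16 * (24 * (v ^ 2) ^ 2)) + φ (4 * (24 * (v ^ 2) ^ 2)) * s = _
        simp only [map_mul, map_pow, map_ofNat]
        ring
      rw [this]
      exact hz

end Pool.Agent.H35.Q51
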