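import Pool.Agent.H35.Q51.P2

/-!
The polynomial identities behind the isogenies, in an arbitrary commutative ring.
-/

set_option autoImplicit false
set_option linter.unusedSectionVars false
set_option linter.unusedSimpArgs false
set_option linter.unusedVariables false

namespace Pool.Agent.H35.Q51

variable {A : Type*} [CommRing A] {s t : A}

theorem mulE (hs : s ^ 2 = 17) (ht : t ^ 2 = -3) (z : A) {a b c : PL}
    (h : pz (psub (pmul a b) c) = true) : evL s t z c = evL s t z a * evL s t z b := by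
  have e := evL_pz s t z h
  rw [evL_psub, evL_pmul z hs ht] at e
  linear_combination -e

theorem eqE (z : A) {a c : PL} (h : pz (psub a c) = true) : evL s t z c = evL s t z a := by
  have e := evL_pz s t z h
  rw [evL_psub] at e
  linear_combination -e

theorem evF (hs : s ^ 2 = 17) (z : A) :
    evL s t z lF = z ^ 3 + 36 * z ^ 2 + 12 * (16 + 4 * s) * z + (16 + 4 * s) ^ 2 := by
  unfold lF
  simp only [evL, Z4.ev]
  push_cast
  linear_combination -16 * hs

theorem evN3 (hs : s ^ 2 = 17) (z : A) :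
    evL s t z lN3 = z ^ 3 + 48 * z ^ 2 + 24 * (16 + 4 * s) * z + 4 * (16 + 4 * s) ^ 2 := by
  unfold lN3
  simp only [evL, Z4.ev]
  push_cast
  linear_combination -64 * hs

theorem evM3 (hs : s ^ 2 = 17) (z : A) :
    evL s t z lM3 = z ^ 3 - 24 * (16 + 4 * s) * z - 8 * (16 + 4 * s) ^ 2 := by
  unfold lM3
  simp only [evL, Z4.ev]
  push_cast
  linear_combination 128 * hs

theorem cjN (z : A) : evL s t z lN5b = evL s (-t) z lN5 := by
  rw [eqE z c_N5b, evL_pcj]

theorem cjK (z : A) : evL s t z lK5b = evL s (-t) z lK5 := by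
  rw [eqE z c_K5b, evL_pcj]

section
variable (hs : s ^ 2 = 17) (ht : t ^ 2 = -3) (z : A)
include hs ht

theorem K2 : evL s t z lK5_2 = evL s t z lK5 ^ 2 := by rw [mulE hs ht z m_lK5_2]; ring
theorem K3 : evL s t z lK5_3 = evL s t z lK5 ^ 3 := by rw [mulE hs ht z m_lK5_3, K2 hs ht]; ring
theorem K4 : evL s t z lK5_4 = evL s t z lK5 ^ 4 := by rw [mulE hs ht z m_lK5_4, K2 hs ht]; ring
theorem K6 : evL s t z lK5_6 = evL s t z lK5 ^ 6 := by rw [mulE hs ht z m_lK5_6, K3 hs ht]; ring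
theorem N2 : evL s t z lN5_2 = evL s t z lN5 ^ 2 := by rw [mulE hs ht z m_lN5_2]; ring
theorem N3' : evL s t z lN5_3 = evL s t z lN5 ^ 3 := by rw [mulE hs ht z m_lN5_3, N2 hs ht]; ring

theorem id1 : 64 * (evL s t z lF * evL s t z lM5 ^ 2) = 64 * evL s t z lN5 ^ 3 +
    576 * evL s t z lN5 ^ 2 * evL s t z lK5 ^ 2 +
    48 * (16 - 4 * s) * evL s t z lN5 * evL s t z lK5 ^ 4 + (16 - 4 * s) ^ 2 * evL s t z lK5 ^ 6 := by
  have e1 := evL_pz s t z chk1
  rw [evL_psub, evL_pscal z hs ht, mulE hs ht z m_lFM, mulE hs ht z m_lM5_2, eqE z l_lR1] at e1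
  simp only [evL_padd, evL_pscal z hs ht, mulE hs ht z m_lN52K2, mulE hs ht z m_lN5K4,
    K2 hs ht, K4 hs ht, K6 hs ht, N2 hs ht, N3' hs ht, Z4.ev] at e1
  push_cast at e1
  linear_combination e1 - (16 * evL s t z lK5 ^ 6) * hs

theorem id2 : evL s t z (pder lN5) * evL s t z lK5 - 2 * (evL s t z lN5 * evL s t z (pder lK5)) =
    (t - s) * evL s t z lM5 := by
  have e1 := evL_pz s t z chk2
  simp only [evL_psub, evL_pscal z hs ht, evL_pmul z hs ht, Z4.ev] at e1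
  push_cast at e1
  linear_combination e1

theorem id3 : evL s t z lF * ((t * (evL s t z lM3 * evL s t z lK5 ^ 3) +
      72 * (z ^ 3 * evL s t z lM5)) ^ 2 * evL s (-t) z lK5 ^ 2) =
    (36 * z ^ 2 * evL s t z lK5 ^ 2 * evL s (-t) z lN5 +
      324 * z ^ 2 * evL s t z lK5 ^ 2 * evL s (-t) z lK5 ^ 2 -
      3 * evL s t z lN3 * evL s t z lK5 ^ 2 * evL s (-t) z lK5 ^ 2 +
      36 * z ^ 2 * evL s t z lN5 * evL s (-t) z lK5 ^ 2) *
      (evL s t z lN3 * evL s t z lK5 ^ 2 + 12 * z ^ 2 * evL s t z lN5) ^ 2 := by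
  have eH : evL s t z lH3 = evL s t z lN3 * evL s t z lK5 ^ 2 + 12 * z ^ 2 * evL s t z lN5 := by
    rw [eqE z l_lH3]
    simp only [evL_padd, evL_pscal z hs ht, mulE hs ht z m_lN3K2, K2 hs ht, Z4.ev, evL]
    push_cast
    ring
  have eI : evL s t z lI3 = t * (evL s t z lM3 * evL s t z lK5 ^ 3) + 72 * (z ^ 3 * evL s t z lM5) := by
    rw [eqE z l_lI3]
    simp only [evL_padd, evL_pscal z hs ht, mulE hs ht z m_lM3K3, K3 hs ht, Z4.ev, evL]
    push_cast
    ring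
  have eG : evL s t z lG3 = 36 * z ^ 2 * evL s t z lK5 ^ 2 * evL s (-t) z lN5 +
      324 * z ^ 2 * evL s t z lK5 ^ 2 * evL s (-t) z lK5 ^ 2 -
      3 * evL s t z lN3 * evL s t z lK5 ^ 2 * evL s (-t) z lK5 ^ 2 +
      36 * z ^ 2 * evL s t z lN5 * evL s (-t) z lK5 ^ 2 := by
    rw [eqE z l_lG3]
    simp only [evL_padd, evL_pscal z hs ht, mulE hs ht z m_lK2N5b, mulE hs ht z m_lK2Kb2,
      mulE hs ht z m_lN3K2Kb2, mulE hs ht z m_lN5Kb2, mulE hs ht z m_lK5b_2, K2 hs ht, cjN, cjK,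
      Z4.ev, evL]
    push_cast
    ring
  have e1 := mulE hs ht z chk3
  rw [mulE hs ht z m_lL3, mulE hs ht z m_lI3_2K, mulE hs ht z m_lI3_2, mulE hs ht z m_lH3_2,
    mulE hs ht z m_lK5b_2, cjK, eH, eI, eG] at e1
  linear_combination e1

theorem id4 : evL s t z lU5 * evL s t z lN5 + evL s t z lV5 * evL s t z lK5 = 110592 := by
  have e1 := evL_pz s t z chk4
  simp only [evL_psub, evL_padd, evL_pmul z hs ht, Z4.ev, evL] at e1
  push_cast at e1
  linear_combination e1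

theorem id6 : evL s t z lU13 * evL s t z lN13 + evL s t z lV13 * evL s t z lK13 =
    10820843684757504 := by
  have e1 := evL_pz s t z chk6
  simp only [evL_psub, evL_padd, evL_pmul z hs ht, Z4.ev, evL] at e1
  push_cast at e1
  linear_combination e1

/-- `64 N15` -/
theorem evN15 : evL s t z lN15 = 64 * evL s t z lN5 ^ 3 + 768 * evL s t z lN5 ^ 2 * evL s t z lK5 ^ 2 +
    96 * (16 - 4 * s) * evL s t z lN5 * evL s t z lK5 ^ 4 +
      4 * (16 - 4 * s) ^ 2 * evL s t z lK5 ^ 6 := by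
  rw [eqE z l_lN15]
  simp only [evL_padd, evL_pscal z hs ht, mulE hs ht z m_lN52K2, mulE hs ht z m_lN5K4,
    K2 hs ht, K4 hs ht, K6 hs ht, N2 hs ht, N3' hs ht, Z4.ev]
  push_cast
  linear_combination (-(64 * evL s t z lK5 ^ 6)) * hs

theorem evM15 : evL s t z lM15 = 64 * evL s t z lN5 ^ 3 -
    96 * (16 - 4 * s) * evL s t z lN5 * evL s t z lK5 ^ 4 -
      8 * (16 - 4 * s) ^ 2 * evL s t z lK5 ^ 6 := by
  rw [eqE z l_lM15]
  simp only [evL_padd, evL_pscal z hs ht, mulE hs ht z m_lN52K2, mulE hs ht z m_lN5K4,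
    K2 hs ht, K4 hs ht, K6 hs ht, N2 hs ht, N3' hs ht, Z4.ev]
  push_cast
  linear_combination ((128 * evL s t z lK5 ^ 6)) * hs

theorem id5 : evL s t z lF * ((576 * (evL s t z lK5 ^ 3 * evL s t z lN5 ^ 3) -
      8 * t * (evL s t z lM5 * evL s t z lM15)) ^ 2 * evL s t z lK13 ^ 2) =
    3 * (192 * evL s t z lN13 * evL s t z lN5 ^ 2 * evL s t z lK5 ^ 2 +
      48 * (36 + z) * evL s t z lN5 ^ 2 * evL s t z lK5 ^ 2 * evL s t z lK13 ^ 2 -
      evL s t z lN15 * evL s t z lK13 ^ 2) *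
      (48 * z * evL s t z lN5 ^ 2 * evL s t z lK5 ^ 2 + evL s t z lN15) ^ 2 := by
  have eH : evL s t z lH5 = 48 * z * evL s t z lN5 ^ 2 * evL s t z lK5 ^ 2 + evL s t z lN15 := by
    rw [eqE z l_lH5]
    simp only [evL_padd, evL_pscal z hs ht, mulE hs ht z m_lN52K2, N2 hs ht, K2 hs ht, Z4.ev, evL]
    push_cast
    ring
  have eI : evL s t z lI5 = 576 * (evL s t z lK5 ^ 3 * evL s t z lN5 ^ 3) -
      8 * t * (evL s t z lM5 * evL s t z lM15) := by
    rw [eqE z l_lI5]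
    simp only [evL_padd, evL_pscal z hs ht, mulE hs ht z m_lK3N3, mulE hs ht z m_lMM, K3 hs ht,
      N3' hs ht, Z4.ev, evL]
    push_cast
    ring
  have eG : evL s t z lG5 = 192 * evL s t z lN13 * evL s t z lN5 ^ 2 * evL s t z lK5 ^ 2 +
      48 * (36 + z) * evL s t z lN5 ^ 2 * evL s t z lK5 ^ 2 * evL s t z lK13 ^ 2 -
      evL s t z lN15 * evL s t z lK13 ^ 2 := by
    rw [eqE z l_lG5]
    simp only [evL_padd, evL_pscal z hs ht, mulE hs ht z m_lN13Q, mulE hs ht z m_lQK,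
      mulE hs ht z m_lN15K, mulE hs ht z m_lN52K2, mulE hs ht z m_lK13_2, K2 hs ht, N2 hs ht,
      Z4.ev, evL]
    push_cast
    ring
  have e1 := evL_pz s t z chk5
  rw [evL_psub, evL_pscal z hs ht, mulE hs ht z m_lL5, mulE hs ht z m_lGH5, mulE hs ht z m_lI5_2K,
    mulE hs ht z m_lI5_2, mulE hs ht z m_lH5_2, mulE hs ht z m_lK13_2, eH, eI, eG] at e1
  unfold Z4.ev at e1
  push_cast at e1
  linear_combination e1

end

end Pool.Agent.H35.Q51
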