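import Pool.Agent.H35.Q51.L6
import Pool.Agent.H35.Q51.P3

/-!
Points: the isogenies of degree three and five.
-/

set_option autoImplicit false
set_option linter.unusedSectionVars false
set_option linter.unusedSimpArgs false
set_option linter.unusedVariables false

namespace Pool.Agent.H35.Q51

open WeierstrassCurve Polynomial
open Pool.Agent.H475R2 (EW Rep XR Om Dn dsc fx dfx eq_of_nonsing nonsing_iff add_ne neg_some'
  coprime_X_sub_C)

section nz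

variable {R : Type*} [CommRing R] [IsDomain R] [CharZero R] {s t : R}

theorem ev_ne (hs : s ^ 2 = 17) (ht : t ^ 2 = -3) {q q' : Z4} {n : ℤ}
    (h : Z4.isz (Z4.add (Z4.mul q q') ⟨-n, 0, 0, 0⟩) = true) (hn : n ≠ 0) : q.ev s t ≠ 0 := by
  intro h0
  have e := Z4.ev_isz s t h
  rw [Z4.ev_add, Z4.ev_mul hs ht, h0] at e
  unfold Z4.ev at e
  push_cast at e
  apply hn
  have : (n : R) = 0 := by linear_combination -e
  exact_mod_cast this

theorem PX_ne (hs : s ^ 2 = 17) (ht : t ^ 2 = -3) {l : PL} (k : ℕ) (q' : Z4) (n : ℤ)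
    (h : Z4.isz (Z4.add (Z4.mul (l.getD k ⟨0, 0, 0, 0⟩) q') ⟨-n, 0, 0, 0⟩) = true) (hn : n ≠ 0) :
    PX s t l ≠ 0 := by
  intro h0
  have e := PX_coeff s t l k
  rw [h0, coeff_zero] at e
  exact ev_ne hs ht h hn e.symm

theorem ι_ne {L : Type*} [Field L] {ι : R[X] →+* L} (hι : Function.Injective ι)
    (hs : s ^ 2 = 17) (ht : t ^ 2 = -3) {l : PL} (k : ℕ) (q' : Z4) (n : ℤ)
    (h : Z4.isz (Z4.add (Z4.mul (l.getD k ⟨0, 0, 0, 0⟩) q') ⟨-n, 0, 0, 0⟩) = true) (hn : n ≠ 0) :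
    evL (ι (C s)) (ι (C t)) (ι X) l ≠ 0 := by
  rw [← ι_PX, Ne, map_eq_zero_iff ι hι]
  exact PX_ne hs ht k q' n h hn

end nz

section field

variable {L : Type*} [Field L] [DecidableEq L]

/-- A criterion for the value of the differential. -/
theorem om_of_x {a b c : L} {d : L → L} (hd : Dn a b c d) (h2 : (2 : L) ≠ 0) {x y w : L}
    (h : (EW a b c).Nonsingular x y) (hy : y ≠ 0) (hx : d x = 2 * y * w) :
    Om d w (Affine.Point.some x y h : (EW a b c).Point) := by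
  refine ⟨hx, ?_⟩
  have e1 := congrArg d (eq_of_nonsing h)
  rw [hd.sq, hd.fxd, hx] at e1
  apply mul_left_cancel₀ (mul_ne_zero h2 hy)
  linear_combination e1

/-- The isogeny of degree three, at an arbitrary point. -/
theorem phi3 (h2 : (2 : L) ≠ 0) (h3 : (3 : L) ≠ 0) {A B G A' B' G' β β' t x y : L}
    (hA : A = 36) (hB : B = 12 * β) (hG : G = β ^ 2)
    (hββ : β' = 32 - β)
    (hA' : A' = 36) (hB' : B' = 12 * β') (hG' : G' = β' ^ 2) (ht : t ^ 2 = -3)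
    (hx : x ≠ 0) (hm : x ^ 3 - 24 * β * x - 8 * β ^ 2 ≠ 0) (hy0 : y ≠ 0)
    (h : (EW A B G).Nonsingular x y) :
    ∃ (x' y' : L) (h' : (EW A' B' G').Nonsingular x' y'),
      3 * x ^ 2 * x' = -(x ^ 3 + 48 * x ^ 2 + 24 * β * x + 4 * β ^ 2) ∧
      9 * x ^ 3 * y' = t * y * (x ^ 3 - 24 * β * x - 8 * β ^ 2) ∧ y' ≠ 0 ∧
      (∀ (d : L → L) (w : L), Dn A' B' G' d → d β = 0 → d t = 0 → d x = 2 * y * w →
        Om d (t * w) (Affine.Point.some x' y' h' : (EW A' B' G').Point)) := by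
  have t0 : t ≠ 0 := by
    rintro rfl
    apply h3
    linear_combination ht
  have h3x : 3 * x ^ 2 ≠ 0 := mul_ne_zero h3 (pow_ne_zero 2 hx)
  have h9x : 9 * x ^ 3 ≠ 0 := by
    have : (9 : L) = 3 * 3 := by norm_num
    rw [this]
    exact mul_ne_zero (mul_ne_zero h3 h3) (pow_ne_zero 3 hx)
  obtain ⟨x', hx'⟩ : ∃ x', 3 * x ^ 2 * x' = -(x ^ 3 + 48 * x ^ 2 + 24 * β * x + 4 * β ^ 2) :=
    ⟨-(x ^ 3 + 48 * x ^ 2 + 24 * β * x + 4 * β ^ 2) / (3 * x ^ 2), by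
      rw [mul_div_cancel₀]; exact h3x⟩
  obtain ⟨y', hy'⟩ : ∃ y', 9 * x ^ 3 * y' = t * y * (x ^ 3 - 24 * β * x - 8 * β ^ 2) :=
    ⟨t * y * (x ^ 3 - 24 * β * x - 8 * β ^ 2) / (9 * x ^ 3), by
      rw [mul_div_cancel₀]; exact h9x⟩
  have f1 := eq_of_nonsing h
  unfold fx at f1
  rw [hA, hB, hG] at f1
  have hcurve : y' ^ 2 = fx A' B' G' x' := by
    have h81 : (9 * x ^ 3) ^ 2 ≠ 0 := pow_ne_zero 2 h9x
    apply mul_left_cancel₀ h81
    unfold fx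
    rw [hA', hB', hG', hββ]
    have e1 : (9 * x ^ 3) ^ 2 * y' ^ 2 = t ^ 2 * y ^ 2 * (x ^ 3 - 24 * β * x - 8 * β ^ 2) ^ 2 := by
      rw [← mul_pow, hy']; ring
    rw [e1, ht, f1]
    have e2 : (9 * x ^ 3) ^ 2 * (x' ^ 3 + 36 * x' ^ 2 + 12 * (32 - β) * x' + (32 - β) ^ 2) =
        3 * (3 * x ^ 2 * x') ^ 3 + 324 * x ^ 2 * (3 * x ^ 2 * x') ^ 2 +
          324 * (32 - β) * x ^ 4 * (3 * x ^ 2 * x') + 81 * (32 - β) ^ 2 * x ^ 6 := by ring
    rw [e2, hx']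
    ring
  have hy'0 : y' ≠ 0 := by
    rintro rfl
    rw [mul_zero] at hy'
    exact mul_ne_zero (mul_ne_zero t0 hy0) hm hy'.symm
  have hns : (EW A' B' G').Nonsingular x' y' := (nonsing_iff h2 _ _).2 ⟨hcurve, Or.inl hy'0⟩
  refine ⟨x', y', hns, hx', hy', hy'0, ?_⟩
  intro d w hd dβ dt hdx
  apply om_of_x hd h2 hns hy'0
  have d4 : d 4 = 0 := by
    rw [show (4 : L) = 2 + 2 by norm_num, hd.add, hd.two]; ring
  have d24 : d 24 = 0 := by
    rw [show (24 : L) = 2 * (3 * 4) by norm_num, hd.mul, hd.mul, hd.two, hd.three, d4]; ring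
  have d48 : d 48 = 0 := by
    rw [show (48 : L) = 2 * 24 by norm_num, hd.mul, hd.two, d24]; ring
  have e3 := congrArg d hx'
  rw [hd.mul, hd.mul, hd.three, hd.sq, hd.neg, hd.add, hd.add, hd.add, hd.cub, hd.mul 48, d48, hd.sq,
    hd.mul, hd.mul 24, d24, dβ, hd.mul 4, d4, hd.sq, dβ] at e3
  have hx3 : 3 * x ^ 3 ≠ 0 := mul_ne_zero h3 (pow_ne_zero 3 hx)
  apply mul_left_cancel₀ (mul_ne_zero h3 hx3)
  rw [hdx] at e3
  linear_combination (3 * x) * e3 - (12 * y * w) * hx' - (2 * t * w) * hy' -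
    2 * w * y * (x ^ 3 - 24 * β * x - 8 * β ^ 2) * ht

/-- The isogeny of degree five, at the generic point. -/
theorem psi5 (h2 : (2 : L) ≠ 0) {A' B' G' s t z y μ : L} (hs : s ^ 2 = 17) (ht : t ^ 2 = -3)
    (hA' : A' = 36) (hB' : B' = 12 * (16 - 4 * s)) (hG' : G' = (16 - 4 * s) ^ 2)
    (hy : y ^ 2 = evL s t z lF) (hy0 : y ≠ 0) (hk : evL s t z lK5 ≠ 0) (hm : evL s t z lM5 ≠ 0)
    {d : L → L} (hd : Dn A' B' G' d) (dn : d (evL s t z lN5) = 2 * y * evL s t z (pder lN5))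
    (dk : d (evL s t z lK5) = 2 * y * evL s t z (pder lK5)) (hμ : 2 * μ = t - s) :
    ∃ (x' y' : L) (h' : (EW A' B' G').Nonsingular x' y'),
      x' * evL s t z lK5 ^ 2 = 4 * evL s t z lN5 ∧
      y' * evL s t z lK5 ^ 3 = 8 * y * evL s t z lM5 ∧ y' ≠ 0 ∧ d x' = 2 * y' * μ := by
  set n := evL s t z lN5 with hn
  set k := evL s t z lK5 with hk'
  set m := evL s t z lM5 with hm'
  have h8 : (8 : L) ≠ 0 := by
    rw [show (8 : L) = 2 ^ 3 by norm_num]; exact pow_ne_zero 3 h2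
  obtain ⟨x', hx'⟩ : ∃ x', x' * k ^ 2 = 4 * n := ⟨4 * n / k ^ 2, by field_simp⟩
  obtain ⟨y', hy'⟩ : ∃ y', y' * k ^ 3 = 8 * y * m := ⟨8 * y * m / k ^ 3, by field_simp⟩
  have hcurve : y' ^ 2 = fx A' B' G' x' := by
    have h6 : k ^ 6 ≠ 0 := pow_ne_zero 6 hk
    apply mul_right_cancel₀ h6
    unfold fx
    rw [hA', hB', hG']
    have e1 : y' ^ 2 * k ^ 6 = 64 * (y ^ 2 * m ^ 2) := by
      have : y' ^ 2 * k ^ 6 = (y' * k ^ 3) ^ 2 := by ring
      rw [this, hy']; ring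
    have e2 : (x' ^ 3 + 36 * x' ^ 2 + 12 * (16 - 4 * s) * x' + (16 - 4 * s) ^ 2) * k ^ 6 =
        (x' * k ^ 2) ^ 3 + 36 * (x' * k ^ 2) ^ 2 * k ^ 2 + 12 * (16 - 4 * s) * (x' * k ^ 2) * k ^ 4 +
          (16 - 4 * s) ^ 2 * k ^ 6 := by ring
    rw [e1, e2, hx', hy, id1 hs ht z]
    ring
  have hy'0 : y' ≠ 0 := by
    rintro rfl
    rw [zero_mul] at hy'
    exact mul_ne_zero (mul_ne_zero h8 hy0) hm hy'.symm
  have hns : (EW A' B' G').Nonsingular x' y' := (nonsing_iff h2 _ _).2 ⟨hcurve, Or.inl hy'0⟩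
  refine ⟨x', y', hns, hx', hy', hy'0, ?_⟩
  have d4 : d 4 = 0 := by
    rw [show (4 : L) = 2 + 2 by norm_num, hd.add, hd.two]; ring
  have e3 := congrArg d hx'
  rw [hd.mul, hd.sq, hd.mul, d4, dn, dk] at e3
  apply mul_left_cancel₀ (pow_ne_zero 3 hk)
  linear_combination k * e3 - (4 * y * evL s t z (pder lK5)) * hx' - (t - s) * hy' +
    (8 * y) * id2 hs ht z - (y' * k ^ 3) * hμ

end field

end Pool.Agent.H35.Q51
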