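import Pool.Agent.H35.Q51.G1
import Pool.Graph.R_pool_sql_team_seeded_f0cf7b00.H475R2.F3

/-!
The lattice of isogenies between the two conjugate curves.
-/

set_option autoImplicit false
set_option linter.unusedSectionVars false
set_option linter.unusedSimpArgs false
set_option linter.unusedVariables false

namespace Pool.Agent.H35.Q51

open WeierstrassCurve Polynomial
open Pool.Agent.H475R2 (EW Rep XR Om Dn dsc fx dfx eq_of_nonsing nonsing_iff add_ne neg_some'
  coprime_X_sub_C exists_ff dn_of zsmul_pm order3')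

section poly

variable {R : Type*} [CommRing R] {s t u : R}

theorem Csq {a b : R} (h : a ^ 2 = b) : (C a : R[X]) ^ 2 = C b := by rw [← C_pow, h]

theorem hsC (hs : s ^ 2 = 17) : (C s : R[X]) ^ 2 = 17 := by rw [Csq hs, map_ofNat]

theorem htC (ht : t ^ 2 = -3) : (C t : R[X]) ^ 2 = -3 := by rw [Csq ht, C_neg, map_ofNat]

theorem fz_eq (hs : s ^ 2 = 17) (t : R) : fz (16 + 4 * s) = PX s t lF := by
  unfold PX
  rw [evF (hsC hs) X]
  unfold fz
  simp only [C_add, C_mul, C_pow, map_ofNat]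

theorem cop_of {N K U V : R[X]} {c ci : R} (hc : c * ci = 1) (h : U * N + V * K = C c) :
    IsCoprime N K := by
  refine ⟨C ci * U, C ci * V, ?_⟩
  have e : C c * C ci = 1 := by rw [← C_mul, hc, C_1]
  linear_combination C ci * h + e

theorem cop5 (hs : s ^ 2 = 17) (ht : t ^ 2 = -3) (hu : 144 * u = 1) :
    IsCoprime (PX s t lN5) (PX s t lK5) := by
  have e := id4 (hsC hs) (htC ht) (X : R[X])
  refine cop_of (U := PX s t lU5) (V := PX s t lV5) (c := 110592) (ci := 3888 * u ^ 4) ?_ ?_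
  · have h4 : (144 * u) ^ 4 = 1 := by rw [hu, one_pow]
    linear_combination h4
  · rw [map_ofNat]; exact e

theorem cop13 (hs : s ^ 2 = 17) (ht : t ^ 2 = -3) (hu : 144 * u = 1) :
    IsCoprime (PX s t lN13) (PX s t lK13) := by
  have e := id6 (hsC hs) (htC ht) (X : R[X])
  refine cop_of (U := PX s t lU13) (V := PX s t lV13) (c := 10820843684757504)
    (ci := 354294 * u ^ 10) ?_ ?_
  · have h4 : (144 * u) ^ 10 = 1 := by rw [hu, one_pow]
    linear_combination h4
  · rw [map_ofNat]; exact e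

end poly

section points

variable {R : Type*} [CommRing R] [IsDomain R] [CharZero R] {s t u : R}
variable {L : Type*} [Field L] [DecidableEq L] {ι : R[X] →+* L}

theorem degKsq (s t c : R) (l : PL) {n : ℕ} (h : l.length ≤ n + 1) :
    (C c * PX s t l ^ 2).natDegree ≤ 2 * n := by
  refine (natDegree_C_mul_le _ _).trans ?_
  refine natDegree_pow_le.trans ?_
  exact Nat.mul_le_mul_left 2 (PX_natDegree s t l h)

/-- representation of the isogeny of degree five -/
theorem rep5 (hι : Function.Injective ι) (hs : s ^ 2 = 17) (ht : t ^ 2 = -3) (hu : 144 * u = 1)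
    {A B G x' y' y0 : L} {h' : (EW A B G).Nonsingular x' y'} {h0 : (EW A B G).Nonsingular 0 y0}
    (hx : x' * evL (ι (C s)) (ι (C t)) (ι X) lK5 ^ 2 = 4 * evL (ι (C s)) (ι (C t)) (ι X) lN5) :
    Rep ι (Affine.Point.some x' y' h') (Affine.Point.some 0 y0 h0) 5 := by
  have u36 : IsUnit (36 * u) := IsUnit.of_mul_eq_one 4 (by linear_combination hu)
  have h4 : ι (C (36 * u)) * 4 = 1 := by
    have := congrArg (fun z => ι (C z)) hu
    simp only [C_mul, map_mul, map_ofNat, map_one] at this ⊢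
    linear_combination this
  refine ⟨PX s t lN5, C (36 * u) * PX s t lK5 ^ 2, PX_monic s t _ (n := 5) (by decide) rfl,
    PX_natDegree_eq s t _ (by decide) rfl, ?_, ?_, ?_, ?_⟩
  · exact lt_of_le_of_lt (degKsq s t _ _ (n := 2) (by decide)) (by norm_num)
  · exact (isCoprime_mul_unit_left_right (isUnit_C.2 u36) _ _).2 ((cop5 hs ht hu).pow_right)
  · show ι (PX s t lN5) = x' * ι (C (36 * u) * PX s t lK5 ^ 2)
    rw [map_mul, map_pow, ι_PX, ι_PX]
    linear_combination (-(ι (C (36 * u)))) * hx - (evL (ι (C s)) (ι (C t)) (ι X) lN5) * h4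
  · show ι (C (eval 0 (PX s t lN5))) = 0 * _
    unfold lN5
    rw [PX_eval_zero]
    simp [Z4.ev]

theorem rep3 (hι : Function.Injective ι) (hs : s ^ 2 = 17) (ht : t ^ 2 = -3) (hu : 144 * u = 1)
    {A B G x' y' : L} {h' : (EW A B G).Nonsingular x' y'}
    (hx : 3 * (ι X) ^ 2 * x' = -((ι X) ^ 3 + 48 * (ι X) ^ 2 + 24 * (16 + 4 * ι (C s)) * (ι X) +
      4 * (16 + 4 * ι (C s)) ^ 2)) :
    Rep ι (Affine.Point.some x' y' h' : (EW A B G).Point) 0 3 := by
  have u3 : IsUnit (-3 : R) := IsUnit.of_mul_eq_one (-(48 * u)) (by linear_combination hu)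
  have hs' : (ι (C s)) ^ 2 = 17 := by rw [← map_pow, hsC hs, map_ofNat]
  refine ⟨PX s t lN3, C (-3) * X ^ 2, PX_monic s t _ (n := 3) (by decide) rfl,
    PX_natDegree_eq s t _ (by decide) rfl, ?_, ?_, ?_, ?_⟩
  · exact lt_of_le_of_lt (natDegree_C_mul_X_pow_le _ _) (by decide)
  · refine (isCoprime_mul_unit_left_right (isUnit_C.2 u3) _ _).2 (IsCoprime.pow_right ?_)
    have c1 := coprime_X_sub_C (N := PX s t lN3) (a := 0) (by
      unfold lN3
      rw [PX_eval_zero]
      refine IsUnit.of_mul_eq_one ((2112 - 512 * s) * (104976 * u ^ 4)) ?_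
      have h4 : (144 * u) ^ 4 = 1 := by rw [hu, one_pow]
      unfold Z4.ev
      push_cast
      linear_combination h4 - (262144 * 104976 * u ^ 4) * hs)
    rwa [C_0, sub_zero] at c1
  · show ι (PX s t lN3) = x' * ι (C (-3) * X ^ 2)
    rw [ι_PX, evN3 hs', map_mul, map_pow, C_neg, map_neg, map_ofNat, map_ofNat]
    linear_combination hx
  · show ι (C (eval 0 (C (-3) * X ^ 2))) = 0
    simp

end points

end Pool.Agent.H35.Q51
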