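import Pool.Agent.H35.Q51.G2

/-!
The lattice of isogenies between the two conjugate curves: conclusion.
-/

set_option autoImplicit false
set_option linter.unusedSectionVars false
set_option linter.unusedSimpArgs false
set_option linter.unusedVariables false

namespace Pool.Agent.H35.Q51

open WeierstrassCurve Polynomial
open Pool.Agent.H475R2 (EW Rep XR Om Dn dsc fx dfx eq_of_nonsing nonsing_iff add_ne neg_some'
  coprime_X_sub_C exists_ff dn_of zsmul_pm order3')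

universe w

variable {R : Type w} [CommRing R] [IsDomain R] [CharZero R] {s t u : R}

theorem dsc_unit51 {S : Type*} [CommRing S] {s u : S} (hs : s ^ 2 = 17) (hu : 144 * u = 1) :
    IsUnit (dsc (C 36) (C (12 * (16 + 4 * s))) (C ((16 + 4 * s) ^ 2)) : S[X]) := by
  have h1 : dsc (C 36) (C (12 * (16 + 4 * s))) (C ((16 + 4 * s) ^ 2)) =
      C (16 * 27 * (16 + 4 * s) ^ 3 * (16 - 4 * s)) := by
    unfold dsc
    simp only [map_mul, map_pow, map_ofNat, map_sub, map_add]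
    ring
  rw [h1]
  apply isUnit_C.2
  have u3 : IsUnit (3 : S) := IsUnit.of_mul_eq_one (48 * u) (by linear_combination hu)
  have u2 : IsUnit (2 : S) := IsUnit.of_mul_eq_one (72 * u) (by linear_combination hu)
  have h4 : (144 * u) ^ 4 = 1 := by rw [hu, one_pow]
  have u16 : IsUnit (-16 : S) := IsUnit.of_mul_eq_one (-(9 * 144 ^ 1 * u ^ 2 * 144 * 0 + 9 * u)) (by
    linear_combination hu)
  have e1 : (16 + 4 * s) * (16 - 4 * s) = -16 := by linear_combination (-16) * hs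
  have e2 : 16 * 27 * (16 + 4 * s) ^ 3 * (16 - 4 * s) = 2 ^ 4 * 3 ^ 3 * (-16) * (16 + 4 * s) ^ 2 := by
    rw [← e1]; ring
  have ua : IsUnit (16 + 4 * s) := by
    rw [← e1] at u16
    exact isUnit_of_mul_isUnit_left u16
  rw [e2]
  exact (((u2.pow 4).mul (u3.pow 3)).mul (by rw [← e1]; rw [← e1] at u16; exact u16)).mul (ua.pow 2)

theorem hom_lattice (hs : s ^ 2 = 17) (ht : t ^ 2 = -3) (hu : 144 * u = 1) (i j : ℤ)
    (hij : i ≠ 0 ∨ j ≠ 0) :
    ∃ N D : R[X], N.Monic ∧ N.natDegree = (nf3 3 3 5 i j).toNat ∧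
      D.natDegree < (nf3 3 3 5 i j).toNat ∧ IsCoprime N D ∧
      fz (16 + 4 * s) * (derivative N * D - N * derivative D) ^ 2 =
        C (i * t + j * ((t - s) * (72 * u))) ^ 2 * D * fh (16 - 4 * s) N D ∧
      (¬ (3 : ℤ) ∣ j → N.eval 0 = 0) := by
  classical
  obtain ⟨L, iL, ι, y, d, hι, hy, h1, h2, h3, h4⟩ := exists_ff (36 : R) (12 * (16 + 4 * s))
    ((16 + 4 * s) ^ 2)
  have h20 : (2 : L) ≠ 0 := by
    have : ι (C (2 : R)) ≠ 0 := by
      rw [Ne, map_eq_zero_iff ι hι]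
      exact C_ne_zero.2 two_ne_zero
    rwa [map_ofNat, map_ofNat] at this
  have h30 : (3 : L) ≠ 0 := by
    have : ι (C (3 : R)) ≠ 0 := by
      rw [Ne, map_eq_zero_iff ι hι]
      exact C_ne_zero.2 (by norm_num)
    rwa [map_ofNat, map_ofNat] at this
  have h2u : 2 * (72 * u) = 1 := by linear_combination hu
  have hfz : X ^ 3 + C (36 : R) * X ^ 2 + C (12 * (16 + 4 * s)) * X + C ((16 + 4 * s) ^ 2) =
    fz (16 + 4 * s) := rfl
  rw [hfz, fz_eq hs t, ι_PX] at hy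
  set S : L := ι (C s) with hS
  set T : L := ι (C t) with hT
  set z : L := ι X with hz
  have hs' : S ^ 2 = 17 := by rw [hS, ← map_pow, hsC hs, map_ofNat]
  have ht' : T ^ 2 = -3 := by rw [hT, ← map_pow, htC ht, map_neg, map_ofNat]
  have htn : (-t) ^ 2 = -3 := by rw [neg_sq, ht]
  have hTn : ι (C (-t)) = -T := by rw [C_neg, map_neg]
  have hF0 : evL S T z lF ≠ 0 := ι_ne hι hs ht 3 ⟨1, 0, 0, 0⟩ 1 (by decide +kernel) (by norm_num)
  have hy0 : y ≠ 0 := by
    intro h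
    rw [h] at hy
    exact hF0 (by rw [← hy]; ring)
  have hz0 : z ≠ 0 := by rw [hz, Ne, map_eq_zero_iff ι hι]; exact X_ne_zero
  have hk0 : evL S T z lK5 ≠ 0 := ι_ne hι hs ht 2 ⟨0, -20, -20, 0⟩ 400 (by decide +kernel) (by norm_num)
  have hm0 : evL S T z lM5 ≠ 0 := ι_ne hι hs ht 6 ⟨1, 0, 0, 0⟩ 1 (by decide +kernel) (by norm_num)
  have hm3 : evL S T z lM3 ≠ 0 := ι_ne hι hs ht 3 ⟨1, 0, 0, 0⟩ 1 (by decide +kernel) (by norm_num)
  have hH3 : evL S T z lH3 ≠ 0 := ι_ne hι hs ht 7 ⟨22880, 0, 0, 1760⟩ 774400 (by decide +kernel)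
    (by norm_num)
  have hkb0 : evL S (-T) z lK5 ≠ 0 := by
    rw [← hTn]
    exact ι_ne hι hs htn 2 ⟨0, -20, -20, 0⟩ 400 (by decide +kernel) (by norm_num)
  rw [evM3 hs'] at hm3
  set A' : L := ι (C (36 : R)) with hA'
  set B' : L := ι (C (12 * (16 - 4 * s))) with hB'
  set G' : L := ι (C ((16 - 4 * s) ^ 2)) with hG'
  have hA'e : A' = 36 := by rw [hA', map_ofNat, map_ofNat]
  have hB'e : B' = 12 * (16 - 4 * S) := by
    rw [hB', hS]; simp only [C_mul, C_sub, map_mul, map_sub, map_ofNat]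
  have hG'e : G' = (16 - 4 * S) ^ 2 := by
    rw [hG', hS]; simp only [C_mul, C_sub, C_pow, map_mul, map_sub, map_ofNat, map_pow]
  have hBe : ι (C (12 * (16 + 4 * s))) = 12 * (16 + 4 * S) := by
    rw [hS]; simp only [C_mul, C_add, map_mul, map_add, map_ofNat]
  have hGe : ι (C ((16 + 4 * s) ^ 2)) = (16 + 4 * S) ^ 2 := by
    rw [hS]; simp only [C_mul, C_add, C_pow, map_mul, map_add, map_ofNat, map_pow]
  have hd : Dn A' B' G' d := dn_of h1 h2 h3
  have dC : ∀ r : R, d (ι (C r)) = 0 := by intro r; rw [h3]; simp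
  -- the generic point
  have hyf : y ^ 2 = z ^ 3 + 36 * z ^ 2 + 12 * (16 + 4 * S) * z + (16 + 4 * S) ^ 2 := by
    rw [hy, evF hs']
  have hGs : (EW (36 : L) (12 * (16 + 4 * S)) ((16 + 4 * S) ^ 2)).Nonsingular z y :=
    (nonsing_iff h20 _ _).2 ⟨by rw [hyf]; rfl, Or.inl hy0⟩
  obtain ⟨x3, y3, hn3, ex3, ey3, y30, om3⟩ := phi3 (A' := A') (B' := B') (G' := G')
    (β := 16 + 4 * S) (β' := 16 - 4 * S) (t := T) h20 h30 rfl rfl rfl (by ring) hA'e hB'e hG'e ht'
    hz0 hm3 hy0 hGs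
  have dz : d z = 2 * y * 1 := by rw [hz, h3]; simp
  have dβ : d (16 + 4 * S) = 0 := by
    have : (16 + 4 * S : L) = ι (C (16 + 4 * s)) := by
      rw [hS]; simp only [C_mul, C_add, map_mul, map_add, map_ofNat]
    rw [this, dC]
  have hom3 : Om d (ι (C t)) (Affine.Point.some x3 y3 hn3 : (EW A' B' G').Point) := by
    have := om3 d 1 hd dβ (dC t) dz
    rwa [mul_one] at this
  have dn5 : d (evL S T z lN5) = 2 * y * evL S T z (pder lN5) := by
    rw [hS, hT, hz, ← ι_PX, h3, PX_der, ι_PX]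
  have dk5 : d (evL S T z lK5) = 2 * y * evL S T z (pder lK5) := by
    rw [hS, hT, hz, ← ι_PX, h3, PX_der, ι_PX]
  have hμ : 2 * ι (C ((t - s) * (72 * u))) = T - S := by
    have e := congrArg (fun r => ι (C r)) (show 2 * ((t - s) * (72 * u)) = t - s by
      linear_combination (t - s) * h2u)
    simp only [C_mul (a := (2 : R)), map_mul ι, map_ofNat, C_sub, map_sub] at e
    rw [e]
  obtain ⟨x5, y5, hn5, ex5, ey5, y50, om5'⟩ := psi5 (μ := ι (C ((t - s) * (72 * u)))) h20 hs' ht' hA'e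
    hB'e hG'e hy hy0 hk0 hm0 hd dn5 dk5 hμ
  have hom5 : Om d (ι (C ((t - s) * (72 * u)))) (Affine.Point.some x5 y5 hn5 : (EW A' B' G').Point) :=
    om_of_x hd h20 hn5 y50 om5'
  -- the marked point
  have e16 : (16 + 4 * s) * (16 - 4 * s) = -16 := by linear_combination (-16) * hs
  have hβ'0 : (16 - 4 * s) ≠ 0 := by
    intro h
    rw [h, mul_zero] at e16
    norm_num at e16
  have hY0 : (16 - 4 * S : L) ≠ 0 := by
    have : (16 - 4 * S : L) = ι (C (16 - 4 * s)) := by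
      rw [hS]; simp only [C_mul, C_sub, map_mul, map_sub, map_ofNat]
    rw [this, Ne, map_eq_zero_iff ι hι]
    exact C_ne_zero.2 hβ'0
  have hM0 : (EW A' B' G').Nonsingular 0 (16 - 4 * S) :=
    (nonsing_iff h20 _ _).2 ⟨by unfold fx; rw [hG'e]; ring, Or.inl hY0⟩
  have hM3 : (3 : ℤ) • (Affine.Point.some 0 (16 - 4 * S) hM0 : (EW A' B' G').Point) = 0 :=
    order3' (l := 6) h20 hY0 (by unfold dfx; rw [hB'e]; ring) (by rw [hA'e]; ring) hM0
  -- representations
  have R3 : Rep ι (Affine.Point.some x3 y3 hn3 : (EW A' B' G').Point) 0 (3 : ℤ).toNat :=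
    rep3 hι hs ht hu ex3
  have R5 : Rep ι (Affine.Point.some x5 y5 hn5 : (EW A' B' G').Point)
      (Affine.Point.some 0 (16 - 4 * S) hM0) (5 : ℤ).toNat := rep5 hι hs ht hu ex5
  have R5b : Rep ι ((Affine.Point.some x3 y3 hn3 : (EW A' B' G').Point) - Affine.Point.some x5 y5 hn5)
      (0 - Affine.Point.some 0 (16 - 4 * S) hM0) (nf3 3 3 5 1 (-1)).toNat := by
    obtain ⟨h', en⟩ := neg_some' hn5
    have hxne : x3 ≠ x5 := by
      intro hx
      apply hH3
      rw [eqE z l_lH3]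
      simp only [evL_padd, evL_pscal z hs' ht', mulE hs' ht' z m_lN3K2, K2 hs' ht', Z4.ev, evL]
      push_cast
      rw [evN3 hs']
      rw [hx] at ex3
      linear_combination ((evL S T z lK5 ^ 2)) * ex3 - (3 * z ^ 2) * ex5
    obtain ⟨X3, Y3, l, hh3, e3, hl, hX3, -⟩ := add_ne hn3 h' hxne
    obtain ⟨h0', en0⟩ := neg_some' hM0
    rw [sub_eq_add_neg, en, e3, zero_sub, en0]
    have h5 : (nf3 3 3 5 1 (-1)).toNat = 5 := by decide
    rw [h5]
    refine rep5 (t := -t) hι hs htn hu ?_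
    rw [hTn]
    -- the formula
    have id := id3 hs' ht' z
    have eH : evL S T z lN3 * evL S T z lK5 ^ 2 + 12 * z ^ 2 * evL S T z lN5 =
        -(3 * z ^ 2 * evL S T z lK5 ^ 2) * (x3 - x5) := by
      rw [evN3 hs']
      linear_combination (evL S T z lK5 ^ 2) * ex3 - (3 * z ^ 2) * ex5
    have eI : y * (T * (evL S T z lM3 * evL S T z lK5 ^ 3) + 72 * (z ^ 3 * evL S T z lM5)) =
        9 * z ^ 3 * evL S T z lK5 ^ 3 * (y3 + y5) := by
      rw [evM3 hs']
      linear_combination (-(evL S T z lK5 ^ 3)) * ey3 - (9 * z ^ 3) * ey5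
    have hl' : l * (x3 - x5) = y3 + y5 := by rw [hl]; ring
    rw [← hy] at id
    have q1 : y ^ 2 * ((T * (evL S T z lM3 * evL S T z lK5 ^ 3) + 72 * (z ^ 3 * evL S T z lM5)) ^ 2 *
        evL S (-T) z lK5 ^ 2) = (9 * z ^ 3 * evL S T z lK5 ^ 3 * (l * (x3 - x5))) ^ 2 *
          evL S (-T) z lK5 ^ 2 := by
      rw [hl', ← eI]; ring
    rw [q1, eH] at id
    have hne : 9 * z ^ 4 * evL S T z lK5 ^ 4 * (x3 - x5) ^ 2 ≠ 0 := by
      have h9 : (9 : L) ≠ 0 := by
        rw [show (9 : L) = 3 * 3 by norm_num]; exact mul_ne_zero h30 h30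
      exact mul_ne_zero (mul_ne_zero (mul_ne_zero h9 (pow_ne_zero _ hz0)) (pow_ne_zero _ hk0))
        (pow_ne_zero _ (sub_ne_zero.2 hxne))
    have q2 : 9 * z ^ 2 * evL S T z lK5 ^ 2 * l ^ 2 * evL S (-T) z lK5 ^ 2 =
        36 * z ^ 2 * evL S T z lK5 ^ 2 * evL S (-T) z lN5 +
        324 * z ^ 2 * evL S T z lK5 ^ 2 * evL S (-T) z lK5 ^ 2 -
        3 * evL S T z lN3 * evL S T z lK5 ^ 2 * evL S (-T) z lK5 ^ 2 +
        36 * z ^ 2 * evL S T z lN5 * evL S (-T) z lK5 ^ 2 := by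
      apply mul_left_cancel₀ hne
      linear_combination id
    have h9k : 9 * z ^ 2 * evL S T z lK5 ^ 2 ≠ 0 := by
      have h9 : (9 : L) ≠ 0 := by
        rw [show (9 : L) = 3 * 3 by norm_num]; exact mul_ne_zero h30 h30
      exact mul_ne_zero (mul_ne_zero h9 (pow_ne_zero _ hz0)) (pow_ne_zero _ hk0)
    apply mul_left_cancel₀ h9k
    rw [hX3, hA'e]
    rw [evN3 hs'] at q2
    linear_combination q2 - (3 * evL S T z lK5 ^ 2 * evL S (-T) z lK5 ^ 2) * ex3 -
      (9 * z ^ 2 * evL S (-T) z lK5 ^ 2) * ex5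
  -- the points do not vanish
  have ho : ∀ i j : ℤ, Om d (ι (C ((i : R) * t + j * ((t - s) * (72 * u)))))
      (i • (Affine.Point.some x3 y3 hn3 : (EW A' B' G').Point) + j • Affine.Point.some x5 y5 hn5) := by
    intro i j
    have e : ι (C ((i : R) * t + j * ((t - s) * (72 * u)))) =
      (i : L) * ι (C t) + (j : L) * ι (C ((t - s) * (72 * u))) := by
      rw [C_add, C_mul (a := (i : R)), C_mul (a := (j : R)), map_add, map_mul ι (C (i : R)),
        map_mul ι (C (j : R))]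
      simp
    rw [e]
    exact Om.add h20 hd (Om.zsmul h20 hd hom3 i) (Om.zsmul h20 hd hom5 j)
  have hα : ∀ i j : ℤ, (i ≠ 0 ∨ j ≠ 0) → (i : R) * t + j * ((t - s) * (72 * u)) ≠ 0 := by
    intro i j hij h0
    have h5 : ((nf3 3 3 5 i j : ℤ) : R) = 0 := by
      unfold nf3
      push_cast
      linear_combination (-(i * t + j * ((t + s) * (72 * u)))) * h0 +
        ((i : R) ^ 2 + i * j * (144 * u) + j ^ 2 * (72 * u) ^ 2) * ht - (j ^ 2 * (72 * u) ^ 2) * hs -
        (3 * i * j) * hu - (5 * j ^ 2 * (144 * u + 1)) * hu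
    have h6 := nf3_pos (a := 3) (t := 3) (n := 5) (by norm_num) (by norm_num) hij
    have h7 : nf3 3 3 5 i j = 0 := by exact_mod_cast h5
    omega
  have hnz : ∀ i j : ℤ, (i ≠ 0 ∨ j ≠ 0) →
      i • (Affine.Point.some x3 y3 hn3 : (EW A' B' G').Point) + j • Affine.Point.some x5 y5 hn5 ≠ 0 := by
    intro i j hij h0
    have := ho i j
    rw [h0] at this
    have h' : ι (C ((i : R) * t + j * ((t - s) * (72 * u)))) = 0 := this
    have h'' : C ((i : R) * t + j * ((t - s) * (72 * u))) = 0 := by apply hι; rw [h', map_zero]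
    exact hα i j hij (C_eq_zero.1 h'')
  have hΔ : IsUnit (dsc (C 36) (C (12 * (16 - 4 * s))) (C ((16 - 4 * s) ^ 2)) : R[X]) := by
    have := dsc_unit51 (s := -s) (by rw [neg_sq, hs]) hu
    have e : (16 + 4 * -s) = 16 - 4 * s := by ring
    rwa [e] at this
  obtain ⟨N, D, mN, dN, dD, cc, x1, x2⟩ := lattice2 hι h20 hΔ (a := 3) (t := 3) (n := 5) (by norm_num)
    (by norm_num) R3 R5 R5b hnz i j hij
  refine ⟨N, D, mN, dN, dD, cc, ?_, ?_⟩
  · have hy2 : y ^ 2 = ι (fz (16 + 4 * s)) := by rw [fz_eq hs t, ι_PX, ← hS, ← hT, ← hz, hy]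
    exact ode_of_rep2 hι h20 hy2 h1 h2 h3 x1 (hnz i j hij) (ho i j)
  · intro h3j
    rw [smul_zero, zero_add] at x2
    have e : ι (C (N.eval 0)) = 0 := by
      rcases zsmul_pm hM3 h3j with h | h
      · rw [h] at x2
        have : ι (C (N.eval 0)) = 0 * ι (C (D.eval 0)) := x2
        rw [this, zero_mul]
      · rw [h] at x2
        have hx' := x2.neg
        rw [neg_neg] at hx'
        have : ι (C (N.eval 0)) = 0 * ι (C (D.eval 0)) := hx'
        rw [this, zero_mul]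
    rw [map_eq_zero_iff ι hι] at e
    exact C_eq_zero.1 e

end Pool.Agent.H35.Q51
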