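import Pool.Graph.R_pool_sql_team_seeded_f0cf7b00.H475R2.Fin

/-!
Reduction of a lift of Frobenius modulo `p`, over an unramified extension, for a map between two curves
`y^2 = x^3 + (6 x + β)^2` and `y^2 = x^3 + (6 x + β')^2`.
-/

set_option autoImplicit false
set_option linter.unusedSectionVars false
set_option linter.unusedSimpArgs false
set_option linter.unusedVariables false

namespace Pool.Agent.H35.Q51

open Polynomial

/-- A reduction map to a perfect field of characteristic `p`. -/
structure Red (p : ℕ) (R : Type*) (K : Type*) [CommRing R] [Field K] where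
  r : R →+* K
  ker : ∀ x, r x = 0 ↔ (p : R) ∣ x
  un : ∀ x, r x ≠ 0 → IsUnit x
  fr : ∀ x : K, ∃ y : K, y ^ p = x

variable {p : ℕ} [hp : Fact p.Prime] {R : Type*} [CommRing R] [IsDomain R] [CharZero R]
  {K : Type*} [Field K] [hK : CharP K p]

theorem map_red_eq_zero (rd : Red p R K) (F : R[X]) :
    F.map rd.r = 0 ↔ ∃ M : R[X], F = C (p : R) * M := by
  constructor
  · intro h
    have : C (p : R) ∣ F := by
      rw [C_dvd_iff_dvd_coeff]
      intro i
      rw [← rd.ker, ← coeff_map, h, coeff_zero]
    exact this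
  · rintro ⟨M, rfl⟩
    rw [Polynomial.map_mul, map_C]
    have : rd.r (p : R) = 0 := (rd.ker _).2 dvd_rfl
    rw [this, C_0, zero_mul]

/-- In characteristic `p`, a polynomial with zero derivative and degree less than `p` is constant. -/
theorem const_of_deriv {f : K[X]} (h : derivative f = 0) (hd : f.natDegree < p) :
    ∃ a, f = C a := by
  have e := expand_contract p h (hp.out.ne_zero)
  have hn : f.natDegree = 0 := by
    have h1 : f.natDegree = (contract p f).natDegree * p := by
      conv_lhs => rw [← e]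
      exact natDegree_expand p _
    rcases Nat.eq_zero_or_pos (contract p f).natDegree with h0 | h0
    · rw [h1, h0, zero_mul]
    · have := Nat.le_mul_of_pos_left p h0
      omega
  exact ⟨f.coeff 0, eq_C_of_natDegree_eq_zero hn⟩

theorem xp_of_deriv {f : K[X]} (h : derivative f = 0) (hm : f.Monic) (hd : f.natDegree = p)
    (h0 : f.eval 0 = 0) : f = X ^ p := by
  have e := expand_contract p h (hp.out.ne_zero)
  have h1 : (contract p f).natDegree = 1 := by
    have h1 : f.natDegree = (contract p f).natDegree * p := by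
      conv_lhs => rw [← e]
      exact natDegree_expand p _
    rw [hd] at h1
    have hp0 := hp.out.pos
    nlinarith
  have h2 : contract p f = C ((contract p f).coeff 1) * X + C ((contract p f).coeff 0) :=
    eq_X_add_C_of_natDegree_le_one (le_of_eq h1)
  have h3 : (contract p f).coeff 0 = 0 := by
    rw [coeff_contract hp.out.ne_zero, zero_mul]
    rw [← h0, coeff_zero_eq_eval_zero]
  have h4 : (contract p f).coeff 1 = 1 := by
    rw [coeff_contract hp.out.ne_zero, one_mul]
    have := hm.coeff_natDegree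
    rwa [hd] at this
  rw [h3, h4] at h2
  simp only [map_one, map_zero, one_mul, add_zero] at h2
  rw [← e, h2, expand_X]

/-- the cubic -/
noncomputable def fz {S : Type*} [CommRing S] (β : S) : S[X] :=
  X ^ 3 + C 36 * X ^ 2 + C (12 * β) * X + C (β ^ 2)

/-- homogeneous form of the cubic -/
noncomputable def fh {S : Type*} [CommRing S] (β : S) (N D : S[X]) : S[X] :=
  N ^ 3 + C 36 * N ^ 2 * D + C (12 * β) * N * D ^ 2 + C (β ^ 2) * D ^ 3

theorem fz_map {S T : Type*} [CommRing S] [CommRing T] (f : S →+* T) (β : S) :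
    (fz β).map f = fz (f β) := by
  unfold fz
  simp only [Polynomial.map_add, Polynomial.map_mul, Polynomial.map_pow, map_C, map_X, map_mul,
    map_pow, map_ofNat, Polynomial.map_ofNat]

theorem fh_map {S T : Type*} [CommRing S] [CommRing T] (f : S →+* T) (β : S) (N D : S[X]) :
    (fh β N D).map f = fh (f β) (N.map f) (D.map f) := by
  unfold fh
  simp only [Polynomial.map_add, Polynomial.map_mul, Polynomial.map_pow, map_C, map_X, map_mul,
    map_pow, map_ofNat, Polynomial.map_ofNat]

theorem fz_natDegree {S : Type*} [CommRing S] [Nontrivial S] (β : S) : (fz β).natDegree = 3 := by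
  have : fz β = C 1 * X ^ 3 + C 36 * X ^ 2 + C (12 * β) * X + C (β ^ 2) := by
    unfold fz; rw [C_1, one_mul]
  rw [this]
  exact natDegree_cubic one_ne_zero

theorem natCast_pow_p (n : ℕ) : ((n : K)) ^ p = n := by
  have := map_natCast (frobenius K p) n
  rwa [frobenius_def] at this

theorem frob_red (rd : Red p R K) {β β' α π' : R} (hp5 : 5 ≤ p) (hβ : IsUnit β)
    (hβ' : rd.r β' = rd.r β ^ p) (hπ : IsUnit π')
    (hα : α * π' = p)
    (hsep : IsCoprime (fz β) (derivative (fz β)))
    {N D : R[X]} (mN : N.Monic) (dN : N.natDegree = p) (dD : D.natDegree < p)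
    (cc : IsCoprime N D) (h0 : N.eval 0 = 0)
    (ode : fz β * (derivative N * D - N * derivative D) ^ 2 =
      C α ^ 2 * D * fh β' N D) :
    (∃ N1 : R[X], N = X ^ p + C (p : R) * N1) ∧
      ∃ D1 : R[X], D = 1 + C (p : R) * D1 := by
  set r : R →+* K := rd.r with hr
  have rp : r (p : R) = 0 := (rd.ker _).2 dvd_rfl
  have k36 : (36 : K) ≠ 0 := by
    intro h
    have h2 : ((2 : ℕ) : K) ≠ 0 := Pool.Agent.H475R2.nat_ne (p := p) (by norm_num) (by omega)
    have h3 : ((3 : ℕ) : K) ≠ 0 := Pool.Agent.H475R2.nat_ne (p := p) (by norm_num) (by omega)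
    have : (36 : K) = ((2 : ℕ) : K) ^ 2 * ((3 : ℕ) : K) ^ 2 := by norm_num
    rw [this] at h
    exact mul_ne_zero (pow_ne_zero 2 h2) (pow_ne_zero 2 h3) h
  have rβ : r β ≠ 0 := (hβ.map r).ne_zero
  have rα : r α = 0 := by
    have := congrArg r hα
    rw [map_mul, rp] at this
    rcases mul_eq_zero.1 this with h | h
    · exact h
    · exact absurd h (hπ.map r).ne_zero
  set g' := (fz β).map r with hg'
  have g'e : g' = fz (r β) := fz_map r β
  have g'd : g'.natDegree = 3 := by rw [g'e]; exact fz_natDegree _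
  have g'0 : g' ≠ 0 := by
    intro h
    rw [h, natDegree_zero] at g'd
    omega
  set N' := N.map r with hN'
  set D' := D.map r with hD'
  have mN' : N'.Monic := mN.map r
  have dN' : N'.natDegree = p := by rw [hN', mN.natDegree_map, dN]
  have dD' : D'.natDegree < p := lt_of_le_of_lt natDegree_map_le dD
  have cc' : IsCoprime N' D' := by
    have := IsCoprime.map cc (mapRingHom r)
    simpa using this
  have h0' : N'.eval 0 = 0 := by
    have : N'.eval (r 0) = r (N.eval 0) := by rw [hN', eval_map, eval₂_hom]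
    rw [map_zero, h0, map_zero] at this
    exact this
  have ode1 : derivative N' * D' = N' * derivative D' := by
    have e := congrArg (Polynomial.map r) ode
    simp only [Polynomial.map_mul, Polynomial.map_pow, map_C, rα, Polynomial.map_sub] at e
    rw [← derivative_map, ← derivative_map, C_0] at e
    have e1 : g' * (derivative N' * D' - N' * derivative D') ^ 2 = 0 := by
      rw [e]; ring
    rcases mul_eq_zero.1 e1 with h | h
    · exact absurd h g'0
    · have := pow_eq_zero_iff (two_ne_zero) |>.1 h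
      exact sub_eq_zero.1 this
  have dN0 : derivative N' = 0 := by
    have h1 : N' ∣ derivative N' * D' := ⟨_, ode1⟩
    have h2 : N' ∣ derivative N' := cc'.dvd_of_dvd_mul_right h1
    by_contra h3
    have h4 := natDegree_le_of_dvd h2 h3
    have h5 : (derivative N').natDegree < N'.natDegree := by
      apply natDegree_derivative_lt
      rw [dN']; exact hp.out.ne_zero
    omega
  have dD0 : derivative D' = 0 := by
    rw [dN0, zero_mul] at ode1
    rcases mul_eq_zero.1 ode1.symm with h | h
    · exact absurd h mN'.ne_zero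
    · exact h
  have eN : N' = X ^ p := xp_of_deriv dN0 mN' dN' h0'
  obtain ⟨δ, eD⟩ := const_of_deriv dD0 dD'
  have hN1 : ∃ N1 : R[X], N = X ^ p + C (p : R) * N1 := by
    have : (N - X ^ p).map r = 0 := by
      rw [Polynomial.map_sub, Polynomial.map_pow, map_X, ← hN', eN, sub_self]
    obtain ⟨M, hM⟩ := (map_red_eq_zero rd _).1 this
    exact ⟨M, by rw [← hM]; ring⟩
  refine ⟨hN1, ?_⟩
  -- the exact power of `p`
  have hW : (derivative N * D - N * derivative D).map r = 0 := by
    rw [Polynomial.map_sub, Polynomial.map_mul, Polynomial.map_mul, ← derivative_map,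
      ← derivative_map]
    exact sub_eq_zero.2 ode1
  obtain ⟨M, hM⟩ := (map_red_eq_zero rd _).1 hW
  obtain ⟨v, hv⟩ := hπ.exists_right_inv
  have hαv : α = p * v := by
    rw [← hα]; linear_combination (-α) * hv
  have hp0 : (p : R) ≠ 0 := by exact_mod_cast hp.out.ne_zero
  have ode2 : fz β * M ^ 2 = C v ^ 2 * D * fh β' N D := by
    have h1 : C (p : R) ^ 2 * (fz β * M ^ 2 - C v ^ 2 * D * fh β' N D) = 0 := by
      rw [hM, hαv, C_mul] at ode
      linear_combination ode
    rcases mul_eq_zero.1 h1 with h | h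
    · exfalso
      have := pow_eq_zero_iff (two_ne_zero) |>.1 h
      exact hp0 (C_eq_zero.1 this)
    · exact sub_eq_zero.1 h
  have hv0 : r v ≠ 0 := by
    intro h
    have := congrArg r hv
    rw [map_mul, h, mul_zero, map_one] at this
    exact zero_ne_one this
  have δ0 : δ ≠ 0 := by
    intro h
    rw [h, C_0] at eD
    rw [eN, eD] at cc'
    have := isCoprime_zero_right.1 cc'
    have h1 := isUnit_iff_exists_inv.1 this
    have h2 := natDegree_eq_zero_of_isUnit this
    rw [natDegree_X_pow] at h2
    exact hp.out.ne_zero h2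
  obtain ⟨d, hd⟩ := rd.fr δ
  set h : K[X] := X ^ 3 + C (36 * d) * X ^ 2 + C (12 * r β * d ^ 2) * X + C (r β ^ 2 * d ^ 3) with hh
  have n36 : (36 : K) ^ p = 36 := by exact_mod_cast natCast_pow_p (p := p) (K := K) 36
  have n12 : (12 : K) ^ p = 12 := by exact_mod_cast natCast_pow_p (p := p) (K := K) 12
  have hexp : h ^ p = (fh β' N D).map r := by
    rw [fh_map, ← hN', ← hD', eN, eD, hβ']
    unfold fh
    rw [hh]
    rw [add_pow_char, add_pow_char, add_pow_char, mul_pow, mul_pow, ← C_pow, ← C_pow, ← C_pow]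
    have e1 : (36 * d) ^ p = 36 * δ := by rw [mul_pow, n36, hd]
    have e2 : (12 * r β * d ^ 2) ^ p = 12 * r β ^ p * δ ^ 2 := by
      rw [mul_pow, mul_pow, n12, ← hd]; ring
    have e3 : (r β ^ 2 * d ^ 3) ^ p = (r β ^ p) ^ 2 * δ ^ 3 := by
      rw [mul_pow, ← hd]; ring
    rw [e1, e2, e3]
    simp only [C_mul, C_pow, map_ofNat]
    ring
  have hdvd : g' ∣ h ^ p := by
    rw [hexp]
    have e := congrArg (Polynomial.map r) ode2
    simp only [Polynomial.map_mul, Polynomial.map_pow, map_C] at e
    rw [← hg', ← hD', eD] at e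
    have hu : IsUnit (C (r v) ^ 2 * C δ) := by
      rw [← C_pow, ← C_mul]
      exact isUnit_C.2 (IsUnit.mk0 _ (mul_ne_zero (pow_ne_zero 2 hv0) δ0))
    have : g' ∣ (C (r v) ^ 2 * C δ) * (fh β' N D).map r := ⟨_, e.symm⟩
    exact (hu.dvd_mul_left).1 this
  have hsq : Squarefree g' := by
    apply Separable.squarefree
    have := IsCoprime.map hsep (mapRingHom r)
    simp only [coe_mapRingHom] at this
    rw [← derivative_map] at this
    exact this
  have hdvd2 : g' ∣ h := (hsq.dvd_pow_iff_dvd hp.out.ne_zero).1 hdvd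
  obtain ⟨w, hw⟩ := hdvd2
  have hhC : h = C 1 * X ^ 3 + C (36 * d) * X ^ 2 + C (12 * r β * d ^ 2) * X +
      C (r β ^ 2 * d ^ 3) := by
    rw [hh, C_1, one_mul]
  have hhd : h.natDegree = 3 := by rw [hhC]; exact natDegree_cubic one_ne_zero
  have hh0 : h ≠ 0 := by
    intro h'
    rw [h', natDegree_zero] at hhd
    omega
  have w0 : w ≠ 0 := by
    rintro rfl
    rw [mul_zero] at hw
    exact hh0 hw
  have wd : w.natDegree = 0 := by
    have := natDegree_mul g'0 w0
    rw [← hw, hhd, g'd] at this
    omega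
  obtain ⟨ω, hω⟩ : ∃ a, w = C a := ⟨_, eq_C_of_natDegree_eq_zero wd⟩
  have co : ∀ n, h.coeff n = g'.coeff n * ω := by
    intro n
    rw [hw, hω, coeff_mul_C]
  have c3 := co 3
  have c2 := co 2
  rw [hhC, g'e] at c3 c2
  unfold fz at c3 c2
  simp only [coeff_add, coeff_C_mul, coeff_X_pow, coeff_X, coeff_C] at c3 c2
  norm_num at c3 c2
  have d1 : d = 1 := by
    rcases c2 with h | h
    · rw [h]; exact c3.symm
    · exact absurd h k36
  have δ1 : δ = 1 := by rw [← hd, d1, one_pow]
  have : (D - 1).map r = 0 := by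
    rw [Polynomial.map_sub, Polynomial.map_one, ← hD', eD, δ1, C_1, sub_self]
  obtain ⟨D1, hD1⟩ := (map_red_eq_zero rd _).1 this
  exact ⟨D1, by rw [← hD1]; ring⟩

end Pool.Agent.H35.Q51
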