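import Pool.Agent.H35.Q51.L1

set_option autoImplicit false
set_option linter.unusedSectionVars false
set_option linter.unusedSimpArgs false
set_option linter.unusedVariables false

namespace Pool.Agent.H35.Q51

open PowerSeries

variable {p : ℕ} [hp : Fact p.Prime] {R : Type*} [CommRing R] [IsDomain R] [CharZero R]
  {K : Type*} [Field K] [hK : CharP K p]

theorem unit_of_lt (rd : Red p R K) {n : ℕ} (h0 : 0 < n) (h : n < p) :
    IsUnit (n : R) := by
  apply rd.un
  rw [map_natCast]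
  exact Pool.Agent.H475R2.nat_ne (p := p) h0 h

/-- `R0 ^ n` has the shape `p^n A + p^(n-1) X^p B + X^(2p) C`. -/
theorem pow_shape (R0 R1 : PowerSeries R) (h : R0 = X ^ p + C (p : R) * R1) (n : ℕ) :
    ∃ A B E : PowerSeries R,
      R0 ^ (n + 1) = C (p : R) ^ (n + 1) * A + C (p : R) ^ n * X ^ p * B + X ^ (2 * p) * E := by
  induction n with
  | zero => exact ⟨R1, 1, 0, by rw [h]; ring⟩
  | succ n ih =>
    obtain ⟨A, B, E, e⟩ := ih
    refine ⟨A * R1, A + B * R1, C (p : R) ^ n * B + X ^ p * E + C (p : R) * E * R1, ?_⟩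
    rw [pow_succ, e, h]
    have : (X : PowerSeries R) ^ (2 * p) = X ^ p * X ^ p := by rw [← pow_add]; congr 1; ring
    rw [this]
    ring

theorem coeff_shape {A B E Q : PowerSeries R} {n m : ℕ} (hm : m < 2 * p) :
    (p : R) ^ n ∣ coeff m (Q * (C (p : R) ^ (n + 1) * A + C (p : R) ^ n * X ^ p * B +
      X ^ (2 * p) * E)) := by
  have e : Q * (C (p : R) ^ (n + 1) * A + C (p : R) ^ n * X ^ p * B + X ^ (2 * p) * E) =
      C ((p : R) ^ n) * (Q * (C (p : R) * A + X ^ p * B)) + X ^ (2 * p) * (Q * E) := by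
    rw [map_pow]; ring
  rw [e, map_add, coeff_C_mul, coeff_X_pow_mul', if_neg (by omega), add_zero]
  exact dvd_mul_right _ _

theorem coeff_shape' {A B E Q : PowerSeries R} {n m : ℕ} (hm : m < p) :
    (p : R) ^ (n + 1) ∣ coeff m (Q * (C (p : R) ^ (n + 1) * A + C (p : R) ^ n * X ^ p * B +
      X ^ (2 * p) * E)) := by
  have e : Q * (C (p : R) ^ (n + 1) * A + C (p : R) ^ n * X ^ p * B + X ^ (2 * p) * E) =
      C ((p : R) ^ (n + 1)) * (Q * A) + X ^ p * (C (p : R) ^ n * Q * B + X ^ p * (Q * E)) := by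
    have : (X : PowerSeries R) ^ (2 * p) = X ^ p * X ^ p := by rw [← pow_add]; congr 1; ring
    rw [map_pow, this]; ring
  rw [e, map_add, coeff_C_mul, coeff_X_pow_mul', if_neg (by omega), add_zero]
  exact dvd_mul_right _ _

/-- cancellation of a unit -/
theorem dvd_of_unit_mul {a u x : R} (hu : IsUnit u) (h : a ∣ u * x) : a ∣ x :=
  (hu.dvd_mul_left).1 h

section coeffs

variable {R0 R1 : PowerSeries R} (h : R0 = X ^ p + C (p : R) * R1)
  (h0 : constantCoeff R1 = 0) (h2p : (p : R) ∣ coeff (2 * p) R1)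

include h h0

theorem deriv_R0 : ∃ Q, d⁄dX R R0 = C (p : R) * Q := by
  refine ⟨X ^ (p - 1) + d⁄dX R R1, ?_⟩
  rw [h, map_add, PowerSeries.derivative_pow, PowerSeries.derivative_X, Derivation.leibniz,
    PowerSeries.derivative_C]
  simp only [smul_eq_mul, mul_one, mul_zero, add_zero]
  rw [mul_add]
  congr 1

theorem sq_R0 : R0 ^ 2 = X ^ p * (X ^ p + 2 * C (p : R) * R1) + C ((p : R) ^ 2) * R1 ^ 2 := by
  rw [h, map_pow]; ring

/-- index `p - 1`, `n ≥ 1`. -/
theorem claim1 (rd : Red p R K) (hp5 : 5 ≤ p) (n : ℕ) (hn : 1 ≤ n) :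
    (p : R) ^ 3 ∣ coeff (p - 1) (d⁄dX R R0 * R0 ^ n) := by
  obtain ⟨Q, hQ⟩ := deriv_R0 h h0
  rcases Nat.lt_or_ge n 2 with h2 | h2
  · have : n = 1 := by omega
    subst this
    have u2 : IsUnit (2 : R) := by
      have := unit_of_lt (p := p) rd (n := 2) (by norm_num) (by omega)
      exact_mod_cast this
    apply dvd_of_unit_mul u2
    have e1 : (2 : R) * coeff (p - 1) (d⁄dX R R0 * R0 ^ 1) =
        coeff (p - 1) (d⁄dX R (R0 ^ 2)) := by
      rw [PowerSeries.derivative_pow]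
      have : (((2 : ℕ) : PowerSeries R) * R0 ^ (2 - 1) * d⁄dX R R0) =
        C (2 : R) * (d⁄dX R R0 * R0 ^ 1) := by
        simp only [map_ofNat, Nat.cast_ofNat]; ring
      rw [this, coeff_C_mul]
    rw [e1, PowerSeries.coeff_derivative, sq_R0 h h0, map_add, coeff_C_mul, coeff_X_pow_mul']
    have hpp : p - 1 + 1 = p := by omega
    rw [hpp, if_pos (le_refl p), Nat.sub_self]
    have e2 : coeff 0 (X ^ p + 2 * C (p : R) * R1) = 0 := by
      rw [coeff_zero_eq_constantCoeff_apply, map_add, map_mul, h0, mul_zero, add_zero, map_pow,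
        constantCoeff_X, zero_pow hp.out.ne_zero]
    rw [e2, zero_add]
    have e3 : ((p - 1 : ℕ) : R) + 1 = p := by
      have : ((p - 1 : ℕ) : R) + 1 = ((p - 1 + 1 : ℕ) : R) := by push_cast; ring
      rw [this, hpp]
    rw [e3]
    exact ⟨coeff p (R1 ^ 2), by ring⟩
  · obtain ⟨m, rfl⟩ : ∃ m, n = m + 2 := ⟨n - 2, by omega⟩
    obtain ⟨A, B, E, e⟩ := pow_shape R0 R1 h (m + 1)
    rw [hQ, e, mul_assoc, coeff_C_mul]
    have := coeff_shape' (p := p) (A := A) (B := B) (E := E) (Q := Q) (n := m + 1) (m := p - 1)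
      (by omega)
    have h3 : (p : R) ^ 3 ∣ (p : R) * (p : R) ^ (m + 1 + 1) := by
      refine ⟨(p : R) ^ m, by ring⟩
    exact h3.trans (mul_dvd_mul_left _ this)

include h2p

theorem claim2_zero : (p : R) ^ 3 ∣ coeff (2 * p - 1) (d⁄dX R R0) := by
  have hp1 := hp.out.one_lt
  have hpp : 2 * p - 1 + 1 = 2 * p := by omega
  have e3 : ((2 * p - 1 : ℕ) : R) + 1 = 2 * p := by
    have : ((2 * p - 1 : ℕ) : R) + 1 = ((2 * p - 1 + 1 : ℕ) : R) := by push_cast; ring
    rw [this, hpp]; push_cast; ring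
  rw [PowerSeries.coeff_derivative, hpp, h, map_add, coeff_C_mul, coeff_X_pow, if_neg (by omega),
    zero_add, e3]
  obtain ⟨k, hk⟩ := h2p
  rw [hk]
  exact ⟨2 * k, by ring⟩

theorem claim2_one (rd : Red p R K) (hp5 : 5 ≤ p) : (p : R) ^ 3 ∣
    coeff (2 * p - 1) (d⁄dX R R0 * R0 ^ 1) - p * (coeff p R0) ^ 2 := by
  have hpp : 2 * p - 1 + 1 = 2 * p := by omega
  have e3 : ((2 * p - 1 : ℕ) : R) + 1 = 2 * p := by
    have : ((2 * p - 1 : ℕ) : R) + 1 = ((2 * p - 1 + 1 : ℕ) : R) := by push_cast; ring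
    rw [this, hpp]; push_cast; ring
  have u2 : IsUnit (2 : R) := by
    have := unit_of_lt (p := p) rd (n := 2) (by norm_num) (by omega)
    exact_mod_cast this
  apply dvd_of_unit_mul u2
  rw [mul_sub]
  have e1 : (2 : R) * coeff (2 * p - 1) (d⁄dX R R0 * R0 ^ 1) =
      coeff (2 * p - 1) (d⁄dX R (R0 ^ 2)) := by
    rw [PowerSeries.derivative_pow]
    have : (((2 : ℕ) : PowerSeries R) * R0 ^ (2 - 1) * d⁄dX R R0) =
      C (2 : R) * (d⁄dX R R0 * R0 ^ 1) := by
      simp only [map_ofNat, Nat.cast_ofNat]; ring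
    rw [this, coeff_C_mul]
  rw [e1, PowerSeries.coeff_derivative, hpp, sq_R0 h h0, map_add, coeff_C_mul, coeff_X_pow_mul',
    if_pos (by omega), e3]
  have e4 : 2 * p - p = p := by omega
  rw [e4, map_add]
  have e5 : coeff p ((X : PowerSeries R) ^ p) = 1 := by rw [coeff_X_pow, if_pos rfl]
  have e6 : coeff p (2 * C (p : R) * R1) = 2 * p * coeff p R1 := by
    have : 2 * C (p : R) * R1 = C (2 * (p : R)) * R1 := by
      rw [map_mul]; simp only [map_ofNat]
    rw [this, coeff_C_mul]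
  have e7 : coeff p R0 = 1 + p * coeff p R1 := by
    rw [h, map_add, e5, coeff_C_mul]
  rw [e5, e6, e7]
  exact ⟨2 * (coeff (2 * p) (R1 ^ 2)) - 2 * (coeff p R1) ^ 2, by ring⟩

theorem claim2_gen (rd : Red p R K) (hp5 : 5 ≤ p) (n : ℕ) (hn : 2 ≤ n) :
    (p : R) ^ 3 ∣ coeff (2 * p - 1) (d⁄dX R R0 * R0 ^ n) := by
  obtain ⟨Q, hQ⟩ := deriv_R0 h h0
  rcases Nat.lt_or_ge n 3 with h3 | h3
  · have : n = 2 := by omega
    subst this
    have u3 : IsUnit (3 : R) := by
      have := unit_of_lt (p := p) rd (n := 3) (by norm_num) (by omega)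
      exact_mod_cast this
    apply dvd_of_unit_mul u3
    have hpp : 2 * p - 1 + 1 = 2 * p := by omega
    have e3 : ((2 * p - 1 : ℕ) : R) + 1 = 2 * p := by
      have : ((2 * p - 1 : ℕ) : R) + 1 = ((2 * p - 1 + 1 : ℕ) : R) := by push_cast; ring
      rw [this, hpp]; push_cast; ring
    have e1 : (3 : R) * coeff (2 * p - 1) (d⁄dX R R0 * R0 ^ 2) =
        coeff (2 * p - 1) (d⁄dX R (R0 ^ 3)) := by
      rw [PowerSeries.derivative_pow]
      have : (((3 : ℕ) : PowerSeries R) * R0 ^ (3 - 1) * d⁄dX R R0) =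
        C (3 : R) * (d⁄dX R R0 * R0 ^ 2) := by
        simp only [map_ofNat, Nat.cast_ofNat]; ring
      rw [this, coeff_C_mul]
    have e4 : R0 ^ 3 = X ^ (2 * p) * (X ^ p + 3 * C (p : R) * R1) +
        C ((p : R) ^ 2) * (3 * X ^ p * R1 ^ 2 + C (p : R) * R1 ^ 3) := by
      have : (X : PowerSeries R) ^ (2 * p) = X ^ p * X ^ p := by rw [← pow_add]; congr 1; ring
      rw [h, this, map_pow]; ring
    have e5 : coeff 0 (X ^ p + 3 * C (p : R) * R1) = 0 := by
      rw [coeff_zero_eq_constantCoeff_apply, map_add, map_mul, h0, mul_zero, add_zero, map_pow,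
        constantCoeff_X, zero_pow hp.out.ne_zero]
    rw [e1, PowerSeries.coeff_derivative, hpp, e4, map_add, coeff_C_mul, coeff_X_pow_mul',
      if_pos (le_refl _), Nat.sub_self, e5, zero_add, e3]
    exact ⟨2 * coeff (2 * p) (3 * X ^ p * R1 ^ 2 + C (p : R) * R1 ^ 3), by ring⟩
  · obtain ⟨m, rfl⟩ : ∃ m, n = m + 3 := ⟨n - 3, by omega⟩
    obtain ⟨A, B, E, e⟩ := pow_shape R0 R1 h (m + 2)
    rw [hQ, e, mul_assoc, coeff_C_mul]
    have := coeff_shape (p := p) (A := A) (B := B) (E := E) (Q := Q) (n := m + 2) (m := 2 * p - 1)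
      (by omega)
    have h3 : (p : R) ^ 3 ∣ (p : R) * (p : R) ^ (m + 2) := by
      refine ⟨(p : R) ^ m, by ring⟩
    exact h3.trans (mul_dvd_mul_left _ this)

end coeffs

end Pool.Agent.H35.Q51
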