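import Pool.Agent.H35.Q51.L2

/-!
The value modulo `p ^ 2` of the two coefficients of the invariant differential.
-/

set_option autoImplicit false
set_option linter.unusedSectionVars false
set_option linter.unusedSimpArgs false
set_option linter.unusedVariables false

namespace Pool.Agent.H35.Q51

variable {p : ℕ} [hp : Fact p.Prime] {R : Type*} [CommRing R] [IsDomain R] [CharZero R]
  {K : Type*} [Field K] [hK : CharP K p]

open PowerSeries in
theorem key_ps (rd : Red p R K) {β β' α v : R} (hp5 : 5 ≤ p)
    (hα : α = p * v) {N D N1 D1 : Polynomial R}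
    (mN : N.Monic) (dN : N.natDegree = p) (dD : D.natDegree < p) (h0 : N.eval 0 = 0)
    (eN : N = Polynomial.X ^ p + Polynomial.C (p : R) * N1)
    (eD : D = 1 + Polynomial.C (p : R) * D1) (hv0 : v ≠ 0)
    (ode : fz β * (Polynomial.derivative N * D - N * Polynomial.derivative D) ^ 2 =
      Polynomial.C α ^ 2 * D * fh β' N D)
    (W W' : PowerSeries R) (hW : W ^ 2 * (fz β : PowerSeries R) = 1)
    (hW' : W' ^ 2 * (fz β' : PowerSeries R) = 1) :
    ∃ ε ρ : R, (ε = 1 ∨ ε = -1) ∧ (p : R) ∣ ρ - 1 ∧
      (p : R) ^ 2 ∣ ε * v * coeff (p - 1) W - constantCoeff W' * ρ ∧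
      (p : R) ^ 2 ∣ ε * v * coeff (2 * p - 1) W - coeff 1 W' * ρ ^ 2 := by
  have hpp := hp.out
  have hp0 : (p : R) ≠ 0 := by exact_mod_cast hp.out.ne_zero
  have pz : p ≠ 0 := hpp.ne_zero
  -- degrees of N1, D1
  have dN1 : N1.natDegree < p := by
    have h1 : (N - Polynomial.X ^ p).degree < ((p : ℕ) : WithBot ℕ) := by
      have := Polynomial.degree_sub_lt_left (p := N) (q := Polynomial.X ^ p)
        (by rw [Polynomial.degree_X_pow, Polynomial.degree_eq_natDegree mN.ne_zero, dN])
        mN.ne_zero (by rw [mN.leadingCoeff, Polynomial.leadingCoeff_X_pow])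
      rwa [Polynomial.degree_eq_natDegree mN.ne_zero, dN] at this
    have h2 : N - Polynomial.X ^ p = Polynomial.C (p : R) * N1 := by rw [eN]; ring
    rw [h2, Polynomial.degree_C_mul hp0] at h1
    rcases eq_or_ne N1 0 with h | h
    · rw [h, Polynomial.natDegree_zero]; exact hpp.pos
    · rw [Polynomial.degree_eq_natDegree h] at h1
      exact_mod_cast h1
  have dD1 : D1.natDegree < p := by
    have h2 : D - 1 = Polynomial.C (p : R) * D1 := by rw [eD]; ring
    have h3 : (D - 1).natDegree < p := by
      have := Polynomial.natDegree_sub_le D 1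
      rw [Polynomial.natDegree_one, max_eq_left (Nat.zero_le _)] at this
      omega
    rwa [h2, Polynomial.natDegree_C_mul hp0] at h3
  -- the inverse of D
  have uD : IsUnit (D : PowerSeries R) := by
    rw [PowerSeries.isUnit_iff_constantCoeff, Polynomial.constantCoeff_coe, eD,
      Polynomial.coeff_add, Polynomial.coeff_one_zero, Polynomial.coeff_C_mul]
    apply rd.un
    rw [map_add, map_mul, map_one, (rd.ker _).2 (dvd_refl (p : R)), zero_mul, add_zero]
    exact one_ne_zero
  obtain ⟨Di, hDi⟩ := uD.exists_right_inv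
  set R0 : PowerSeries R := (N : PowerSeries R) * Di with hR0
  have hR0D : R0 * (D : PowerSeries R) = N := by
    rw [hR0]; linear_combination (N : PowerSeries R) * hDi
  set R1 : PowerSeries R := ((N1 : PowerSeries R) - X ^ p * (D1 : PowerSeries R)) * Di
    with hR1
  have cN : (N : PowerSeries R) = X ^ p + C (p : R) * (N1 : PowerSeries R) := by
    rw [eN]; push_cast; rfl
  have cD : (D : PowerSeries R) = 1 + C (p : R) * (D1 : PowerSeries R) := by
    rw [eD]; push_cast; rfl
  have hRR : R0 = X ^ p + C (p : R) * R1 := by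
    rw [hR0, hR1, cN]
    rw [cD] at hDi
    linear_combination (X ^ p) * hDi
  have hN10 : N1.coeff 0 = 0 := by
    have e := congrArg (Polynomial.eval 0) eN
    rw [h0] at e
    simp only [Polynomial.eval_add, Polynomial.eval_pow, Polynomial.eval_X, Polynomial.eval_mul,
      Polynomial.eval_C] at e
    rw [zero_pow pz, zero_add] at e
    rcases mul_eq_zero.1 e.symm with h | h
    · exact absurd h hp0
    · rwa [← Polynomial.coeff_zero_eq_eval_zero] at h
  have hR10 : constantCoeff R1 = 0 := by
    rw [hR1, map_mul, map_sub, map_mul, map_pow, constantCoeff_X, zero_pow pz, zero_mul, sub_zero,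
      Polynomial.constantCoeff_coe, hN10, zero_mul]
  have h2p : (p : R) ∣ coeff (2 * p) R1 := by
    have e : R1 = (N1 : PowerSeries R) - X ^ p * (D1 : PowerSeries R) -
        C (p : R) * ((D1 : PowerSeries R) * R1) := by
      rw [cD] at hDi
      rw [hR1]
      linear_combination ((N1 : PowerSeries R) - X ^ p * (D1 : PowerSeries R)) * hDi
    rw [e, map_sub, map_sub, coeff_C_mul, coeff_X_pow_mul', if_pos (by omega)]
    have e1 : coeff (2 * p) (N1 : PowerSeries R) = 0 := by
      rw [Polynomial.coeff_coe]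
      exact Polynomial.coeff_eq_zero_of_natDegree_lt (by omega)
    have e2 : coeff (2 * p - p) (D1 : PowerSeries R) = 0 := by
      rw [Polynomial.coeff_coe]
      exact Polynomial.coeff_eq_zero_of_natDegree_lt (by omega)
    rw [e1, e2]
    exact ⟨-coeff (2 * p) ((D1 : PowerSeries R) * R1), by ring⟩
  -- the truncation of W
  set T : Polynomial R := trunc (2 * p) W with hT
  have hTc : ∀ m, m < 2 * p → T.coeff m = coeff m W := by
    intro m hm
    rw [hT, coeff_trunc, if_pos hm]
  have hTW : (X : PowerSeries R) ^ (2 * p) ∣ (T : PowerSeries R) - W := by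
    rw [X_pow_dvd_iff]
    intro m hm
    rw [map_sub, Polynomial.coeff_coe, hTc m hm, sub_self]
  have hTg : Polynomial.X ^ (2 * p) ∣ T ^ 2 * fz β - 1 := by
    rw [Polynomial.X_pow_dvd_iff]
    intro m hm
    have : (X : PowerSeries R) ^ (2 * p) ∣ ((T ^ 2 * fz β - 1 : Polynomial R) :
        PowerSeries R) := by
      obtain ⟨E, hE⟩ := hTW
      have e : (T : PowerSeries R) = W + X ^ (2 * p) * E := by linear_combination hE
      refine ⟨(2 * W * E + X ^ (2 * p) * E ^ 2) * (fz β : PowerSeries R), ?_⟩
      push_cast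
      rw [e]
      linear_combination hW
    have := (X_pow_dvd_iff.1 this) m hm
    rwa [Polynomial.coeff_coe] at this
  set T' : Polynomial R := trunc (2 * p) W' with hT'
  have hTc' : ∀ m, m < 2 * p → T'.coeff m = coeff m W' := by
    intro m hm
    rw [hT', coeff_trunc, if_pos hm]
  have hTW' : (X : PowerSeries R) ^ (2 * p) ∣ (T' : PowerSeries R) - W' := by
    rw [X_pow_dvd_iff]
    intro m hm
    rw [map_sub, Polynomial.coeff_coe, hTc' m hm, sub_self]
  have hTg' : Polynomial.X ^ (2 * p) ∣ T' ^ 2 * fz β' - 1 := by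
    rw [Polynomial.X_pow_dvd_iff]
    intro m hm
    have : (X : PowerSeries R) ^ (2 * p) ∣ ((T' ^ 2 * fz β' - 1 : Polynomial R) :
        PowerSeries R) := by
      obtain ⟨E, hE⟩ := hTW'
      have e : (T' : PowerSeries R) = W' + X ^ (2 * p) * E := by linear_combination hE
      refine ⟨(2 * W' * E + X ^ (2 * p) * E ^ 2) * (fz β' : PowerSeries R), ?_⟩
      push_cast
      rw [e]
      linear_combination hW'
    have := (X_pow_dvd_iff.1 this) m hm
    rwa [Polynomial.coeff_coe] at this
  -- substitution
  set S : PowerSeries R := Polynomial.aeval R0 T' with hS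
  have hR0X : (X : PowerSeries R) ∣ R0 := by
    rw [X_dvd_iff, hRR, map_add, map_mul, hR10, mul_zero, add_zero, map_pow, constantCoeff_X,
      zero_pow pz]
  have hSg : (X : PowerSeries R) ^ (2 * p) ∣ S ^ 2 * Polynomial.aeval R0 (fz β') - 1 := by
    obtain ⟨E, hE⟩ := hTg'
    have := congrArg (Polynomial.aeval R0) hE
    simp only [map_sub, map_mul, map_pow, map_one, Polynomial.aeval_X] at this
    rw [← hS] at this
    rw [this]
    exact (pow_dvd_pow_of_dvd hR0X _).mul_right _
  set γ : PowerSeries R := Polynomial.aeval R0 (fz β') with hγ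
  have hγe : γ = R0 ^ 3 + C 36 * R0 ^ 2 + C (12 * β') * R0 + C (β' ^ 2) := by
    rw [hγ]; unfold fz
    simp only [map_add, map_mul, map_pow, Polynomial.aeval_X, Polynomial.aeval_C, map_ofNat]
    rfl
  have hγD : γ * (D : PowerSeries R) ^ 3 = ((fh β' N D : Polynomial R) : PowerSeries R) := by
    unfold fh
    push_cast

    rw [← hR0D, hγe]
    ring
  have hder : d⁄dX R R0 * (D : PowerSeries R) ^ 2 =
      ((Polynomial.derivative N * D - N * Polynomial.derivative D : Polynomial R) :
        PowerSeries R) := by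
    have e := congrArg (d⁄dX R) hR0D
    rw [Derivation.leibniz, PowerSeries.derivative_coe, PowerSeries.derivative_coe] at e
    simp only [smul_eq_mul] at e
    push_cast
    rw [← e, ← hR0D]
    ring
  have hode2 : (fz β : PowerSeries R) * (d⁄dX R R0) ^ 2 = C α ^ 2 * γ := by
    have e := congrArg (fun f : Polynomial R => (f : PowerSeries R)) ode
    simp only [Polynomial.coe_mul, Polynomial.coe_pow] at e
    rw [← hder, ← hγD] at e
    have u4 : IsUnit ((D : PowerSeries R) ^ 4) := uD.pow 4
    apply u4.mul_left_cancel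
    have : ((Polynomial.C α : Polynomial R) : PowerSeries R) = C α := by
      exact Polynomial.coe_C α
    rw [this] at e
    linear_combination e
  -- the relation modulo X^(2p)
  have hrel : (X : PowerSeries R) ^ (2 * p) ∣
      (fz β : PowerSeries R) * ((d⁄dX R R0 * S) ^ 2 - (C α * (T : PowerSeries R)) ^ 2) := by
    have e1 : (X : PowerSeries R) ^ (2 * p) ∣ C α ^ 2 * (S ^ 2 * γ - 1) := hSg.mul_left _
    have e2 : (X : PowerSeries R) ^ (2 * p) ∣
        C α ^ 2 * ((T : PowerSeries R) ^ 2 * (fz β : PowerSeries R) - 1) := by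
      obtain ⟨E, hE⟩ := hTg
      have := congrArg (fun f : Polynomial R => (f : PowerSeries R)) hE
      simp only [Polynomial.coe_mul, Polynomial.coe_pow, Polynomial.coe_sub, Polynomial.coe_one,
        Polynomial.coe_X] at this
      rw [this]
      exact (dvd_mul_right _ _).mul_left _
    have := dvd_sub e1 e2
    have e3 : C α ^ 2 * (S ^ 2 * γ - 1) - C α ^ 2 * ((T : PowerSeries R) ^ 2 *
        (fz β : PowerSeries R) - 1) = (fz β : PowerSeries R) * ((d⁄dX R R0 * S) ^ 2
          - (C α * (T : PowerSeries R)) ^ 2) := by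
      linear_combination (-S ^ 2) * hode2
    rwa [e3] at this
  have ug : IsUnit (fz β : PowerSeries R) := IsUnit.of_mul_eq_one (W ^ 2) (by rw [mul_comm]; exact hW)
  have hrel2 : (X : PowerSeries R) ^ (2 * p) ∣
      (d⁄dX R R0 * S) ^ 2 - (C α * (T : PowerSeries R)) ^ 2 := (ug.dvd_mul_left).1 hrel
  have hα0 : α ≠ 0 := by
    rw [hα]; exact mul_ne_zero hp0 hv0
  have hW00 : constantCoeff W ≠ 0 := by
    intro h
    have e := congrArg (constantCoeff (R := R)) hW
    rw [map_mul, map_pow, h, map_one] at e
    rw [zero_pow (by norm_num), zero_mul] at e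
    exact zero_ne_one e
  have hTc0 : constantCoeff (T : PowerSeries R) = constantCoeff W := by
    rw [Polynomial.constantCoeff_coe, hTc 0 (by have := hpp.pos; omega),
      coeff_zero_eq_constantCoeff_apply]
  have h2 : (2 : R) ≠ 0 := two_ne_zero
  obtain ⟨ε, hε, hdiv⟩ : ∃ ε : R, (ε = 1 ∨ ε = -1) ∧
      (X : PowerSeries R) ^ (2 * p) ∣ d⁄dX R R0 * S - C ε * (C α * (T : PowerSeries R)) := by
    set u := d⁄dX R R0 * S with hu
    set v := C α * (T : PowerSeries R) with hv
    have hv0 : constantCoeff v ≠ 0 := by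
      rw [hv, map_mul, hTc0]
      exact mul_ne_zero (by simpa using hα0) hW00
    have hfac : (X : PowerSeries R) ^ (2 * p) ∣ (u - v) * (u + v) := by
      have : (u - v) * (u + v) = u ^ 2 - v ^ 2 := by ring
      rw [this]; exact hrel2
    have hX := PowerSeries.X_prime (R := R)
    by_cases hxv : (X : PowerSeries R) ∣ u - v
    · have hn : ¬ (X : PowerSeries R) ∣ u + v := by
        intro h
        have h3 := dvd_sub h hxv
        have h4 : u + v - (u - v) = 2 * v := by ring
        rw [h4, X_dvd_iff, map_mul] at h3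
        rcases mul_eq_zero.1 h3 with h5 | h5
        · have h6 : constantCoeff (2 : PowerSeries R) = 2 := map_ofNat _ 2
          rw [h6] at h5
          exact h2 h5
        · exact hv0 h5
      refine ⟨1, Or.inl rfl, ?_⟩
      rw [map_one, one_mul]
      exact hX.pow_dvd_of_dvd_mul_right _ hn hfac
    · refine ⟨-1, Or.inr rfl, ?_⟩
      have e : u - C (-1 : R) * v = u + v := by rw [map_neg, map_one]; ring
      rw [e]
      exact hX.pow_dvd_of_dvd_mul_left _ hxv hfac
  -- coefficients
  have hco : ∀ m, m < 2 * p → ∑ n ∈ Finset.range (2 * p),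
      coeff n W' * coeff m (d⁄dX R R0 * R0 ^ n) = ε * (α * coeff m W) := by
    intro m hm
    have e1 := (X_pow_dvd_iff.1 hdiv) m hm
    rw [map_sub, coeff_C_mul, coeff_C_mul, Polynomial.coeff_coe, hTc m hm] at e1
    have e2 : S = ∑ n ∈ Finset.range (2 * p), C (coeff n W') * R0 ^ n := by
      rw [hS, Polynomial.aeval_eq_sum_range' (n := 2 * p)]
      · apply Finset.sum_congr rfl
        intro n hn
        rw [hTc' n (Finset.mem_range.1 hn), Algebra.smul_def]
        rfl
      · have h9 := natDegree_trunc_lt W' (2 * p - 1)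
        have h10 : 2 * p - 1 + 1 = 2 * p := by have := hpp.pos; omega
        rw [h10] at h9
        rw [hT']
        exact h9
    rw [e2, Finset.mul_sum, map_sum] at e1
    rw [← sub_eq_zero, ← e1]
    congr 1
    apply Finset.sum_congr rfl
    intro n _
    rw [← coeff_C_mul]
    congr 1
    ring
  set r := coeff p R0 with hr
  have E1 : (p : R) ^ 3 ∣ ε * (α * coeff (p - 1) W) - constantCoeff W' * (p * r) := by
    rw [← hco (p - 1) (by omega)]
    have hsplit : Finset.range (2 * p) = insert 0 ((Finset.range (2 * p)).erase 0) := by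
      rw [Finset.insert_erase]; simp; exact hpp.pos
    rw [hsplit, Finset.sum_insert (by simp)]
    have e0 : coeff (p - 1) (d⁄dX R R0 * R0 ^ 0) = p * r := by
      rw [pow_zero, mul_one, PowerSeries.coeff_derivative]
      have h1 : p - 1 + 1 = p := by omega
      have h3 : ((p - 1 : ℕ) : R) + 1 = p := by
        have : ((p - 1 : ℕ) : R) + 1 = ((p - 1 + 1 : ℕ) : R) := by push_cast; ring
        rw [this, h1]
      rw [h1, h3, hr]; ring
    rw [e0, coeff_zero_eq_constantCoeff_apply, add_sub_cancel_left]
    apply Finset.dvd_sum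
    intro n hn
    simp only [Finset.mem_erase, Finset.mem_range] at hn
    exact (claim1 hRR hR10 rd hp5 n (by omega)).mul_left _
  have E2 : (p : R) ^ 3 ∣ ε * (α * coeff (2 * p - 1) W) - coeff 1 W' * (p * r ^ 2) := by
    rw [← hco (2 * p - 1) (by omega)]
    have hsplit : Finset.range (2 * p) = insert 1 ((Finset.range (2 * p)).erase 1) := by
      rw [Finset.insert_erase]; simp; omega
    rw [hsplit, Finset.sum_insert (by simp)]
    have e1 := claim2_one hRR hR10 h2p rd hp5
    rw [← hr] at e1
    have e2 : (p : R) ^ 3 ∣ ∑ n ∈ (Finset.range (2 * p)).erase 1,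
        coeff n W' * coeff (2 * p - 1) (d⁄dX R R0 * R0 ^ n) := by
      apply Finset.dvd_sum
      intro n hn
      simp only [Finset.mem_erase, Finset.mem_range] at hn
      rcases Nat.eq_zero_or_pos n with h | h
      · subst h
        rw [pow_zero, mul_one]
        exact (claim2_zero hRR hR10 h2p).mul_left _
      · exact (claim2_gen hRR hR10 h2p rd hp5 n (by omega)).mul_left _
    obtain ⟨k, hk⟩ := e1
    obtain ⟨l, hl⟩ := e2
    refine ⟨coeff 1 W' * k + l, ?_⟩
    rw [hl]
    linear_combination coeff 1 W' * hk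
  refine ⟨ε, r, hε, ?_, ?_, ?_⟩
  · refine ⟨coeff p R1, ?_⟩
    rw [hr, hRR, map_add, coeff_X_pow, if_pos rfl, coeff_C_mul]
    ring
  · obtain ⟨k, hk⟩ := E1
    refine ⟨k, mul_left_cancel₀ hp0 ?_⟩
    rw [hα] at hk
    linear_combination hk
  · obtain ⟨k, hk⟩ := E2
    refine ⟨k, mul_left_cancel₀ hp0 ?_⟩
    rw [hα] at hk
    linear_combination hk

end Pool.Agent.H35.Q51
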