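import Pool.Agent.H35.Q51.L3

/-!
The explicit inverse square root of the cubic, and the truncated sums.
-/

set_option autoImplicit false
set_option linter.unusedSectionVars false
set_option linter.unusedSimpArgs false
set_option linter.unusedVariables false

namespace Pool.Agent.H35.Q51

open Pool.Agent.H475R2 (T3 T3_term B3_termZ)

open PowerSeries

variable {p : ℕ} [hp : Fact p.Prime] {R : Type*} [CommRing R] [IsDomain R] [CharZero R]
  {K : Type*} [Field K] [hK : CharP K p]

/-- the quartered cubic -/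
noncomputable def gp (b c : R) : Polynomial R :=
  4 * Polynomial.X ^ 3 + Polynomial.C b * Polynomial.X ^ 2 + 2 * Polynomial.C c * Polynomial.X + Polynomial.C c ^ 2

/-- The power series with coefficients `(-1)^n c^(-n-1) B n`. -/
noncomputable def WB (ci : R) (B : ℕ → R) : PowerSeries R :=
  PowerSeries.mk fun n => (-1) ^ n * ci ^ (n + 1) * B n

theorem WB_sq {b c ci : R} (hc : c * ci = 1) {B : ℕ → R} (h0 : B 0 = 1) (h1 : B 1 = 1)
    (h2 : 2 * B 2 = 3 - b)
    (hrec : ∀ k : ℕ, ((k : R) + 3) * B (k + 3) - (2 * k + 5) * B (k + 2) +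
      b * (k + 2) * B (k + 1) - (4 * k + 6) * c * B k = 0) :
    WB ci B ^ 2 * (gp b c : PowerSeries R) = 1 := by
  set W := WB ci B with hW
  set g : PowerSeries R := (gp b c : PowerSeries R) with hg
  have hW' : ∀ n, coeff n W = (-1) ^ n * ci ^ (n + 1) * B n := by
    intro n; rw [hW]; unfold WB; rw [coeff_mk]
  have q4 : ((4 : Polynomial R) : PowerSeries R) = 4 :=
    map_ofNat (Polynomial.coeToPowerSeries.ringHom (R := R)) 4
  have q2 : ((2 : Polynomial R) : PowerSeries R) = 2 :=
    map_ofNat (Polynomial.coeToPowerSeries.ringHom (R := R)) 2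
  have hge : g = C 4 * X ^ 3 + C b * X ^ 2 + C (2 * c) * X ^ 1 + C (c ^ 2) * X ^ 0 := by
    rw [hg]; unfold gp
    push_cast
    rw [q4, q2, map_mul, map_pow, map_ofNat, map_ofNat]
    ring
  have hgd : d⁄dX R g = C 12 * X ^ 2 + C (2 * b) * X ^ 1 + C (2 * c) * X ^ 0 := by
    have e12 : (C (12 : R) : PowerSeries R) = C 4 * 3 := by
      rw [show (3 : PowerSeries R) = C 3 by rw [map_ofNat], ← map_mul]; norm_num
    have e2b : (C (2 * b : R) : PowerSeries R) = C b * 2 := by
      rw [show (2 : PowerSeries R) = C 2 by rw [map_ofNat], ← map_mul, mul_comm]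
    rw [hge, e12, e2b]
    simp only [map_add, Derivation.leibniz, Derivation.leibniz_pow, derivative_X, derivative_C,
      smul_eq_mul, nsmul_eq_mul]
    push_cast
    ring
  have hode : 2 * (g * d⁄dX R W) + d⁄dX R g * W = 0 := by
    ext k
    rw [hgd, hge]
    have r : (2 : PowerSeries R) = C 2 := by rw [map_ofNat]
    rw [r]
    simp only [add_mul, mul_assoc, map_add, coeff_C_mul, coeff_X_pow_mul', coeff_derivative, hW',
      map_zero]
    rcases k with _ | _ | _ | k
    · simp [h0, h1]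
      linear_combination (-2 * c * ci) * hc
    · simp [h0, h1]
      linear_combination (2 * c ^ 2 * ci ^ 3) * h2 + (6 * c * ci ^ 2 - 2 * b * ci * (c * ci + 1)) * hc
    · have hr := hrec 0
      simp [h0, h1] at hr ⊢
      linear_combination (-2 * ci ^ 2) * hr +
        (-6 * B 3 * ci ^ 2 * (c * ci + 1) + 10 * B 2 * ci ^ 2 - 12 * ci) * hc
    · have hr := hrec (k + 1)
      have i1 : k + 1 + 1 + 1 - 3 = k := by omega
      have i2 : k + 1 + 1 + 1 - 2 = k + 1 := by omega
      have i3 : k + 1 + 1 + 1 - 1 = k + 2 := by omega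
      have i4 : k + 1 + 1 + 1 - 0 = k + 3 := by omega
      rw [if_pos (by omega), if_pos (by omega), if_pos (by omega), if_pos (by omega), i1, i2, i3, i4]
      push_cast at hr ⊢
      linear_combination (2 * (-1) ^ k * ci ^ (k + 3)) * hr + ((-1) ^ k * ci ^ (k + 2) *
        (2 * B (k + 4) * (k + 4) * ci * (c * ci + 1) - (4 * k + 14) * ci * B (k + 3) +
          (8 * k + 20) * B (k + 1))) * hc
  have hcc : constantCoeff W = ci := by
    rw [← coeff_zero_eq_constantCoeff_apply, hW', h0]; ring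
  have hcg : constantCoeff g = c ^ 2 := by
    rw [hge]
    simp
  apply derivative.ext
  · rw [Derivation.leibniz, Derivation.leibniz_pow, ← map_one (C (R := R)), derivative_C]
    simp only [smul_eq_mul, nsmul_eq_mul]
    push_cast
    linear_combination W * hode
  · rw [map_mul, map_pow, hcc, hcg, map_one]
    linear_combination (c * ci + 1) * hc

/-- The value of the two coefficients. -/
theorem WB_val {c ci : R} (hc : c * ci = 1) (hp2 : p ≠ 2) (B : ℕ → R) :
    2 * c ^ p * coeff (p - 1) (WB ci B) + c ^ (2 * p) * coeff (2 * p - 1) (WB ci B) =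
      2 * B (p - 1) - B (2 * p - 1) := by
  have hpp := hp.out
  have hodd := hpp.odd_of_ne_two hp2
  unfold WB
  rw [coeff_mk, coeff_mk]
  have e1 : p - 1 + 1 = p := by have := hpp.pos; omega
  have e2 : 2 * p - 1 + 1 = 2 * p := by have := hpp.pos; omega
  have s1 : (-1 : R) ^ (p - 1) = 1 := by
    apply Even.neg_one_pow
    obtain ⟨k, hk⟩ := hodd
    exact ⟨k, by omega⟩
  have s2 : (-1 : R) ^ (2 * p - 1) = -1 := by
    apply Odd.neg_one_pow
    exact ⟨p - 1, by have := hpp.pos; omega⟩
  rw [e1, e2, s1, s2]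
  have f1 : c ^ p * ci ^ p = 1 := by rw [← mul_pow, hc, one_pow]
  have f2 : c ^ (2 * p) * ci ^ (2 * p) = 1 := by rw [← mul_pow, hc, one_pow]
  linear_combination (2 * B (p - 1)) * f1 - B (2 * p - 1) * f2

/-- The sequence for the curves with a point of order three. -/
noncomputable def B3 (c : R) (n : ℕ) : R :=
  ∑ j ∈ Finset.range (n + 1), ((Nat.choose (2 * j) j * Nat.choose (n - j) (2 * j) : ℕ) : R) * c ^ j

theorem B3_ext (c : R) (n m : ℕ) (h : n + 1 ≤ m) :
    B3 c n = ∑ j ∈ Finset.range m,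
      ((Nat.choose (2 * j) j * Nat.choose (n - j) (2 * j) : ℕ) : R) * c ^ j := by
  unfold B3
  apply Finset.sum_subset
  · intro x hx; simp only [Finset.mem_range] at hx ⊢; omega
  · intro x hx hx'
    simp only [Finset.mem_range, not_lt] at hx hx'
    rw [Nat.choose_eq_zero_of_lt (show n - x < 2 * x by omega), mul_zero, Nat.cast_zero, zero_mul]

theorem B3_ext' (c : R) (n m : ℕ) (h : n ≤ m) :
    B3 c n = ∑ j ∈ Finset.range m, ((Nat.choose (2 * (j + 1)) (j + 1) *
      Nat.choose (n - (j + 1)) (2 * (j + 1)) : ℕ) : R) * c ^ (j + 1) + 1 := by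
  rw [B3_ext c n (m + 1) (by omega), Finset.sum_range_succ']
  simp

theorem B3_rec (c : R) (k : ℕ) : ((k : R) + 3) * B3 c (k + 3) - (2 * k + 5) * B3 c (k + 2) +
      1 * (k + 2) * B3 c (k + 1) - (4 * k + 6) * c * B3 c k = 0 := by
  rw [B3_ext' c (k + 3) (k + 5) (by omega), B3_ext' c (k + 2) (k + 5) (by omega),
    B3_ext' c (k + 1) (k + 5) (by omega), B3_ext c k (k + 5) (by omega)]
  have key : ∀ j ∈ Finset.range (k + 5),
      ((k : R) + 3) * (((Nat.choose (2 * (j + 1)) (j + 1) * Nat.choose (k + 3 - (j + 1)) (2 * (j + 1)) : ℕ) : R) * c ^ (j + 1)) -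
      (2 * k + 5) * (((Nat.choose (2 * (j + 1)) (j + 1) * Nat.choose (k + 2 - (j + 1)) (2 * (j + 1)) : ℕ) : R) * c ^ (j + 1)) +
      1 * (k + 2) * (((Nat.choose (2 * (j + 1)) (j + 1) * Nat.choose (k + 1 - (j + 1)) (2 * (j + 1)) : ℕ) : R) * c ^ (j + 1)) -
      (4 * k + 6) * c * (((Nat.choose (2 * j) j * Nat.choose (k - j) (2 * j) : ℕ) : R) * c ^ j) = 0 := by
    intro j _
    rcases le_or_gt j k with h | h
    · obtain ⟨q, rfl⟩ := Nat.exists_eq_add_of_le h
      have e1 : j + q + 3 - (j + 1) = q + 2 := by omega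
      have e2 : j + q + 2 - (j + 1) = q + 1 := by omega
      have e3 : j + q + 1 - (j + 1) = q := by omega
      have e4 : j + q - j = q := by omega
      rw [e1, e2, e3, e4]
      have t := congrArg (fun x : ℤ => (x : R)) (B3_termZ q j)
      push_cast at t ⊢
      have e5 : 2 * (j + 1) = 2 * j + 2 := by ring
      rw [e5] at t ⊢
      linear_combination (c ^ (j + 1)) * t
    · rw [Nat.choose_eq_zero_of_lt (show k + 3 - (j + 1) < 2 * (j + 1) by omega),
        Nat.choose_eq_zero_of_lt (show k + 2 - (j + 1) < 2 * (j + 1) by omega),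
        Nat.choose_eq_zero_of_lt (show k + 1 - (j + 1) < 2 * (j + 1) by omega),
        Nat.choose_eq_zero_of_lt (show k - j < 2 * j by omega)]
      simp
  have key2 := Finset.sum_eq_zero key
  simp only [Finset.sum_sub_distrib, Finset.sum_add_distrib, ← Finset.mul_sum] at key2
  linear_combination key2

theorem B3_zero (c : R) : B3 c 0 = 1 := by
  unfold B3; simp

theorem B3_one (c : R) : B3 c 1 = 1 := by
  unfold B3; simp [Finset.sum_range_succ]

theorem B3_two (c : R) : B3 c 2 = 1 := by
  unfold B3; simp [Finset.sum_range_succ]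

theorem T3_congr (hp2 : p ≠ 2) (c : R) :
    (p : R) ^ 2 ∣ 2 * B3 c (p - 1) - B3 c (2 * p - 1) - T3 p c := by
  have hpp := hp.out
  have h1 : B3 c (2 * p - 1) = ∑ j ∈ Finset.range p,
      ((Nat.choose (2 * j) j * Nat.choose (2 * p - 1 - j) (2 * j) : ℕ) : R) * c ^ j := by
    unfold B3
    symm
    apply Finset.sum_subset
    · intro x hx; simp only [Finset.mem_range] at hx ⊢; omega
    · intro x hx hx'
      simp only [Finset.mem_range, not_lt] at hx hx'
      rw [Nat.choose_eq_zero_of_lt (show 2 * p - 1 - x < 2 * x by have := hpp.pos; omega), mul_zero, Nat.cast_zero,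
        zero_mul]
  rw [h1]
  unfold B3 T3
  rw [show p - 1 + 1 = p by have := hpp.pos; omega, Finset.mul_sum, ← Finset.sum_sub_distrib,
    ← Finset.sum_sub_distrib]
  apply Finset.dvd_sum
  intro j hj
  obtain ⟨k, hk⟩ := T3_term hpp j (Finset.mem_range.1 hj)
  refine ⟨k * c ^ j, ?_⟩
  have := congrArg (fun x : ℤ => (x : R)) hk
  push_cast at this ⊢
  linear_combination (c ^ j) * this


/-- The inverse square root of `x^3 + (6 x + β)^2`. -/
noncomputable def Wz (k u ci : R) (B : ℕ → R) : PowerSeries R :=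
  C k * PowerSeries.rescale u (WB ci B)

theorem Wz_coeff (k u ci : R) (B : ℕ → R) (n : ℕ) :
    coeff n (Wz k u ci B) = k * (u ^ n * ((-1) ^ n * ci ^ (n + 1) * B n)) := by
  unfold Wz WB
  rw [coeff_C_mul, PowerSeries.coeff_rescale, coeff_mk]

theorem Wz_sq {β c ci k u : R} (hu : 144 * u = 1) (hk : k * 864 = 1) (hβ : β = 864 * c)
    (hc : c * ci = 1) :
    Wz k u ci (B3 c) ^ 2 * (fz β : PowerSeries R) = 1 := by
  have hB : ∀ k : ℕ, ((k : R) + 3) * B3 c (k + 3) - (2 * k + 5) * B3 c (k + 2) +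
      1 * (k + 2) * B3 c (k + 1) - (4 * k + 6) * c * B3 c k = 0 := B3_rec c
  have hW := WB_sq hc (B3_zero c) (B3_one c) (by rw [B3_two]; norm_num) hB
  have e1 : (fz β : PowerSeries R) = C (864 ^ 2) * PowerSeries.rescale u (gp 1 c : PowerSeries R) := by
    have q4 : ((4 : Polynomial R) : PowerSeries R) = 4 :=
      map_ofNat (Polynomial.coeToPowerSeries.ringHom (R := R)) 4
    have q2 : ((2 : Polynomial R) : PowerSeries R) = 2 :=
      map_ofNat (Polynomial.coeToPowerSeries.ringHom (R := R)) 2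
    have hge : (gp 1 c : PowerSeries R) = C 4 * X ^ 3 + C 1 * X ^ 2 + C (2 * c) * X ^ 1 +
        C (c ^ 2) * X ^ 0 := by
      unfold gp
      push_cast
      rw [q4, q2, map_mul, map_pow, map_ofNat, map_ofNat]
      ring
    have hfe : (fz β : PowerSeries R) = C 1 * X ^ 3 + C 36 * X ^ 2 + C (12 * β) * X ^ 1 +
        C (β ^ 2) * X ^ 0 := by
      unfold fz
      push_cast
      rw [map_one]
      ring
    ext n
    rw [coeff_C_mul, PowerSeries.coeff_rescale, hge, hfe]
    simp only [map_add, coeff_C_mul, coeff_X_pow]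
    rw [hβ]
    rcases n with _ | _ | _ | _ | n
    · simp; ring
    · simp; linear_combination (-(10368 * c)) * hu
    · simp; linear_combination (-(36 * (144 * u + 1))) * hu
    · simp; linear_combination (-(20736 * u ^ 2 + 144 * u + 1)) * hu
    · simp
  have e2 := congrArg (PowerSeries.rescale u) hW
  rw [map_mul, map_pow, map_one] at e2
  unfold Wz
  rw [e1]
  have e3 : (C k : PowerSeries R) ^ 2 * C (864 ^ 2) = 1 := by
    rw [← map_pow, ← map_mul]
    have : k ^ 2 * 864 ^ 2 = 1 := by linear_combination (k * 864 + 1) * hk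
    rw [this, map_one]
  linear_combination (PowerSeries.rescale u (WB ci (B3 c)) ^ 2 *
    PowerSeries.rescale u (gp 1 c : PowerSeries R)) * e3 + e2

end Pool.Agent.H35.Q51
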