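import Pool.Agent.H35.Q51.L4

/-!
The truncated sum is congruent to a unit root up to sign.
-/

set_option autoImplicit false
set_option linter.unusedSectionVars false
set_option linter.unusedSimpArgs false
set_option linter.unusedVariables false

namespace Pool.Agent.H35.Q51

open Polynomial
open Pool.Agent.H475R2 (T3 dsc sep_of_dsc)

variable {p : ℕ} [hp : Fact p.Prime] {R : Type*} [CommRing R] [IsDomain R] [CharZero R]
  {K : Type*} [Field K] [hK : CharP K p]

theorem T3_of_ode (rd : Red p R K) (hp5 : 5 ≤ p) {β β' α v π' c c' u : R}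
    (hu : 144 * u = 1) (hβ : β = 864 * c) (hβ' : β' = 864 * c')
    (hc : IsUnit c) (hc' : IsUnit c') (hcc : rd.r c' = rd.r c ^ p)
    (hα : α = p * v) (hv : v * π' = 1)
    (hΔ : IsUnit (dsc (C 36) (C (12 * β)) (C (β ^ 2)) : R[X]))
    {N D : R[X]} (mN : N.Monic) (dN : N.natDegree = p) (dD : D.natDegree < p)
    (co : IsCoprime N D) (h0 : N.eval 0 = 0)
    (ode : fz β * (derivative N * D - N * derivative D) ^ 2 = C α ^ 2 * D * fh β' N D) :
    ∃ ε : R, (ε = 1 ∨ ε = -1) ∧ (p : R) ^ 2 ∣ T3 p c - ε * π' := by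
  have hpp := hp.out
  have hp2 : p ≠ 2 := by omega
  have u864 : IsUnit (864 : R) := IsUnit.of_mul_eq_one (24 * u ^ 2) (by
    linear_combination (144 * u + 1) * hu)
  obtain ⟨k, hk'⟩ := u864.exists_left_inv
  have hk : k * 864 = 1 := hk'
  have uk : IsUnit k := IsUnit.of_mul_eq_one _ hk
  have uu : IsUnit u := IsUnit.of_mul_eq_one 144 (by linear_combination hu)
  have uβ : IsUnit β := by rw [hβ]; exact u864.mul hc
  have hv0 : v ≠ 0 := by
    rintro rfl
    rw [zero_mul] at hv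
    exact zero_ne_one hv
  have hπ : IsUnit π' := IsUnit.of_mul_eq_one v (by rw [mul_comm]; exact hv)
  have rp : rd.r (p : R) = 0 := (rd.ker _).2 dvd_rfl
  have n864 : (864 : K) ^ p = 864 := by exact_mod_cast natCast_pow_p (p := p) (K := K) 864
  have n144 : (144 : K) ^ p = 144 := by exact_mod_cast natCast_pow_p (p := p) (K := K) 144
  have hββ : rd.r β' = rd.r β ^ p := by
    rw [hβ, hβ', map_mul, map_mul, mul_pow, hcc, map_ofNat, n864]
  have hsep : IsCoprime (fz β) (derivative (fz β)) := sep_of_dsc hΔ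
  obtain ⟨⟨N1, eN⟩, D1, eD⟩ := frob_red rd hp5 uβ hββ hπ (by rw [hα, mul_assoc, hv, mul_one]) hsep
    mN dN dD co h0 ode
  obtain ⟨ci, hci⟩ := hc.exists_right_inv
  obtain ⟨ci', hci'⟩ := hc'.exists_right_inv
  obtain ⟨ε, ρ, hε, hρ, A1, A2⟩ := key_ps rd hp5 hα mN dN dD h0 eN eD hv0 ode
    (Wz k u ci (B3 c)) (Wz k u ci' (B3 c')) (Wz_sq hu hk hβ hci) (Wz_sq hu hk hβ' hci')
  rw [← PowerSeries.coeff_zero_eq_constantCoeff_apply, Wz_coeff, Wz_coeff, B3_zero] at A1
  rw [Wz_coeff, Wz_coeff, B3_one] at A2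
  have hodd := hpp.odd_of_ne_two hp2
  have e1 : p - 1 + 1 = p := by have := hpp.pos; omega
  have e2 : 2 * p - 1 + 1 = 2 * p := by have := hpp.pos; omega
  have s1 : (-1 : R) ^ (p - 1) = 1 := by
    apply Even.neg_one_pow
    obtain ⟨k, hk⟩ := hodd
    exact ⟨k, by omega⟩
  have s2 : (-1 : R) ^ (2 * p - 1) = -1 := by
    apply Odd.neg_one_pow
    exact ⟨p - 1, by have := hpp.pos; omega⟩
  rw [e1, s1] at A1
  rw [e2, s2] at A2
  set a : R := u ^ (p - 1) * ci ^ p with ha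
  have e3 : u ^ (2 * p - 1) = u * (u ^ (p - 1)) ^ 2 := by
    rw [← pow_mul, ← pow_succ']
    congr 1; have := hpp.pos; omega
  have e4 : ci ^ (2 * p) = (ci ^ p) ^ 2 := by rw [← pow_mul, mul_comm]
  obtain ⟨k1, hk1⟩ := A1
  obtain ⟨k2, hk2⟩ := A2
  set ai : R := 144 ^ (p - 1) * c ^ p with hai
  have haa : a * ai = 1 := by
    have f1 : u ^ (p - 1) * 144 ^ (p - 1) = 1 := by
      rw [← mul_pow, mul_comm u, hu, one_pow]
    have f2 : ci ^ p * c ^ p = 1 := by rw [← mul_pow, mul_comm ci, hci, one_pow]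
    rw [ha, hai]
    linear_combination (ci ^ p * c ^ p) * f1 + f2
  set z : R := ci' * ρ * ai with hz
  -- the two congruences
  have F1 : (p : R) ^ 2 ∣ ε * v * B3 c (p - 1) - z := by
    refine ⟨864 * k1 * ai, ?_⟩
    linear_combination (864 * ai) * hk1 + (ε * v * B3 c (p - 1) * a * ai - z) * (-1) * hk +
      (ε * v * B3 c (p - 1)) * (-1) * haa
  have F2 : (p : R) ^ 2 ∣ ε * v * B3 c (2 * p - 1) - z ^ 2 := by
    rw [e3, e4] at hk2
    refine ⟨-(864 * 144 * k2 * ai ^ 2), ?_⟩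
    have q : k * 864 * (144 * u) = 1 := by rw [hk, hu, one_mul]
    linear_combination (-(864 * 144 * ai ^ 2)) * hk2 -
      (ε * v * B3 c (2 * p - 1) * a ^ 2 * ai ^ 2 - z ^ 2) * q -
      (ε * v * B3 c (2 * p - 1)) * (a * ai + 1) * haa
  have F3 : (p : R) ∣ 1 - z := by
    rw [← rd.ker, map_sub, map_one, hz, hai, map_mul, map_mul, map_mul, map_pow, map_pow, map_ofNat]
    have g1 : rd.r ρ = 1 := by
      have := (rd.ker _).2 hρ
      rw [map_sub, map_one, sub_eq_zero] at this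
      exact this
    have g2 : rd.r ci' * rd.r c ^ p = 1 := by
      rw [← hcc, ← map_mul, mul_comm ci', hci', map_one]
    have g3 : (144 : K) ^ (p - 1) = 1 := by
      have h144 : (144 : K) ≠ 0 := by
        intro h
        have := congrArg rd.r hu
        rw [map_mul, map_ofNat, h, zero_mul, map_one] at this
        exact zero_ne_one this
      apply mul_left_cancel₀ h144
      rw [← pow_succ', e1, mul_one, n144]
    rw [g1, g3]
    linear_combination -g2
  obtain ⟨m1, hm1⟩ := F1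
  obtain ⟨m2, hm2⟩ := F2
  obtain ⟨m3, hm3⟩ := F3
  obtain ⟨m4, hm4⟩ := T3_congr (p := p) hp2 c
  refine ⟨ε, hε, ?_⟩
  have hεε : ε * ε = 1 := by rcases hε with h | h <;> rw [h] <;> ring
  refine ⟨ε * π' * (2 * m1 - m2 - m3 ^ 2) - m4, ?_⟩
  linear_combination (-1 : R) * hm4 + (2 * ε * π') * hm1 - (ε * π') * hm2 -
    (ε * π') * (1 - z + p * m3) * hm3 + (2 * B3 c (p - 1) - B3 c (2 * p - 1)) * (-1) * (v * π') * hεε -
    (2 * B3 c (p - 1) - B3 c (2 * p - 1)) * hv

end Pool.Agent.H35.Q51
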