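import Pool.Agent.H35.Q51.L5

/-!
Lattices of isogenies between two curves.
-/

set_option autoImplicit false
set_option linter.unusedSectionVars false
set_option linter.unusedSimpArgs false
set_option linter.unusedVariables false

namespace Pool.Agent.H35.Q51

open WeierstrassCurve Polynomial
open Pool.Agent.H475R2 (EW Rep XR Om Dn dsc step_alg step_dup fx dfx eq_of_nonsing)

variable {R : Type*} [CommRing R] [IsDomain R] {L : Type*} [Field L] [DecidableEq L]
variable {ι : R[X] →+* L} {ra rb rc : R}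

/-- The quadratic form. -/
def nf3 (a t n : ℤ) (i j : ℤ) : ℤ := a * i ^ 2 + t * i * j + n * j ^ 2

theorem nf3_pos {a t n i j : ℤ} (ha : 0 < a) (hdisc : t ^ 2 < 4 * a * n) (hij : i ≠ 0 ∨ j ≠ 0) :
    0 < nf3 a t n i j := by
  unfold nf3
  by_cases hj : j = 0
  · subst hj
    have : i ≠ 0 := by rcases hij with h | h; exact h; exact absurd rfl h
    have : 0 < i ^ 2 := by positivity
    nlinarith [this]
  · have h1 : 0 < j ^ 2 := by positivity
    have h2 : 0 < (4 * a * n - t ^ 2) * j ^ 2 := by
      apply mul_pos _ h1; linarith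
    have h3 : 0 < 4 * a * (a * i ^ 2 + t * i * j + n * j ^ 2) := by
      have : 4 * a * (a * i ^ 2 + t * i * j + n * j ^ 2) = (2 * a * i + t * j) ^ 2 +
        (4 * a * n - t ^ 2) * j ^ 2 := by ring
      rw [this]
      have := sq_nonneg (2 * a * i + t * j)
      linarith
    by_contra hneg
    push Not at hneg
    have : 4 * a * (a * i ^ 2 + t * i * j + n * j ^ 2) ≤ 0 := by
      have h4 : 0 ≤ 4 * a := by linarith
      exact mul_nonpos_of_nonneg_of_nonpos h4 hneg
    linarith

/-- All the points of a rank two lattice are represented. -/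
theorem lattice2 (hι : Function.Injective ι) (ht : (2 : L) ≠ 0)
    (hΔ : IsUnit (dsc (C ra) (C rb) (C rc) : R[X]))
    {G H G0 H0 : (EW (ι (C ra)) (ι (C rb)) (ι (C rc))).Point} {a t n : ℤ} (ha : 0 < a)
    (hdisc : t ^ 2 < 4 * a * n)
    (hG : Rep ι G G0 a.toNat) (hH : Rep ι H H0 n.toNat) (hGH : Rep ι (G - H) (G0 - H0) (nf3 a t n 1 (-1)).toNat)
    (hnz : ∀ i j : ℤ, (i ≠ 0 ∨ j ≠ 0) → i • G + j • H ≠ 0) :
    ∀ i j : ℤ, (i ≠ 0 ∨ j ≠ 0) →
      Rep ι (i • G + j • H) (i • G0 + j • H0) (nf3 a t n i j).toNat := by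
  have hpos : ∀ i j : ℤ, (i ≠ 0 ∨ j ≠ 0) → 0 < nf3 a t n i j := fun i j hij =>
    nf3_pos ha hdisc hij
  -- the general step
  have step : ∀ i j i' j' : ℤ, (i ≠ 0 ∨ j ≠ 0) → (i' ≠ 0 ∨ j' ≠ 0) → (i - i' ≠ 0 ∨ j - j' ≠ 0) →
      (i + i' ≠ 0 ∨ j + j' ≠ 0) →
      Rep ι (i • G + j • H) (i • G0 + j • H0) (nf3 a t n i j).toNat →
      Rep ι (i' • G + j' • H) (i' • G0 + j' • H0) (nf3 a t n i' j').toNat →
      Rep ι ((i - i') • G + (j - j') • H) ((i - i') • G0 + (j - j') • H0)
        (nf3 a t n (i - i') (j - j')).toNat →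
      Rep ι ((i + i') • G + (j + j') • H) ((i + i') • G0 + (j + j') • H0)
        (nf3 a t n (i + i') (j + j')).toNat := by
    intro i j i' j' z1 z2 z3 z4 r1 r2 r3
    have e1 : (i - i') • G + (j - j') • H = (i • G + j • H) - (i' • G + j' • H) := by
      rw [sub_smul, sub_smul]; abel
    have e2 : (i - i') • G0 + (j - j') • H0 = (i • G0 + j • H0) - (i' • G0 + j' • H0) := by
      rw [sub_smul, sub_smul]; abel
    have e3 : (i + i') • G + (j + j') • H = (i • G + j • H) + (i' • G + j' • H) := by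
      rw [add_smul, add_smul]; abel
    have e4 : (i + i') • G0 + (j + j') • H0 = (i • G0 + j • H0) + (i' • G0 + j' • H0) := by
      rw [add_smul, add_smul]; abel
    rw [e1, e2] at r3
    rw [e3, e4]
    refine step_alg hι ht hΔ r1 r2 r3 ?_ ?_ ?_
    · rw [← e3]; exact hnz _ _ z4
    · have p1 := hpos _ _ z1
      have p2 := hpos _ _ z2
      have p3 := hpos _ _ z3
      have p4 := hpos _ _ z4
      have : nf3 a t n (i - i') (j - j') + nf3 a t n (i + i') (j + j') =
        2 * nf3 a t n i j + 2 * nf3 a t n i' j' := by unfold nf3; ring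
      omega
    · have p4 := hpos _ _ z4
      omega
  have hG' : Rep ι ((1 : ℤ) • G + (0 : ℤ) • H) ((1 : ℤ) • G0 + (0 : ℤ) • H0) (nf3 a t n 1 0).toNat := by
    simpa [nf3] using hG
  have hH' : Rep ι ((0 : ℤ) • G + (1 : ℤ) • H) ((0 : ℤ) • G0 + (1 : ℤ) • H0) (nf3 a t n 0 1).toNat := by
    simpa [nf3] using hH
  have hGH' : Rep ι ((1 : ℤ) • G + (-1 : ℤ) • H) ((1 : ℤ) • G0 + (-1 : ℤ) • H0)
      (nf3 a t n 1 (-1)).toNat := by
    have e1 : (1 : ℤ) • G + (-1 : ℤ) • H = G - H := by simp [sub_eq_add_neg]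
    have e2 : (1 : ℤ) • G0 + (-1 : ℤ) • H0 = G0 - H0 := by simp [sub_eq_add_neg]
    rw [e1, e2]; exact hGH
  have negr : ∀ i j : ℤ, Rep ι (i • G + j • H) (i • G0 + j • H0) (nf3 a t n i j).toNat →
      Rep ι ((-i) • G + (-j) • H) ((-i) • G0 + (-j) • H0) (nf3 a t n (-i) (-j)).toNat := by
    intro i j h
    have e1 : (-i) • G + (-j) • H = -(i • G + j • H) := by rw [neg_smul, neg_smul]; abel
    have e2 : (-i) • G0 + (-j) • H0 = -(i • G0 + j • H0) := by rw [neg_smul, neg_smul]; abel
    have e3 : nf3 a t n (-i) (-j) = nf3 a t n i j := by unfold nf3; ring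
    rw [e1, e2, e3]; exact h.neg
  have dupr : ∀ i j : ℤ, (i ≠ 0 ∨ j ≠ 0) →
      Rep ι (i • G + j • H) (i • G0 + j • H0) (nf3 a t n i j).toNat →
      Rep ι ((i + i) • G + (j + j) • H) ((i + i) • G0 + (j + j) • H0)
        (nf3 a t n (i + i) (j + j)).toNat := by
    intro i j hij h
    have e3 : (i + i) • G + (j + j) • H = (i • G + j • H) + (i • G + j • H) := by
      rw [add_smul, add_smul]; abel
    have e4 : (i + i) • G0 + (j + j) • H0 = (i • G0 + j • H0) + (i • G0 + j • H0) := by
      rw [add_smul, add_smul]; abel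
    have e5 : (nf3 a t n (i + i) (j + j)).toNat = 4 * (nf3 a t n i j).toNat := by
      have p1 := hpos _ _ hij
      have : nf3 a t n (i + i) (j + j) = 4 * nf3 a t n i j := by unfold nf3; ring
      omega
    rw [e5]
    have hne := hnz (i + i) (j + j) (by omega)
    rw [e3] at hne ⊢
    rw [e4]
    exact step_dup hι ht hΔ h hne
  -- row zero
  have row0 : ∀ i : ℕ, Rep ι (((i : ℤ) + 1) • G + (0 : ℤ) • H) (((i : ℤ) + 1) • G0 + (0 : ℤ) • H0)
      (nf3 a t n ((i : ℤ) + 1) 0).toNat := by
    intro i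
    induction i using Nat.strong_induction_on with
    | _ i ih =>
      rcases i with _ | _ | i
      · simpa using hG'
      · have := dupr 1 0 (by simp) hG'
        simpa using this
      · have r1 := ih (i + 1) (by omega)
        have r2 := ih i (by omega)
        have := step (((i + 1 : ℕ) : ℤ) + 1) 0 1 0 (by left; omega) (by simp) (by left; push_cast; omega)
          (by left; omega) r1 hG'
        have e1 : ((i + 1 : ℕ) : ℤ) + 1 - 1 = (i : ℤ) + 1 := by push_cast; ring
        have e2 : ((i + 1 : ℕ) : ℤ) + 1 + 1 = ((i + 2 : ℕ) : ℤ) + 1 := by push_cast; ring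
        rw [e1, e2, sub_zero, add_zero] at this
        exact this r2
  have row0' : ∀ i : ℤ, i ≠ 0 → Rep ι (i • G + (0 : ℤ) • H) (i • G0 + (0 : ℤ) • H0)
      (nf3 a t n i 0).toNat := by
    intro i hi
    rcases lt_or_gt_of_ne hi with h | h
    · have r := negr _ _ (row0 ((-i).toNat - 1))
      have e : -((((-i).toNat - 1 : ℕ) : ℤ) + 1) = i := by omega
      rw [e, neg_zero] at r
      exact r
    · have r := row0 (i.toNat - 1)
      have e : (((i.toNat - 1 : ℕ) : ℤ) + 1) = i := by omega
      rw [e] at r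
      exact r
  -- a row with two consecutive entries
  have rowgen : ∀ j : ℤ, j ≠ 0 → ∀ i0 : ℤ,
      Rep ι (i0 • G + j • H) (i0 • G0 + j • H0) (nf3 a t n i0 j).toNat →
      Rep ι ((i0 - 1) • G + j • H) ((i0 - 1) • G0 + j • H0) (nf3 a t n (i0 - 1) j).toNat →
      ∀ i : ℤ, Rep ι (i • G + j • H) (i • G0 + j • H0) (nf3 a t n i j).toNat := by
    intro j hj i0 h0 h1
    have up : ∀ k : ℕ, Rep ι ((i0 + k) • G + j • H) ((i0 + k) • G0 + j • H0)
        (nf3 a t n (i0 + k) j).toNat ∧ Rep ι ((i0 + k - 1) • G + j • H) ((i0 + k - 1) • G0 + j • H0)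
        (nf3 a t n (i0 + k - 1) j).toNat := by
      intro k
      induction k with
      | zero => simpa using ⟨h0, h1⟩
      | succ k ih =>
        obtain ⟨r1, r2⟩ := ih
        have := step (i0 + k) j 1 0 (by right; exact hj) (by simp) (by right; omega)
          (by right; omega) r1 hG'
        rw [sub_zero, add_zero] at this
        have r3 := this r2
        have e1 : i0 + (k : ℤ) + 1 = i0 + ((k + 1 : ℕ) : ℤ) := by push_cast; ring
        have e2 : i0 + ((k + 1 : ℕ) : ℤ) - 1 = i0 + k := by push_cast; ring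
        rw [e1] at r3
        rw [e2]
        exact ⟨r3, r1⟩
    have down : ∀ k : ℕ, Rep ι ((i0 - k) • G + j • H) ((i0 - k) • G0 + j • H0)
        (nf3 a t n (i0 - k) j).toNat ∧ Rep ι ((i0 - k - 1) • G + j • H) ((i0 - k - 1) • G0 + j • H0)
        (nf3 a t n (i0 - k - 1) j).toNat := by
      intro k
      induction k with
      | zero => simpa using ⟨h0, h1⟩
      | succ k ih =>
        obtain ⟨r1, r2⟩ := ih
        have := step (i0 - k - 1) j (-1) 0 (by right; exact hj) (by simp) (by right; omega)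
          (by right; omega) r2 (by simpa using negr _ _ hG')
        rw [sub_zero, add_zero] at this
        have e0 : i0 - (k : ℤ) - 1 - (-1) = i0 - k := by ring
        rw [e0] at this
        have r3 := this r1
        have e1 : i0 - (k : ℤ) - 1 + -1 = i0 - ((k + 1 : ℕ) : ℤ) - 1 := by push_cast; ring
        have e2 : i0 - ((k + 1 : ℕ) : ℤ) = i0 - k - 1 := by push_cast; ring
        rw [e1] at r3
        rw [e2] at r3 ⊢
        exact ⟨r2, r3⟩
    intro i
    rcases le_total i0 i with h | h
    · have := (up (i - i0).toNat).1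
      have e : i0 + ((i - i0).toNat : ℤ) = i := by omega
      rw [e] at this; exact this
    · have := (down (i0 - i).toNat).1
      have e : i0 - ((i0 - i).toNat : ℤ) = i := by omega
      rw [e] at this; exact this
  have row1 : ∀ i : ℤ, Rep ι (i • G + (1 : ℤ) • H) (i • G0 + (1 : ℤ) • H0) (nf3 a t n i 1).toNat := by
    refine rowgen 1 one_ne_zero 0 hH' ?_
    have := negr _ _ hGH'
    simpa using this
  have rows : ∀ j : ℕ, ∀ i : ℤ, Rep ι (i • G + ((j : ℤ) + 1) • H) (i • G0 + ((j : ℤ) + 1) • H0)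
      (nf3 a t n i ((j : ℤ) + 1)).toNat := by
    intro j
    induction j using Nat.strong_induction_on with
    | _ j ih =>
      rcases j with _ | _ | j
      · simpa using row1
      · -- row two
        have key : ∀ i : ℤ, i ≠ 0 → Rep ι (i • G + (2 : ℤ) • H) (i • G0 + (2 : ℤ) • H0)
            (nf3 a t n i 2).toNat := by
          intro i hi
          have := step i 1 0 1 (by left; exact hi) (by simp) (by left; simpa using hi)
            (by left; simpa using hi) (row1 i) hH'
          have e : (1 : ℤ) + 1 = 2 := by norm_num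
          rw [sub_zero, add_zero, e, sub_self] at this
          exact this (row0' i hi)
        intro i
        have e : (((0 + 1 : ℕ) : ℤ) + 1) = 2 := by norm_num
        rw [e]
        by_cases hi : i = 0
        · subst hi
          have := dupr 0 1 (by simp) hH'
          have e : (1 : ℤ) + 1 = 2 := by norm_num
          rw [e, add_zero] at this
          exact this
        · exact key i hi
      · intro i
        have r1 := ih (j + 1) (by omega) i
        have r2 := ih j (by omega) i
        have := step i (((j + 1 : ℕ) : ℤ) + 1) 0 1 (by right; omega) (by simp) (by right; push_cast; omega)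
          (by right; omega) r1 hH'
        have e1 : ((j + 1 : ℕ) : ℤ) + 1 - 1 = (j : ℤ) + 1 := by push_cast; ring
        have e2 : ((j + 1 : ℕ) : ℤ) + 1 + 1 = ((j + 2 : ℕ) : ℤ) + 1 := by push_cast; ring
        rw [e1, e2, sub_zero, add_zero] at this
        exact this r2
  intro i j hij
  rcases lt_trichotomy j 0 with h | h | h
  · have r := negr _ _ (rows ((-j).toNat - 1) (-i))
    have e : -((((-j).toNat - 1 : ℕ) : ℤ) + 1) = j := by omega
    rw [e, neg_neg] at r
    exact r
  · subst h
    exact row0' i (by rcases hij with h | h; exact h; exact absurd rfl h)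
  · have r := rows (j.toNat - 1) i
    have e : (((j.toNat - 1 : ℕ) : ℤ) + 1) = j := by omega
    rw [e] at r
    exact r


/-- The differential equation for a map between two curves. -/
theorem ode_of_rep2 (hι : Function.Injective ι) (h4 : (2 : L) ≠ 0) {y : L} {d : L → L} {f : R[X]}
    (hy : y ^ 2 = ι f)
    (h1 : ∀ u v, d (u + v) = d u + d v)
    (h2 : ∀ u v, d (u * v) = u * d v + v * d u)
    (h3 : ∀ p : R[X], d (ι p) = 2 * y * ι (derivative p))
    {P : (EW (ι (C ra)) (ι (C rb)) (ι (C rc))).Point} {N D : R[X]} {α : R}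
    (hx : XR (ι N) (ι D) P) (hP : P ≠ 0) (ho : Om d (ι (C α)) P) :
    f * (derivative N * D - N * derivative D) ^ 2 =
      C α ^ 2 * D * (N ^ 3 + C ra * N ^ 2 * D + C rb * N * D ^ 2 + C rc * D ^ 3) := by
  rcases P with _ | ⟨x3, y3, hP3⟩
  · exact absurd rfl hP
  have hx' : ι N = x3 * ι D := hx
  obtain ⟨o1, o2⟩ := ho
  have f3 := eq_of_nonsing hP3
  unfold fx at f3
  have e1 : 2 * y * ι (derivative N) = x3 * (2 * y * ι (derivative D)) + ι D * (2 * y3 * ι (C α)) := by
    have := congrArg d hx'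
    rw [h2, h3, h3, o1] at this
    exact this
  apply hι
  have e2 : y * (ι (derivative N) * ι D - ι N * ι (derivative D)) = (ι D) ^ 2 * y3 * ι (C α) := by
    have : 2 * (y * (ι (derivative N) * ι D - ι N * ι (derivative D)) -
        (ι D) ^ 2 * y3 * ι (C α)) = 0 := by
      rw [hx']
      linear_combination ι D * e1
    rcases mul_eq_zero.1 this with h | h
    · exact absurd h h4
    · linear_combination h
  have e3 : y ^ 2 * (ι (derivative N) * ι D - ι N * ι (derivative D)) ^ 2 =
      ((ι D) ^ 2 * y3 * ι (C α)) ^ 2 := by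
    rw [← e2]; ring
  rw [map_mul, ← hy]
  simp only [map_add, map_mul, map_pow, map_sub]
  rw [e3, hx']
  linear_combination (ι D) ^ 4 * (ι (C α)) ^ 2 * f3

end Pool.Agent.H35.Q51
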