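import Mathlib

/-!
Polynomials with coefficients in `ℤ[√17, √-3]`, represented by lists, and their evaluation.
-/

set_option autoImplicit false
set_option linter.unusedSectionVars false
set_option linter.unusedSimpArgs false
set_option linter.unusedVariables false

namespace Pool.Agent.H35.Q51

/-- elements `a + b s + c t + d s t` -/
structure Z4 where
  a : ℤ
  b : ℤ
  c : ℤ
  d : ℤ

namespace Z4

def add (x y : Z4) : Z4 := ⟨x.a + y.a, x.b + y.b, x.c + y.c, x.d + y.d⟩
def neg (x : Z4) : Z4 := ⟨-x.a, -x.b, -x.c, -x.d⟩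
def mul (x y : Z4) : Z4 :=
  ⟨x.a * y.a + 17 * (x.b * y.b) - 3 * (x.c * y.c) - 51 * (x.d * y.d),
    x.a * y.b + x.b * y.a - 3 * (x.c * y.d + x.d * y.c),
    x.a * y.c + x.c * y.a + 17 * (x.b * y.d + x.d * y.b),
    x.a * y.d + x.d * y.a + x.b * y.c + x.c * y.b⟩
/-- conjugation `t ↦ -t` -/
def cj (x : Z4) : Z4 := ⟨x.a, x.b, -x.c, -x.d⟩
/-- conjugation `s ↦ -s` -/
def cs (x : Z4) : Z4 := ⟨x.a, -x.b, x.c, -x.d⟩
def isz (x : Z4) : Bool := x.a == 0 && x.b == 0 && x.c == 0 && x.d == 0

variable {A : Type*} [CommRing A]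

/-- evaluation -/
def ev (s t : A) (x : Z4) : A := x.a + x.b * s + x.c * t + x.d * (s * t)

theorem ev_add (s t : A) (x y : Z4) : ev s t (add x y) = ev s t x + ev s t y := by
  unfold ev add; push_cast; ring

theorem ev_neg (s t : A) (x : Z4) : ev s t (neg x) = -ev s t x := by
  unfold ev neg; push_cast; ring

theorem ev_mul {s t : A} (hs : s ^ 2 = 17) (ht : t ^ 2 = -3) (x y : Z4) :
    ev s t (mul x y) = ev s t x * ev s t y := by
  unfold ev mul
  push_cast
  linear_combination (-(x.b * y.b : A) - x.d * y.d * t ^ 2 - (x.b * y.d + x.d * y.b) * t) * hs +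
    (-(x.c * y.c : A) - 17 * x.d * y.d - (x.c * y.d + x.d * y.c) * s) * ht

theorem ev_cj (s t : A) (x : Z4) : ev s t (cj x) = ev s (-t) x := by
  unfold ev cj; push_cast; ring

theorem ev_cs (s t : A) (x : Z4) : ev s t (cs x) = ev (-s) t x := by
  unfold ev cs; push_cast; ring

theorem ev_isz (s t : A) {x : Z4} (h : isz x = true) : ev s t x = 0 := by
  unfold isz at h
  simp only [Bool.and_eq_true, beq_iff_eq] at h
  obtain ⟨⟨⟨h1, h2⟩, h3⟩, h4⟩ := h
  unfold ev
  rw [h1, h2, h3, h4]
  push_cast
  ring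

end Z4

/-- polynomials -/
abbrev PL := List Z4

def padd : PL → PL → PL
  | [], m => m
  | a :: l, [] => a :: l
  | a :: l, b :: m => Z4.add a b :: padd l m

def pneg (l : PL) : PL := l.map Z4.neg
def pscal (a : Z4) (l : PL) : PL := l.map (Z4.mul a)
def pmul : PL → PL → PL
  | [], _ => []
  | a :: l, m => padd (pscal a m) (⟨0, 0, 0, 0⟩ :: pmul l m)
def pcj (l : PL) : PL := l.map Z4.cj
def pcs (l : PL) : PL := l.map Z4.cs
def pz (l : PL) : Bool := l.all Z4.isz
def pder : PL → PL
  | [] => []
  | _ :: l => padd l (⟨0, 0, 0, 0⟩ :: pder l)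
def psub (l m : PL) : PL := padd l (pneg m)
def ppow (l : PL) : ℕ → PL
  | 0 => [⟨1, 0, 0, 0⟩]
  | n + 1 => pmul l (ppow l n)

section eval

variable {A : Type*} [CommRing A]

/-- evaluation of a polynomial -/
def evL (s t x : A) : PL → A
  | [] => 0
  | a :: l => a.ev s t + x * evL s t x l

variable (s t x : A)

theorem evL_padd (l m : PL) : evL s t x (padd l m) = evL s t x l + evL s t x m := by
  induction l generalizing m with
  | nil => simp [padd, evL]
  | cons a l ih =>
    cases m with
    | nil => simp [padd, evL]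
    | cons b m =>
      simp only [padd, evL, ih, Z4.ev_add]
      ring

theorem evL_pneg (l : PL) : evL s t x (pneg l) = -evL s t x l := by
  induction l with
  | nil => simp [pneg, evL]
  | cons a l ih =>
    unfold pneg at ih ⊢
    simp only [List.map_cons, evL, ih, Z4.ev_neg]
    ring

theorem evL_psub (l m : PL) : evL s t x (psub l m) = evL s t x l - evL s t x m := by
  unfold psub
  rw [evL_padd, evL_pneg]; ring

theorem evL_pcj (l : PL) : evL s t x (pcj l) = evL s (-t) x l := by
  induction l with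
  | nil => simp [pcj, evL]
  | cons a l ih =>
    unfold pcj at ih ⊢
    simp only [List.map_cons, evL, ih, Z4.ev_cj]

theorem evL_pcs (l : PL) : evL s t x (pcs l) = evL (-s) t x l := by
  induction l with
  | nil => simp [pcs, evL]
  | cons a l ih =>
    unfold pcs at ih ⊢
    simp only [List.map_cons, evL, ih, Z4.ev_cs]

theorem evL_pz {l : PL} (h : pz l = true) : evL s t x l = 0 := by
  induction l with
  | nil => rfl
  | cons a l ih =>
    unfold pz at h ih
    rw [List.all_cons, Bool.and_eq_true] at h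
    simp only [evL, Z4.ev_isz s t h.1, ih h.2]
    ring

variable {s t}

theorem evL_pscal (hs : s ^ 2 = 17) (ht : t ^ 2 = -3) (a : Z4) (l : PL) :
    evL s t x (pscal a l) = a.ev s t * evL s t x l := by
  induction l with
  | nil => simp [pscal, evL]
  | cons b l ih =>
    unfold pscal at ih ⊢
    simp only [List.map_cons, evL, ih, Z4.ev_mul hs ht]
    ring

theorem evL_pmul (hs : s ^ 2 = 17) (ht : t ^ 2 = -3) (l m : PL) :
    evL s t x (pmul l m) = evL s t x l * evL s t x m := by
  induction l with
  | nil => simp [pmul, evL]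
  | cons b l ih =>
    simp only [pmul, evL_padd, evL_pscal x hs ht, evL, ih]
    unfold Z4.ev
    push_cast
    ring

theorem evL_ppow (hs : s ^ 2 = 17) (ht : t ^ 2 = -3) (l : PL) (n : ℕ) :
    evL s t x (ppow l n) = evL s t x l ^ n := by
  induction n with
  | zero => simp [ppow, evL, Z4.ev]
  | succ n ih =>
    simp only [ppow, evL_pmul x hs ht, ih]
    ring

theorem evL_map {B : Type*} [CommRing B] (f : A →+* B) (s t x : A) (l : PL) :
    f (evL s t x l) = evL (f s) (f t) (f x) l := by
  induction l with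
  | nil => simp [evL]
  | cons a l ih =>
    simp only [evL, map_add, map_mul, ih]
    unfold Z4.ev
    simp only [map_add, map_mul, map_intCast]

end eval

section poly

open Polynomial

variable {R : Type*} [CommRing R]

/-- the polynomial attached to a list -/
noncomputable def PX (s t : R) (l : PL) : R[X] := evL (C s) (C t) X l

theorem PX_nil (s t : R) : PX s t [] = 0 := rfl

theorem PX_cons (s t : R) (a : Z4) (l : PL) : PX s t (a :: l) = C (a.ev s t) + X * PX s t l := by
  unfold PX
  simp only [evL]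
  congr 1
  unfold Z4.ev
  simp only [map_add, map_mul, map_intCast]

theorem PX_coeff (s t : R) (l : PL) (k : ℕ) :
    (PX s t l).coeff k = (l.getD k ⟨0, 0, 0, 0⟩).ev s t := by
  induction l generalizing k with
  | nil => simp [PX_nil, Z4.ev]
  | cons a l ih =>
    rw [PX_cons]
    rcases k with _ | k
    · simp
    · rw [coeff_add, coeff_C_succ, coeff_X_mul, ih]
      simp

theorem PX_natDegree (s t : R) (l : PL) {n : ℕ} (h : l.length ≤ n + 1) :
    (PX s t l).natDegree ≤ n := by
  rw [natDegree_le_iff_coeff_eq_zero]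
  intro N hN
  rw [PX_coeff, List.getD_eq_default _ _ (by omega)]
  simp [Z4.ev]

theorem PX_der (s t : R) (l : PL) : derivative (PX s t l) = PX s t (pder l) := by
  induction l with
  | nil => simp [PX_nil, pder]
  | cons a l ih =>
    rw [PX_cons, derivative_add, derivative_C, derivative_mul, derivative_X, ih]
    unfold PX
    simp only [pder, evL_padd, evL]
    unfold Z4.ev
    push_cast
    ring

theorem PX_map {S : Type*} [CommRing S] (f : R →+* S) (s t : R) (l : PL) :
    (PX s t l).map f = PX (f s) (f t) l := by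
  unfold PX
  have := evL_map (mapRingHom f) (C s) (C t) X l
  simpa using this

theorem ι_PX {L : Type*} [CommRing L] (ι : R[X] →+* L) (s t : R) (l : PL) :
    ι (PX s t l) = evL (ι (C s)) (ι (C t)) (ι X) l := evL_map ι _ _ _ l

theorem PX_monic (s t : R) (l : PL) {n : ℕ} (h : l.length ≤ n + 1) (h2 : l.getD n ⟨0, 0, 0, 0⟩ = ⟨1, 0, 0, 0⟩) :
    (PX s t l).Monic := by
  apply monic_of_natDegree_le_of_coeff_eq_one n (PX_natDegree s t l h)
  rw [PX_coeff, h2]
  simp [Z4.ev]

theorem PX_natDegree_eq [Nontrivial R] (s t : R) (l : PL) {n : ℕ} (h : l.length ≤ n + 1)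
    (h2 : l.getD n ⟨0, 0, 0, 0⟩ = ⟨1, 0, 0, 0⟩) :
    (PX s t l).natDegree = n := by
  apply natDegree_eq_of_le_of_coeff_ne_zero (PX_natDegree s t l h)
  rw [PX_coeff, h2]
  simp [Z4.ev]

theorem PX_eval_zero (s t : R) (a : Z4) (l : PL) : (PX s t (a :: l)).eval 0 = a.ev s t := by
  rw [PX_cons]; simp

end poly

end Pool.Agent.H35.Q51
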